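import Pool.Agent.Lib.CL88.Defs

open AlgebraicGeometry CategoryTheory Limits Filter Module Pool.Agent.Lib.CL88

noncomputable section

namespace Pool.Agent.Lib.CQ88

/-- Euler integral on the affine line of a function that is constant off a finite set. -/
def chi1 (f : ℂ → ℂ) : ℂ :=
  (Classical.epsilon fun c => ∀ᶠ a in cofinite, f a = c) +
    ∑ᶠ a, (f a - Classical.epsilon fun c => ∀ᶠ a in cofinite, f a = c)

/-- Euler integral of a constructible function on affine `n`-space, fibre by fibre. -/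
def chiN : (n : ℕ) → ((Fin n → ℂ) → ℂ) → ℂ
  | 0, F => F ![]
  | n + 1, F => chi1 fun a => chiN n fun c => F (Fin.cons a c)

/-- Euler integral on a finite-dimensional complex vector space. -/
def chiV (W : Type) [AddCommGroup W] [Module ℂ W] (F : W → ℂ) : ℂ :=
  chiN (finrank ℂ W) fun c =>
    F (Classical.epsilon (fun e : (Fin (finrank ℂ W) → ℂ) →ₗ[ℂ] W => Function.Bijective e) c)

open Classical in
/-- Euler integral over the Grassmannian of subspaces of `W`, pulled back to the projectors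
(an affine-space bundle over the Grassmannian). -/
def chiGr (W : Type) [AddCommGroup W] [Module ℂ W] (F : Submodule ℂ W → ℂ) : ℂ :=
  chiV (W →ₗ[ℂ] W) fun P => if P ∘ₗ P = P then F (LinearMap.range P) else 0

open Classical in
/-- Indicator of a proposition. -/
def ind (P : Prop) : ℂ := if P then 1 else 0

variable {C : Scheme.{0}} (s : C ⟶ Spec (.of ℂ))

/-- `M` is coherent: locally it is the cokernel of a map `O^m ⟶ O^n`, that is, there are sections
`e` that generate `M` and relations `ρ` that generate the sheaf of relations among them. -/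
def IsCoh (M : C.Modules) : Prop :=
  ∀ x : C, ∃ U : C.Opens, x ∈ U ∧
    ∃ (n m : ℕ) (e : Fin n → Γ(M, U)) (ρ : Fin m → Fin n → Γ(C, U)), ∀ (V : C.Opens) (i : V ⟶ U),
      (∀ t : Γ(M, V), ∀ y ∈ V, ∃ (W : C.Opens) (j : W ⟶ V) (a : Fin n → Γ(C, W)), y ∈ W ∧
        M.presheaf.map j.op t = ∑ k, a k • M.presheaf.map (j ≫ i).op (e k)) ∧
      ∀ a : Fin n → Γ(C, V), ∑ k, a k • M.presheaf.map i.op (e k) = 0 ↔
        ∀ y ∈ V, ∃ (W : C.Opens) (j : W ⟶ V) (b : Fin m → Γ(C, W)), y ∈ W ∧
          ∀ k, C.presheaf.map j.op (a k) = ∑ l, b l * C.presheaf.map (j ≫ i).op (ρ l k)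

/-- `M` has rank `r`: it is free of rank `r` on some nonempty open set. -/
def HasRank (M : C.Modules) (r : ℕ) : Prop :=
  ∃ U : C.Opens, (∃ x, x ∈ U) ∧ ∃ e : Fin r → Γ(M, U), ∀ (V : C.Opens) (i : V ⟶ U),
    Function.Bijective fun a : Fin r → Γ(C, V) => ∑ j, a j • M.presheaf.map i.op (e j)

/-- `M` is a coherent sheaf of rank `ν.1` and degree `ν.2`. -/
def HasClass (M : C.Modules) (ν : ℕ × ℤ) : Prop :=
  IsCoh M ∧ HasRank M ν.1 ∧ deg s M ν.1 = ν.2

/-- Multiplication by the constant `c` as an endomorphism of `M`. -/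
def scal (M : C.Modules) (c : ℂ) : M ⟶ M :=
  ⟨PresheafOfModules.homMk (mulBy s M c).hom fun U a x =>
    smul_comm (α := Γ(M, U.unop)) (cst s c U.unop) (show Γ(C, U.unop) from a) x⟩

/-- The complex vector space `Hom(L, M)`. -/
def HomC (_s : C ⟶ Spec (.of ℂ)) (L M : C.Modules) : Type := L ⟶ M

instance (L M : C.Modules) : AddCommGroup (HomC s L M) := inferInstanceAs (AddCommGroup (L ⟶ M))

instance (L M : C.Modules) : SMul ℂ (HomC s L M) := ⟨fun c φ => φ ≫ scal s M c⟩

instance (L M : C.Modules) : Module ℂ (HomC s L M) :=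
  Module.ofMinimalAxioms (fun _ _ _ => Preadditive.add_comp ..)
    (fun a b φ => Scheme.Modules.hom_ext _ _ fun U =>
      congr(φ.app U ≫ ($(mulBy_add s M a b)).hom.app (.op U)).trans (Preadditive.comp_add ..))
    (fun a b φ => Scheme.Modules.hom_ext _ _ fun U =>
      congr(φ.app U ≫ ($(mulBy_mul s M a b)).hom.app (.op U)))
    fun φ => Scheme.Modules.hom_ext _ _ fun U =>
      congr(φ.app U ≫ ($(mulBy_one s M)).hom.app (.op U))

/-- Functions on sheaves of modules; those used below vanish on sheaves that are not coherent. -/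
abbrev Fn (C : Scheme.{0}) : Type 1 := C.Modules → ℂ

/-- The Euler integral of `f (M / N) g (N)` over the subsheaves `N` of `M`, which are mapped to
the Grassmannian of `Hom(L, M)` by `N ↦ Hom(L, N)`. -/
def hallAt (f g : Fn C) (L M : C.Modules) : ℂ :=
  chiGr (HomC s L M) fun S => ∑ᶠ N : Subobject M,
    ind (∀ φ : HomC s L M, φ ∈ S ↔ N.Factors φ) * (f (cokernel N.arrow) * g N)

/-- `p` is the Euler characteristic Hall product of `f` and `g`: its value at a coherent sheaf `M`
is the above integral for all line bundles `L` of sufficiently negative degree. -/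
def IsHall (f g p : Fn C) : Prop :=
  ∀ M, (¬ IsCoh M → p M = 0) ∧
    (IsCoh M → ∃ b : ℤ, ∀ L, IsBundle L 1 → deg s L 1 ≤ b → hallAt s f g L M = p M)

/-- Constant function on torsion sheaves of degree `d`. -/
def torsFn (d : ℕ) : Fn C := fun M => ind (HasClass s M (0, d))

/-- Constant function on line bundles of degree `l`. -/
def lineFn (l : ℤ) : Fn C := fun M => ind (IsBundle M 1 ∧ deg s M 1 = l)

/-- A graded family of spaces of functions that contains the generators and is closed under the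
Hall product and the coproduct `Δ f (M, N) = f (M ⊕ N)`. -/
structure IsSub (H : ℕ × ℤ → Submodule ℂ (Fn C)) : Prop where
  tors : ∀ d : ℕ, torsFn s d ∈ H (0, d)
  line : ∀ l : ℤ, lineFn s l ∈ H (1, l)
  mul : ∀ μ ν, ∀ f ∈ H μ, ∀ g ∈ H ν, ∃ p ∈ H (μ + ν), IsHall s f g p
  cop : ∀ ν, ∀ f ∈ H ν, ∃ (n : ℕ) (μ₁ μ₂ : Fin n → ℕ × ℤ) (f₁ f₂ : Fin n → Fn C),
    (∀ k, f₁ k ∈ H (μ₁ k) ∧ f₂ k ∈ H (μ₂ k) ∧ μ₁ k + μ₂ k = ν) ∧
      ∀ M N, IsCoh M → IsCoh N → f (M ⊞ N) = ∑ k, f₁ k M * f₂ k N

/-- Graded pieces of the spherical Hall algebra, the smallest such family. -/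
def sph (ν : ℕ × ℤ) : Submodule ℂ (Fn C) := ⨅ (H) (_ : IsSub s H), H ν

/-- Primitive for the coproduct. -/
def Prim (f : Fn C) : Prop :=
  ∀ M N, IsCoh M → IsCoh N → f (M ⊞ N) = f M * ind (IsZero N) + ind (IsZero M) * f N

/-- Graded pieces of the spherical Hall Lie algebra. -/
def sphLie (ν : ℕ × ℤ) : Submodule ℂ (Fn C) := Submodule.span ℂ {f | f ∈ sph s ν ∧ Prim f}

end Pool.Agent.Lib.CQ88
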