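import Pool.Agent.Lib.CQ88.Alg
import Pool.Agent.Lib.CQ88.Defs
import Pool.Agent.Lib.CC61.GKit2

open Filter Set WithZero Module Finsupp
open Pool.Agent.Lib.MP_cc3443_ag Pool.Agent.Lib.CC61

noncomputable section

namespace Pool.Agent.Lib.CQ88

lemma chiN_eq (n : ℕ) : chiN n = MP_cc3443_ag.chiN n := by
  induction n with
  | zero => rfl
  | succ n h => exact funext fun F => congr(chi1 fun a => $h fun c => F (Fin.cons a c))

open Classical in
lemma chiGr_def (W : Type) [AddCommGroup W] [Module ℂ W] (F : Submodule ℂ W → ℂ) :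
    chiGr W F = MP_cc3443_ag.chiN (finrank ℂ (W →ₗ[ℂ] W)) fun a =>
      if epsE _ a ∘ₗ epsE _ a = epsE (W →ₗ[ℂ] W) a then
        F (LinearMap.range (epsE (W →ₗ[ℂ] W) a)) else 0 := congrFun (chiN_eq _) _

variable {K : Type} [Field K] [Algebra ℂ K] [Algebra (RatFunc ℂ) K]
  [IsScalarTower ℂ (RatFunc ℂ) K] [FiniteDimensional (RatFunc ℂ) K] {N : ℕ} {E F G : Lat K N}

lemma reg_of_decomp (h : ∀ w ∈ G.gen, ∃ α ∈ G.Γ (U0 K), uu K • (w - α) ∈ G.Γ (Ui K)) :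
    Reg G 0 := by
  obtain ⟨m, e, a, h1⟩ := exists_isBG G
  refine ⟨m, e, a, h1, fun i => by_contra fun h2 => one_ne_zero (α := RatFunc ℂ) ?_⟩
  obtain ⟨α, h3, h4⟩ := h _ ((h1.span _).2 ⟨Pi.single i (RatFunc.X ^ a i), rfl⟩)
  obtain ⟨x, hx⟩ := exists_place_over (uu_transc (K := K)) 0
  obtain ⟨q, rfl⟩ := (h1.span α).1 (Lat.mem_gen (h3 x (x.mem_of_val_sub_lt hx)))
  have h5 := (h1.inf fun j => RatFunc.X ^ (1 : ℤ) *
    ((Pi.single i (RatFunc.X ^ a i) : Fin m → RatFunc ℂ) j - q j)).1 (by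
      simpa only [uu, algebraMap_smul, zpow_one, mul_smul, sub_smul, ← Finset.sum_sub_distrib,
        Finset.smul_sum] using h4) i
  refine decomp_uniq (a := a i - 1) (mem_Pk.2 ⟨one_mem _, ?_⟩) ((h1.fin q).1 h3 i) ?_
  · rw [map_one, ← exp_zero, exp_le_exp]
    omega
  · simpa only [vI_mul_zpow_le, Pi.single_eq_same, sub_add_cancel, mul_one] using h5

lemma chiL_le_hdim (G : Lat K N) (n : ℤ) : chiL G + n * (dlt K * rk G) ≤ hdim G n := by
  obtain ⟨m, e, a, h⟩ := exists_isBG G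
  have h1 : ∑ i, (a i + n + 1) = ∑ i, (a i + 1) + n * m := by
    simp [Finset.sum_add_distrib]
    ring
  rw [h.hdim_eq, h.chiL_eq, ← Nat.cast_mul, ← h.card, ← h1]
  exact Finset.sum_le_sum fun i _ => Int.self_le_toNat _

lemma exists_reg_twist (E : Lat K N) (c : ℤ) : ∃ b : ℤ, ∀ A : Place K →₀ ℤ, degree A ≤ b →
    ∀ G ≤ E, chiL G = c → Reg (G.twist (-A)) 0 := by
  obtain ⟨n, hn⟩ := exists_uniform_reg E c
  refine ⟨chiO K - n * dlt K - 1, fun A hA G h1 h2 => reg_of_decomp fun w hw => ?_⟩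
  obtain ⟨m, e, a, h3, h4⟩ := hn G h1 h2
  have h5 := chiL_le_hdim (line (1 : Fin 1 → K) (-A)) (-n)
  rw [chiL_line one_ne_zero', rk_line one_ne_zero', map_neg] at h5
  obtain ⟨y, h6, h7⟩ := (hdim_ne_zero_iff (L := line (1 : Fin 1 → K) (-A)) (n := -n)).1
    (by push_cast at h5; nlinarith)
  have h8 : y 0 ≠ 0 := fun h => h7 (by rw [eq_smul_one y, h, zero_smul])
  have h9 : ∀ x : Place K, x.unif ^ (-A) x * (tw x (-n) * y 0) ∈ x.O := fun x =>
    x.zpow_mul_mem_iff.2 (mem_line_one.1 (mem_sec.1 h6 x))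
  obtain ⟨α, h10, h11⟩ := h3.exists_decomp (n := n - 1) (fun i => by have := h4 i; omega)
    (G.gen.smul_mem (y 0)⁻¹ (G.gen_twist _ ▸ hw))
  refine ⟨y 0 • α, fun x hx => Lat.mem_twist.2 ?_, fun x hx => Lat.mem_twist.2 ?_⟩
  · simpa only [tw_U0 hx, one_mul, mul_smul] using Lat.smul_mem (h9 x) (h10 x hx)
  · convert Lat.smul_mem (h9 x) (h11 x hx) using 1
    have := uu_ne_zero (K := K)
    simp only [tw_Ui hx, smul_sub, smul_smul, neg_neg, neg_sub, zpow_sub₀ this, zpow_one]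
    congr 2 <;> field_simp

lemma Reg.adelic (h : Reg G 0) (a : Place K → Fin N → K) (h1 : ∀ x, a x ∈ G.gen)
    (h2 : {x | a x ∉ G.S x}.Finite) : ∃ w, ∀ x, w - a x ∈ G.S x := by
  obtain ⟨m, e, b, h3, h4⟩ := h
  obtain ⟨w₀, h5⟩ := approx_lat good_U0 a h1 h2
  obtain ⟨w₁, h6⟩ := approx_lat good_Ui a h1 h2
  obtain ⟨x, hx⟩ := exists_place_over (uu_transc (K := K)) 0
  obtain ⟨y, hy⟩ := exists_place_over (transc_inv (uu_transc (K := K))) 0
  have h7 : y ∈ Ui K := fun h => by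
    rw [map_zero, sub_zero, map_inv₀, inv_lt_one₀ (by simpa [pos_iff_ne_zero] using uu_ne_zero)]
      at hy
    exact hy.not_ge (y.mem_iff.1 h)
  obtain ⟨α, h8, h9⟩ := h3.exists_decomp (n := 0) (fun i => by have := h4 i; omega) (sub_mem
    ((Submodule.sub_mem_iff_left _ (h1 x)).1 (Lat.mem_gen (h5 x (x.mem_of_val_sub_lt hx))))
    ((Submodule.sub_mem_iff_left _ (h1 y)).1 (Lat.mem_gen (h6 y h7))))
  refine ⟨w₀ - α, fun z => (U0_or_Ui z).elim (fun h => ?_) fun h => ?_⟩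
  · exact sub_right_comm w₀ _ α ▸ sub_mem (h5 z h) (h8 z h)
  · convert add_mem (h6 z h) (h9 z h) using 1
    simp only [neg_zero, zpow_zero, one_smul]
    abel

variable {W : Type} [AddCommGroup W] [Module ℂ W] (σ : W →ₗ[ℂ] Fin N → K) (A : Place K →₀ ℤ)

/-- The subspace attached to a lattice. -/
def subW (G : Lat K N) : Submodule ℂ W := (sec (G.twist (-A)) 0).comap σ

variable {σ A} (h1 : ∀ w ∈ sec (E.twist (-A)) 0, ∃ φ, w - σ φ ∈ sec (F.twist (-A)) 0)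

include h1 in
lemma le_of_subW {G' : Lat K N} (h2 : F ≤ G) (h3 : G ≤ E) (h4 : F ≤ G')
    (h5 : Reg (G.twist (-A)) 0) (h6 : subW σ A G ≤ subW σ A G') : G ≤ G' := by
  have h7 := Lat.twist_mono (h5.le_of_sec_le (L' := G'.twist (-A)) fun w hw => ?_) A
  · simpa [Lat.twist_twist] using h7
  obtain ⟨φ, hφ⟩ := h1 w (sec_mono (Lat.twist_mono h3 _) 0 hw)
  have h8 : σ φ ∈ sec (G.twist (-A)) 0 :=
    sub_sub_cancel w (σ φ) ▸ sub_mem hw (sec_mono (Lat.twist_mono h2 _) 0 hφ)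
  exact sub_add_cancel w (σ φ) ▸ add_mem (sec_mono (Lat.twist_mono h4 _) 0 hφ) (h6 h8)

variable [Module.Finite ℂ W]

variable (σ A F) in
/-- The lattice generated by the image of an endomorphism. -/
def decW (P : W →ₗ[ℂ] W) : Lat K N :=
  lsup F ((genL 0 fun j => σ (P (finBasis ℂ W j))).twist A)

lemma range_le_subW (P : W →ₗ[ℂ] W) : LinearMap.range P ≤ subW σ A (decW F σ A P) := by
  rw [LinearMap.range_eq_map, ← (finBasis ℂ W).span_eq, Submodule.map_span, Submodule.span_le]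
  rintro _ ⟨_, ⟨j, rfl⟩, rfl⟩
  refine sec_mono (Lat.twist_mono (le_lsup_right _ _) _) 0 ?_
  simpa [Lat.twist_twist] using mem_sec_genL 0 (fun j => σ (P (finBasis ℂ W j))) j

include h1 in
lemma decW_eq {P : W →ₗ[ℂ] W} (h2 : F ≤ G) (h3 : G ≤ E) (h4 : Reg (G.twist (-A)) 0)
    (h5 : LinearMap.range P = subW σ A G) : decW F σ A P = G := by
  refine le_antisymm (lsup_le h2 ?_)
    (le_of_subW h1 h2 h3 (le_lsup_left _ _) h4 (h5 ▸ range_le_subW P))
  simpa [Lat.twist_twist] using Lat.twist_mono (genL_le.2 fun j =>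
    h5.le ⟨finBasis ℂ W j, rfl⟩) A

variable (hσ : Function.Injective σ) {r : ℕ} {c : ℤ}
  (hn : ∀ G, QR E r c G → Reg (G.twist (-A)) 0)

/-- The Grassmannian of `W` as a chart of the Quot scheme. -/
def homChart : Chart (Lat K N) :=
  let e := epsE (W →ₗ[ℂ] W)
  let b := finBasis ℂ W
  have hd : DMap fun a => decW F σ A (e a) := dmap_lsup (DMap.const F)
    ((DMap.genL 0 (DMap.pi fun j => dmap_clinear (σ ∘ₗ e.flip (b j)))).twist A)
  { n := finrank ℂ (W →ₗ[ℂ] W)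
    S a := e a ∘ₗ e a = e a ∧ ∃ G, F ≤ G ∧ QR E r c G ∧ LinearMap.range (e a) = subW σ A G
    dec a := decW F σ A (e a)
    hdec := hd
    hS := by
      have h2 : ∀ j, DMap fun a => σ (e a (e a (b j))) := fun j =>
        (dmap_cbilin ((e.compl₂ (e.flip (b j))).compr₂ σ)).comp (f := fun a => (a, a))
          (by fun_prop)
      have h3 : ∀ j, DMap fun a => σ (e a (b j)) := fun j => dmap_clinear (σ ∘ₗ e.flip (b j))
      have h4 := dmap_cbilin ((e.compl₂ b.equivFun.symm.toLinearMap).compr₂ σ)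
      have h5 := dmap_clinear (σ ∘ₗ b.equivFun.symm.toLinearMap)
      refine ((Del.forall_finite fun j => Del.eq (h2 j) (h3 j)).and
        ((Del.qr (DMap.const E) hd r c).and (Del.forall'
          (P := fun a t => σ (b.equivFun.symm t) ∈ sec ((decW F σ A (e a)).twist (-A)) 0 →
            σ (e a (b.equivFun.symm t)) = σ (b.equivFun.symm t))
          ((Del.mem_sec (h5.comp (f := Prod.snd) (by fun_prop))
            ((hd.twist _).comp (f := Prod.fst) (by fun_prop)) 0).imp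
            (Del.eq h4 (h5.comp (f := Prod.snd) (by fun_prop))))))).congr fun a => ?_
      constructor
      · rintro ⟨h6, h7, h8⟩
        refine ⟨b.ext fun j => hσ (h6 j), _, le_lsup_left _ _, h7,
          le_antisymm (range_le_subW _) fun w hw => ?_⟩
        obtain ⟨t, rfl⟩ := b.equivFun.symm.surjective w
        exact ⟨_, hσ (h8 t hw)⟩
      · rintro ⟨h6, G, h7, h8, h9⟩
        rw [decW_eq h1 h7 h8.1 (hn G h8) h9]
        refine ⟨fun j => congrArg σ (LinearMap.congr_fun h6 (b j)), h8, fun t ht => ?_⟩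
        obtain ⟨v, hv⟩ := h9.ge ht
        rw [← hv]
        exact congrArg σ (LinearMap.congr_fun h6 v)
    fib := by
      rintro a₀ ⟨h₀, G₀, h2, h3, h4⟩
      let T : Submodule ℂ (Fin (finrank ℂ (W →ₗ[ℂ] W)) → ℂ) :=
        LinearMap.ker ((LinearMap.llcomp ℂ W W W (e a₀) - .id) ∘ₗ e) ⊓
          LinearMap.ker (LinearMap.lcomp ℂ W (e a₀) ∘ₗ e)
      rw [← chiN_affine _ a₀ T]
      congr 1
      funext a
      refine ind_congr ?_
      change _ ↔ e a₀ ∘ₗ e (a - a₀) - e (a - a₀) = 0 ∧ e (a - a₀) ∘ₗ e a₀ = 0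
      rw [map_sub, sub_eq_zero, ← idem_range_iff h₀, decW_eq h1 h2 h3.1 (hn G₀ h3) h4, and_assoc]
      refine and_congr_right fun _ => ⟨?_, fun h5 => ⟨⟨G₀, h2, h3, h5.trans h4⟩,
        decW_eq h1 h2 h3.1 (hn G₀ h3) (h5.trans h4)⟩⟩
      rintro ⟨⟨G, h5, h6, h7⟩, h8⟩
      rw [h7, h4, ← h8, decW_eq h1 h5 h6.1 (hn G h6) h7] }

include h1 hσ hn in
open Classical in
theorem chiGr_eq {ψ : Lat K N → ℂ} (hψ : DFun ψ) (hs : ∀ G, ψ G ≠ 0 → F ≤ G ∧ QR E r c G)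
    {Φ : Submodule ℂ W → ℂ} (h2 : ∀ G, F ≤ G → QR E r c G → Φ (subW σ A G) = ψ G)
    (h3 : ∀ S, Φ S ≠ 0 → ∃ G, F ≤ G ∧ QR E r c G ∧ S = subW σ A G) :
    chiGr W Φ = (QC E r c).int ψ := by
  rw [chiGr_def, Chart.int_indep _ (homChart h1 hσ hn) hψ fun G h => ?_]
  · refine congrArg (MP_cc3443_ag.chiN _) (funext fun a => ?_)
    by_cases h : (homChart h1 hσ hn).S a
    · obtain ⟨G, h4, h5, h6⟩ := h.2
      rw [if_pos h.1, ind_true h, one_mul, h6, h2 G h4 h5]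
      exact congrArg ψ (decW_eq h1 h4 h5.1 (hn G h5) h6).symm
    · rw [ind_false h, zero_mul]
      exact ite_eq_right_iff.2 fun h4 => by_contra fun h5 => h ⟨h4, h3 _ h5⟩
  · obtain ⟨h4, h5⟩ := hs G h
    obtain ⟨P, h6, h7⟩ := exists_idem (subW σ A G)
    obtain ⟨a, rfl⟩ := (epsE_bij (W →ₗ[ℂ] W)).2 P
    exact iff_of_true (QC_R.2 h5) ⟨a, ⟨h6, G, h4, h5, h7⟩, decW_eq h1 h4 h5.1 (hn G h5) h7⟩

end Pool.Agent.Lib.CQ88
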