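import Pool.Agent.Lib.CQ88.Coh
import Pool.Agent.Lib.CC61.T24A6

open AlgebraicGeometry CategoryTheory TopologicalSpace Opposite Limits
open Pool.Agent.Lib.MP_cc3443_ag Pool.Agent.Lib.CL88 Pool.Agent.Lib.CC61

noncomputable section

namespace Pool.Agent.Lib.CQ88

variable {K : Type} [Field K] [Algebra ℂ K] {C : Scheme.{0}} {s : C ⟶ Spec (.of ℂ)}
  {D : Dict s K} {n n' r : ℕ}
  [Algebra (RatFunc ℂ) K] [IsScalarTower ℂ (RatFunc ℂ) K] [FiniteDimensional (RatFunc ℂ) K]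
  {L M M' : C.Modules} {E F G : Lat K n} {E' F' : Lat K n'} {U V : C.Opens}

lemma Dict.sec_gen {w : Fin n → K} (h : D.η ∈ U) (hw : w ∈ D.sec E U) : w ∈ E.gen :=
  let ⟨x, hx⟩ := D.exists_pt h
  Lat.mem_gen (hw x hx)

/-- Change of the ambient space. -/
def Rep.map (R : Rep D M E) (p : (Fin n → K) →ₗ[K] Fin n' → K)
    (hp : E.gen ⊓ LinearMap.ker p = ⊥) : Rep D M (E.mapL p) :=
  have h1 : ∀ {v w}, v ∈ E.gen → w ∈ E.gen → p v = p w → v = w := fun hv hw h =>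
    sub_eq_zero.1 (hp.le ⟨sub_mem hv hw, LinearMap.sub_mem_ker_iff.2 h⟩)
  { ι U h := p.toAddMonoidHom.comp (R.ι U h)
    res i hU hW a := congrArg p (R.res i hU hW a)
    inj U h a b e := R.inj U h (h1 (D.sec_gen h ((R.range U h _).1 ⟨a, rfl⟩))
      (D.sec_gen h ((R.range U h _).1 ⟨b, rfl⟩)) e)
    smul U h c a := (congrArg p (R.smul U h c a)).trans (map_smul ..)
    range U h w := ⟨fun ⟨a, e⟩ x hx => e ▸ mem_mapL_of_mem p ((R.range U h _).1 ⟨a, rfl⟩ x hx),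
      fun hw => by
        obtain ⟨x, hx⟩ := D.exists_pt h
        obtain ⟨v, h2, rfl⟩ := Lat.mem_mapL.1 (hw x hx)
        obtain ⟨a, rfl⟩ := (R.range U h v).2 fun y hy =>
          let ⟨_, h3, h4⟩ := Lat.mem_mapL.1 (hw y hy)
          h1 (Lat.mem_gen h3) (Lat.mem_gen h2) h4 ▸ h3
        exact ⟨a, rfl⟩⟩ }

lemma Rep.chi (R : Rep D M E) : Module.Finite ℂ (Coh s M 0) ∧ Module.Finite ℂ (Coh s M 1) ∧
    h s M 0 - h s M 1 = chiL E := by
  obtain ⟨p, h1, h2⟩ := T24.exists_coord E.gen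
  have h3 := (R.map p h1).h0
  have h4 := (R.map p h1).h1 h2
  exact ⟨h3.1, h4.1, by rw [h3.2, h4.2, chiL_mapL_inj h1, sub_sub_cancel]⟩

variable (D) in
include D in
lemma Dict.genus_eq : genus s = 1 - chiO K := by
  have h1 : MP_cc3443_ag.sec (line (1 : Fin 1 → K) 0) 0 = ℂ ∙ 1 := by
    ext w
    rw [mem_sec_line_one, Submodule.mem_span_singleton]
    refine ⟨fun h => ?_, ?_⟩
    · obtain ⟨c, hc⟩ := exists_const fun x => x.mem_iff.2 (h x)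
      exact ⟨c, by rw [eq_smul_one w, hc, algebraMap_smul]⟩
    · rintro ⟨c, rfl⟩ x
      exact x.val_smul_le c 1 |>.trans (map_one _).le
  rw [genus, (D.repO.h1 ((gen_line ..).trans span_one_top)).2, hdim, h1,
    finrank_span_singleton one_ne_zero']
  rfl

variable (D) in
include D in
lemma Dict.rank_eq {r' : ℕ} (h : HasRank M r) (h' : HasRank M r') : r = r' := by
  obtain ⟨U, ⟨x, hx⟩, e, he⟩ := h
  obtain ⟨U', ⟨x', hx'⟩, e', he'⟩ := h'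
  have : Nontrivial Γ(C, U ⊓ U') := (D.ev (U ⊓ U') ⟨D.gen hx, D.gen hx'⟩).domain_nontrivial
  exact eq_of_fin_equiv Γ(C, U ⊓ U') ((LinearEquiv.ofBijective (Fintype.linearCombination _ _)
    (he _ (Opens.infLELeft _ _))).trans (LinearEquiv.ofBijective (Fintype.linearCombination _ _)
      (he' _ (Opens.infLERight _ _))).symm)

variable (D) in
include D in
lemma Dict.hasRank (h : IsBundle M r) : HasRank M r :=
  let ⟨U, h1, h2⟩ := h D.η
  ⟨U, ⟨_, h1⟩, h2⟩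

variable (D) in
include D in
lemma Dict.isCoh (h : IsBundle M r) : IsCoh M := fun y => by
  obtain ⟨U, h1, e, h2⟩ := h y
  refine ⟨U, h1, r, 0, e, 0, fun V i => ⟨fun t z hz => ?_, fun a => ⟨fun h z hz =>
    ⟨V, 𝟙 _, 0, hz, fun k => ?_⟩, fun h => ?_⟩⟩⟩
  · obtain ⟨a, ha⟩ := (h2 V (𝟙 _ ≫ i)).2 (M.presheaf.map (𝟙 V).op t)
    exact ⟨V, 𝟙 _, a, hz, ha.symm⟩
  · rw [show a = 0 from (h2 V i).1 (by simpa using h)]
    simp
  · refine Finset.sum_eq_zero fun k _ => ?_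
    rw [D.ext (strSheaf C) (a := a k) (b := 0) fun x hx => ?_]
    · exact zero_smul ..
    · obtain ⟨W, j, b, h3, h4⟩ := h _ hx
      exact ⟨W, j, h3, (h4 k).trans (map_zero _).symm⟩

namespace QRep

variable (Q : QRep D M E F)
include Q

lemma chi : h s M 0 - h s M 1 = chiL E - chiL F := by
  obtain ⟨A, ⟨R⟩⟩ := D.exists_rep E
  obtain ⟨B, ⟨R'⟩⟩ := D.exists_rep F
  obtain ⟨φ, hφ⟩ := R'.toQ.hom R.toQ .id Q.le fun _ _ h => h
  obtain ⟨ψ, hψ⟩ := R.toQ.hom Q .id (fun _ _ h => h) (bot_le : ⊥ ≤ F)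
  have := mono hφ
  obtain ⟨h1, h2, h3⟩ := R.chi
  obtain ⟨-, h4, h5⟩ := R'.chi
  rw [chi_add s D.isOpen (φ := φ) (ψ := ψ) ⟨fun U => inj_of_mono φ U.unop, fun U b => ?_,
    fun U t y hy => ?_⟩, h3, h5]
  · by_cases h : D.η ∈ U.unop
    · have h6 : (R.ι _ h b, b) ∈ R.toQ.R U.unop := fun _ => rfl
      exact (Q.ker (hψ _ _ _ h6)).trans (range hφ h6).symm
    · exact iff_of_true (D.sub M h _ _) ⟨0, D.sub A h _ _⟩
  · obtain ⟨x, h6, h7⟩ := D.near hy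
    obtain ⟨V, i, w, h8, h9⟩ := Q.surj t h6
    obtain ⟨b, hb⟩ := R.toQ.ex (Q.mem h9)
    exact ⟨V, i, b, h7 V h8, Q.uniq (hψ _ _ _ hb) h9⟩

lemma deg_eq (r : ℕ) : deg s M r = chiL E - chiL F - r * chiO K := by
  rw [deg, Q.chi, D.repO.chi.2.2]
  rfl

lemma free {x : Place K} (hU : D.pt x ∈ U)
    (hs : ∀ y, D.pt y ∈ U → ∀ w ∈ E.S y, w ∈ F.gen → w ∈ F.S y) (hr : rk E = rk F + r) :
    ∃ W : C.Opens, D.pt x ∈ W ∧ ∃ e : Fin r → Γ(M, W), ∀ (V : C.Opens) (i : V ⟶ W),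
      Function.Bijective fun a : Fin r → Γ(C, V) => ∑ j, a j • M.presheaf.map i.op (e j) := by
  obtain ⟨q, hq⟩ := exists_quot F
  obtain rfl : rk (E.mapL q) = r := by
    have h1 := rk_exact E q
    rw [hq, rk, rk, gen_restrict_gen Q.le, ← rk, ← rk] at h1
    omega
  obtain ⟨W₀, h1, h2, b, h3, h4⟩ := D.frame (E.mapL q) hU
  choose u h5 h6 using fun k => Lat.mem_mapL.1 ((h4 x h2).ge (Submodule.subset_span ⟨k, rfl⟩))
  choose W₁ _ h7 h8 using fun k => D.exists_sec (h5 k) h2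
  obtain ⟨W, h9, h10, h11⟩ := Dict.inter W₁ h7 h2
  choose e he using fun k => Q.ex (U := W) fun y hy => h8 k y (h11 k hy)
  have h12 : ∀ c : _ → K, q (∑ k, c k • u k) = ∑ k, c k • b k := fun c => by simp [h6]
  refine ⟨W, h10, e, fun V i => ?_⟩
  by_cases h : D.η ∈ V
  swap
  · exact ⟨fun _ _ _ => funext fun _ => D.sub (strSheaf C) h _ _, fun t => ⟨0, D.sub M h _ _⟩⟩
  refine ⟨fun a a' e => funext fun k => D.ev_inj V h
    (Fintype.linearIndependent_iffₛ.1 h3 (D.ev V h <| a ·) (D.ev V h <| a' ·) ?_ k), fun t => ?_⟩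
  · rw [← h12, ← h12]
    exact LinearMap.sub_mem_ker_iff.1
      (hq.ge (D.sec_gen h (Q.diff (Q.comb he i h a)
        ((congrArg (fun t => (_, t) ∈ Q.R V) e).mpr (Q.comb he i h a')))))
  obtain ⟨x₀, h13⟩ := D.exists_pt h
  obtain ⟨V₀, i₀, w₀, h14, h15⟩ := Q.surj t h13
  have h16 : ∀ {V' w y} (j : V' ⟶ V), D.pt y ∈ V' → (w, M.presheaf.map j.op t) ∈ Q.R V' →
      q w = q w₀ := fun {V' _ _} j hy hw => LinearMap.sub_mem_ker_iff.1 (hq.ge (D.sec_gen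
    (U := V' ⊓ V₀) ⟨D.gen hy, D.gen h14⟩ (Q.diff (res_res M j _ (Opens.infLELeft _ _ ≫ j) t ▸
      Q.res (Opens.infLELeft _ _) hw) (res_res M i₀ _ _ t ▸ Q.res (Opens.infLERight _ _) h15))))
  obtain ⟨a, ha⟩ := D.coord h3 h (w := q w₀) fun y hy =>
    let ⟨_, j, _, h17, h18⟩ := Q.surj t hy
    h16 j h17 h18 ▸ (h4 y (h9 (i.le hy))).le (mem_mapL_of_mem q (Q.mem h18 y h17))
  refine ⟨a, D.ext M fun y hy => ?_⟩
  obtain ⟨V', j, w, h17, h18⟩ := Q.surj t hy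
  have h19 := sub_mem (Q.res j (Q.comb he i h a)) h18
  refine ⟨V', j, h17, sub_eq_zero.1 ((Q.ker h19).2 fun z hz =>
    hs z (h1 (h9 (i.le (j.le hz)))) _ (Q.mem h19 z hz) (hq.le ?_))⟩
  exact LinearMap.sub_mem_ker_iff.2 ((h12 _).trans (ha.symm.trans (h16 j h17 h18).symm))

lemma hasRank_iff : HasRank M r ↔ rk E = rk F + r := by
  have h1 : ∀ {r}, rk E = rk F + r → HasRank M r := fun h => by
    obtain ⟨U, h1, h2⟩ := D.exists_open (E.std_S.and F.std_S)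
    obtain ⟨x, hx⟩ := D.exists_pt h1
    obtain ⟨W, h3, h4⟩ := Q.free hx (fun y hy w hw hw' =>
      have h5 := not_not.1 ((h2 y).1 hy)
      (h5.2 w).2 ⟨hw', ((h5.1 w).1 hw).2⟩) h
    exact ⟨W, ⟨_, h3⟩, h4⟩
  obtain ⟨k, hk⟩ := Nat.exists_eq_add_of_le (rk_mono (L := F) Q.le)
  exact ⟨fun h => D.rank_eq (h1 hk) h ▸ hk, h1⟩

lemma isBundle_iff : IsBundle M r ↔ Sat E F ∧ rk E = rk F + r := by
  refine ⟨fun h => ⟨fun x w hw hw' => ?_, Q.hasRank_iff.1 (D.hasRank h)⟩, fun h y => ?_⟩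
  · obtain ⟨U, h1, e, h2⟩ := h (D.pt x)
    obtain ⟨N, h3⟩ := Lat.exists_pow_smul_mem x hw'
    obtain ⟨V₁, h4, h5, h6⟩ := D.exists_sec hw h1
    obtain ⟨V₂, h7, h8, h9⟩ := D.exists_sec (h3 _ (x.val_unif_zpow N).le) h5
    obtain ⟨V, h10, h11, c, h12⟩ := D.coef (ι := Unit) (c := fun _ => x.unif ^ (N : ℤ))
      (fun _ => x.mem_iff.2 ((x.val_unif_zpow N).trans_le
        (WithZero.exp_le_exp.2 (neg_nonpos.2 (Int.natCast_nonneg N))))) h8
    obtain ⟨t, ht⟩ := Q.ex (U := V) fun y hy => h6 y (h7 (h10 hy))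
    obtain ⟨a, rfl⟩ := (h2 V (homOfLE (h10.trans (h7.trans h4)))).2 t
    have h13 := (Q.ker (Q.smul (D.gen h11) (c ()) ht)).2
      (h12 () ▸ fun y hy => h9 y (h10 hy))
    have h14 := (h2 V _).1 (a₁ := fun k => c () * a k) (a₂ := 0)
      (by simpa [mul_smul, Finset.smul_sum] using h13)
    refine (Q.ker ht).1 (Finset.sum_eq_zero fun k _ => ?_) x h11
    have h15 := congrArg (D.ev V (D.gen h11)) (congrFun h14 k)
    rw [map_mul, h12, Pi.zero_apply] at h15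
    rw [D.ev_inj V _ (((mul_eq_zero.1 (h15.trans (map_zero _))).resolve_left
      (zpow_ne_zero _ x.unif_ne_zero)).trans (map_zero _).symm), zero_smul]
  · obtain ⟨x, -, hx⟩ := D.near (U := ⊤) (y := y) trivial
    obtain ⟨W, h1, h2⟩ := Q.free (U := ⊤) (x := x) trivial (fun y _ => h.1 y) h.2
    exact ⟨W, hx W h1, h2⟩

lemma hasClass_iff {ν : ℕ × ℤ} : HasClass s M ν ↔ MP_cc3443_ag.HasClass E F ν := by
  rw [HasClass, MP_cc3443_ag.hasClass_iff, Q.hasRank_iff, Q.deg_eq]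
  exact and_congr (iff_of_true Q.isCoh Q.le) (and_congr_right fun _ => by omega)

lemma line_iff {l : ℤ} : IsBundle M 1 ∧ deg s M 1 = l ↔
    MP_cc3443_ag.HasClass E F (1, l) ∧ ∀ x, E.st x ∩ F.gen ⊆ F.st x := by
  rw [sat_iff_st, ← Q.hasClass_iff, HasClass, Q.isBundle_iff, Q.hasRank_iff]
  exact ⟨fun h => ⟨⟨Q.isCoh, h.1.2, h.2⟩, h.1.1⟩, fun h => ⟨⟨h.2, h.1.2.1⟩, h.1.2.2⟩⟩

lemma isZero_iff : IsZero M ↔ E = F := by
  rw [IsZero.iff_id_eq_zero]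
  refine ⟨fun h => le_antisymm (fun x w hw => ?_) Q.le, fun h => Q.hom_ext fun U w t ht =>
    (Q.ker ht).2 (h ▸ Q.mem ht)⟩
  obtain ⟨V, -, h1, h2⟩ := D.exists_sec (U := ⊤) hw trivial
  obtain ⟨t, ht⟩ := Q.ex h2
  exact (Q.ker ht).1 congr(($h).app V t) x h1

lemma mapL (q : (Fin n → K) →ₗ[K] Fin n' → K) (hq : ∀ x, ∀ w ∈ E.S x, q w = 0 → w ∈ F.S x) :
    Nonempty (QRep D M (E.mapL q) (F.mapL q)) := by
  obtain ⟨M', ⟨Q'⟩⟩ := D.exists_q (mapL_mono (E := F) Q.le q)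
  obtain ⟨φ, hφ⟩ := Q.hom Q' q (fun _ _ => mem_mapL_of_mem q) fun _ _ => mem_mapL_of_mem q
  have : Mono φ := mono_of_inj fun U => (injective_iff_map_eq_zero _).2 fun t ht =>
    D.ext M fun x hx => by
      obtain ⟨V, i, w, h1, h2⟩ := Q.surj t hx
      refine ⟨V, i, h1, ((Q.ker h2).2 fun y hy => ?_).trans (map_zero _).symm⟩
      obtain ⟨v, h3, h4⟩ := Lat.mem_mapL.1 ((Q'.ker (hφ _ _ _ h2)).1
        (by rw [app_res, ht, map_zero]) y hy)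
      exact sub_add_cancel w v ▸ add_mem (hq y _ (sub_mem (Q.mem h2 y hy) (Q.le y h3))
        (by rw [map_sub, h4, sub_self])) h3
  obtain ⟨G, -, h1, P, h2⟩ := Q'.sub φ Q.isCoh
  refine (le_antisymm h1 fun x w hw => ?_) ▸ ⟨P⟩
  obtain ⟨v, h3, rfl⟩ := Lat.mem_mapL.1 hw
  obtain ⟨V, -, h4, h5⟩ := D.exists_sec (U := ⊤) h3 trivial
  obtain ⟨t, ht⟩ := Q.ex h5
  exact (range h2 (hφ _ _ _ ht)).1 ⟨t, rfl⟩ x h4

lemma exists_subobject (h1 : F ≤ G) (h2 : G ≤ E) : ∃ (N : Subobject M) (P : QRep D N G F),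
    ∀ U w t, (w, t) ∈ P.R U → (w, N.arrow.app U t) ∈ Q.R U := by
  obtain ⟨L, ⟨P⟩⟩ := D.exists_q h1
  obtain ⟨φ, hφ⟩ := P.hom Q .id h2 fun _ _ h => h
  have := mono hφ
  let e := Subobject.underlyingIso φ
  have h3 : ∀ U t, (Subobject.mk φ).arrow.app U (e.inv.app U t) = φ.app U t := fun U t =>
    congr(($(Subobject.underlyingIso_arrow φ)).app U t)
  refine ⟨.mk φ, P.push e.inv h1 (fun U w t h => (map_eq_zero_iff _ (inj_of_mono _ U)).trans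
    (P.ker h)) fun U t y hy => ⟨U, 𝟙 _, e.hom.app U (_ : _), hy,
      congr(($(e.hom_inv_id)).app U _)⟩, ?_⟩
  rintro U _ _ ⟨⟨w, t⟩, h, ⟨⟩⟩
  exact (h3 U t).symm ▸ hφ U w t h

/-- The direct sum of two quotients. -/
def biprod (Q' : QRep D M' E' F') : QRep D (M ⊞ M') (oplus E E') (oplus F F') :=
  let p : M ⊞ M' ⟶ M := biprod.fst
  let q : M ⊞ M' ⟶ M' := biprod.snd
  let S (U) := (Q.R U).comap ((pr1 n n').toAddMonoidHom.prodMap (p.app U).hom) ⊓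
    (Q'.R U).comap ((pr2 n n').toAddMonoidHom.prodMap (q.app U).hom)
  have h0 : ∀ {U w t}, (w, t) ∈ S U ↔
    (pr1 n n' w, p.app U t) ∈ Q.R U ∧ (pr2 n n' w, q.app U t) ∈ Q'.R U := Iff.rfl
  { R := S
    le := oplus_mono (G := F) (G' := F') Q.le Q'.le
    mem h x hx := mem_oplus.2 ⟨Q.mem h.1 x hx, Q'.mem h.2 x hx⟩
    ex {U w} h := by
      obtain ⟨a, ha⟩ := Q.ex (U := U) fun x hx => (mem_oplus.1 (h x hx)).1
      obtain ⟨b, hb⟩ := Q'.ex (U := U) fun x hx => (mem_oplus.1 (h x hx)).2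
      refine ⟨(biprod.inl : M ⟶ M ⊞ M').app U a + (biprod.inr : M' ⟶ M ⊞ M').app U b, h0.2 ?_⟩
      rw [map_add, map_add]
      exact ⟨(congr(($(biprod.inl_fst (X := M) (Y := M'))).app U a +
        ($(biprod.inr_fst (X := M) (Y := M'))).app U b).trans (add_zero a)).symm ▸ ha,
        (congr(($(biprod.inl_snd (X := M) (Y := M'))).app U a +
          ($(biprod.inr_snd (X := M) (Y := M'))).app U b).trans (zero_add b)).symm ▸ hb⟩
    smul hU c h := h0.2 <| by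
      simp only [map_smul, Scheme.Modules.Hom.app_smul]
      exact ⟨Q.smul hU c h.1, Q'.smul hU c h.2⟩
    res i h := h0.2 <| by
      simp only [app_res]
      exact ⟨Q.res i h.1, Q'.res i h.2⟩
    ker {U w t} h := by
      obtain ⟨h, h'⟩ := h0.1 h
      refine ⟨fun e x hx => mem_oplus.2 ⟨(Q.ker h).1 (by rw [e, map_zero]) x hx,
        (Q'.ker h').1 (by rw [e, map_zero]) x hx⟩, fun e => ?_⟩
      have h1 := (Q.ker h).2 fun x hx => (mem_oplus.1 (e x hx)).1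
      have h2 := (Q'.ker h').2 fun x hx => (mem_oplus.1 (e x hx)).2
      exact congr(($(biprod.total (X := M) (Y := M'))).app U t).symm.trans
        (congr((biprod.inl : M ⟶ M ⊞ M').app U $h1 + (biprod.inr : M' ⟶ M ⊞ M').app U $h2).trans
          (by rw [map_zero, map_zero, add_zero]))
    surj {U} t x hx := by
      obtain ⟨V, i, w, h1, h2⟩ := Q.surj (p.app U t) hx
      obtain ⟨V', i', w', h3, h4⟩ := Q'.surj (q.app U t) hx
      refine ⟨V ⊓ V', Opens.infLELeft _ _ ≫ i, in1 n n' w + in2 n n' w', ⟨h1, h3⟩, h0.2 ?_⟩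
      simp only [map_add, pr1_in1, pr1_in2, pr2_in1, pr2_in2, add_zero, zero_add, app_res]
      exact ⟨res_res M _ _ _ _ ▸ Q.res (Opens.infLELeft _ _) h2,
        res_res M' _ _ _ _ ▸ Q'.res (Opens.infLERight _ _) h4⟩ }

variable {Q} in
lemma subobject_le {G' : Lat K n} {N N' : Subobject M} {P : QRep D N G F} {P' : QRep D N' G' F}
    (h : ∀ U w t, (w, t) ∈ P.R U → (w, N.arrow.app U t) ∈ Q.R U)
    (h' : ∀ U w t, (w, t) ∈ P'.R U → (w, N'.arrow.app U t) ∈ Q.R U) (e : G ≤ G') : N ≤ N' :=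
  let ⟨φ, hφ⟩ := P.hom P' .id e fun _ _ h => h
  Subobject.le_of_comm φ (P.hom_ext fun U w t ht => Q.uniq (h' U w _ (hφ U w t ht)) (h U w t ht))

end QRep

variable (D)
include D

lemma Dict.line_rep (h : IsBundle L 1) : ∃ A : Place K →₀ ℤ,
    Nonempty (QRep D L (line (1 : Fin 1 → K) A) ⊥) ∧ deg s L 1 = A.degree := by
  obtain ⟨n, E, F, ⟨Q⟩⟩ := D.exists_qrep (D.isCoh h)
  obtain ⟨h1, h2⟩ := Q.isBundle_iff.1 h
  obtain ⟨q, hq⟩ := exists_quot F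
  obtain ⟨P⟩ := Q.mapL q fun x w hw e => h1 x w hw (hq.le e)
  rw [mapL_eq_bot_iff.2 hq.ge] at P
  obtain ⟨v, A, h3, h4⟩ := exists_line_of_rk ((P.isBundle_iff.1 h).2.trans (by simp))
  rw [h4] at P
  obtain ⟨i, hi⟩ := Function.ne_iff.1 h3
  obtain ⟨P'⟩ := P.mapL (.pi fun _ : Fin 1 => (v i)⁻¹ • .proj i) fun x w hw e => by
    obtain ⟨z, -, rfl⟩ := mem_line.1 hw
    have : z = 0 := by simpa [show v i ≠ 0 from hi] using congrFun e 0
    simp [this]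
  rw [mapL_bot, mapL_line, show (LinearMap.pi fun _ : Fin 1 => (v i)⁻¹ • .proj i :
    (Fin n → K) →ₗ[K] _) v = 1 from funext fun _ => inv_mul_cancel₀ hi] at P'
  exact ⟨A, ⟨P'⟩, by simp [P'.deg_eq, chiL_line one_ne_zero']⟩

lemma Dict.exists_line (l : ℤ) : ∃ L, IsBundle L 1 ∧ deg s L 1 = l := by
  obtain ⟨L, ⟨P⟩⟩ := D.exists_q (E := line (1 : Fin 1 → K) (ptD K l)) bot_le
  exact ⟨L, P.isBundle_iff.2 ⟨sat_bot _, by simp [rk_line one_ne_zero']⟩,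
    by simp [P.deg_eq, chiL_line one_ne_zero']⟩

end Pool.Agent.Lib.CQ88
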