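import Pool.Agent.Lib.CQ88.QRep

open AlgebraicGeometry CategoryTheory TopologicalSpace Opposite Limits
open Pool.Agent.Lib.MP_cc3443_ag Pool.Agent.Lib.CL88 Pool.Agent.Lib.CC61

noncomputable section

namespace Pool.Agent.Lib.CQ88

variable {K : Type} [Field K] [Algebra ℂ K] {C : Scheme.{0}} {s : C ⟶ Spec (.of ℂ)}
  (D : Dict s K) {n n' : ℕ}
  [Algebra (RatFunc ℂ) K] [IsScalarTower ℂ (RatFunc ℂ) K] [FiniteDimensional (RatFunc ℂ) K]
  {L M M' : C.Modules} {E F G : Lat K n} {U V : C.Opens}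

lemma Dict.le_of (h : ∀ y, D.pt y ∈ V → D.pt y ∈ U) : V ≤ U := fun y hy => by
  obtain ⟨x, h1, h2⟩ := D.near hy
  exact h2 U (h x h1)

lemma Dict.frame (E : Lat K n) {x : Place K} (hU : D.pt x ∈ U) :
    ∃ W ≤ U, D.pt x ∈ W ∧ ∃ b : Fin (rk E) → Fin n → K, LinearIndependent K b ∧
      ∀ y, D.pt y ∈ W → E.S y = Submodule.span y.O (Set.range b) := by
  obtain ⟨b, h1, h2, h3⟩ := exists_frame E x
  obtain ⟨W, h4, h5, h6⟩ := D.shrink h3 (not_not.2 h2) hU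
  exact ⟨W, h4, h5, b, h1, fun y hy => not_not.1 (h6 y hy)⟩

lemma Dict.coord {m : ℕ} {b : Fin m → Fin n → K} (hb : LinearIndependent K b) (h : D.η ∈ U)
    {w : Fin n → K} (hw : ∀ y, D.pt y ∈ U → w ∈ Submodule.span y.O (Set.range b)) :
    ∃ a : Fin m → Γ(C, U), w = ∑ k, D.ev U h (a k) • b k := by
  obtain ⟨x, hx⟩ := D.exists_pt h
  obtain ⟨c, -, rfl⟩ := mem_span_O.1 (hw x hx)
  choose a ha using fun k => (D.ev_range U h (c k)).2 fun y hy => by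
    obtain ⟨c', h1, h2⟩ := mem_span_O.1 (hw y hy)
    exact Fintype.linearIndependent_iffₛ.1 hb _ _ h2 k ▸ h1 k
  exact ⟨a, by simp only [ha]⟩

variable {D} in
theorem QRep.isCoh (Q : QRep D M E F) : IsCoh M := fun y => by
  obtain ⟨x, -, hx⟩ := D.near (U := ⊤) (y := y) trivial
  obtain ⟨U₀, -, h1, b, h2, h3⟩ := D.frame (U := ⊤) E (x := x) trivial
  obtain ⟨U, h4, h5, c, h6, h7⟩ := D.frame F h1
  choose e he using fun k => Q.ex (U := U) (w := b k) fun z hz =>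
    h3 z (h4 hz) ▸ Submodule.subset_span ⟨k, rfl⟩
  choose ρ hρ using fun l => D.coord h2 (D.gen h5) (w := c l) fun z hz =>
    h3 z (h4 hz) ▸ Q.le z (h7 z hz ▸ Submodule.subset_span ⟨l, rfl⟩)
  have key : ∀ {W} (i : W ⟶ U) h (β : _ → Γ(C, W)), ∑ l, D.ev W h (β l) • c l =
      ∑ k, D.ev W h (∑ l, β l * C.presheaf.map i.op (ρ l k)) • b k := fun i h β => by
    simp only [hρ, map_sum, map_mul, D.ev_res i (D.gen h5), Finset.smul_sum, Finset.sum_smul,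
      mul_smul]
    exact Finset.sum_comm
  refine ⟨U, hx U h5, _, _, e, ρ, fun V i => ⟨fun t z hz => ?_, fun a => ⟨fun h z hz => ?_,
    fun h => ?_⟩⟩⟩
  · obtain ⟨x', h8, h9⟩ := D.near hz
    obtain ⟨W, j, w, h10, h11⟩ := Q.surj t h8
    obtain ⟨a, rfl⟩ := D.coord h2 (D.gen h10) fun z hz =>
      h3 z (h4 (i.le (j.le hz))) ▸ Q.mem h11 z hz
    exact ⟨W, j, a, h9 W h10, Q.uniq h11 (Q.comb he _ _ a)⟩
  · obtain ⟨β, h8⟩ := D.coord h6 (D.gen hz) fun z' hz' =>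
      h7 z' (i.le hz') ▸ (Q.ker (Q.comb he i (D.gen hz) a)).1 h z' hz'
    refine ⟨V, 𝟙 _, β, hz, fun k => D.ev_inj _ (D.gen hz) ((D.ev_res _ (D.gen hz) _ _).trans ?_)⟩
    exact Fintype.linearIndependent_iffₛ.1 h2 _ _ (h8.trans (key _ _ β)) k
  · by_cases h8 : D.η ∈ V
    · refine (Q.ker (Q.comb he i h8 a)).2 fun z hz => ?_
      obtain ⟨W, j, β, h9, h10⟩ := h _ hz
      simp only [← D.ev_res j h8 (D.gen h9), h10, ← key, h7 z (i.le hz)]
      exact mem_span_O.2 ⟨_, fun l => D.ev_mem h9 _ _, rfl⟩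
    · exact D.sub M h8 _ _

lemma Dict.extend (hM : IsCoh M) (hU : D.η ∈ U) (ε : Γ(M, U)) (x : Place K) :
    ∃ (W : C.Opens) (z : K) (m : Γ(M, W)), D.pt x ∈ W ∧ z ≠ 0 ∧ (D.pt x ∈ U → z = 1) ∧
      (∀ y, D.pt y ∈ W → z ∈ y.O ∧ (y ≠ x → D.pt y ∈ U ∧ z⁻¹ ∈ y.O)) ∧
      ∀ V (i : V ⟶ W) (j : V ⟶ U) (c d : Γ(C, V)), (∀ h, D.ev V h c * z = D.ev V h d) →
        c • M.presheaf.map i.op m = d • M.presheaf.map j.op ε := by
  by_cases hx : D.pt x ∈ U
  · refine ⟨U, 1, ε, hx, one_ne_zero, fun _ => rfl, fun y hy => ⟨one_mem _, fun _ =>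
      ⟨hy, (inv_one (G := K)).symm ▸ one_mem _⟩⟩, fun V i j c d h => ?_⟩
    by_cases h' : D.η ∈ V
    · rw [D.ev_inj V h' ((mul_one _).symm.trans (h h')), Subsingleton.elim i j]
    · exact D.sub M h' _ _
  obtain ⟨U₀, h1, m, l, e, ρ, h2⟩ := hM (D.pt x)
  obtain ⟨W₁, j₁, a, h3, h4⟩ := (h2 (U₀ ⊓ U) (Opens.infLELeft _ _)).1
    (M.presheaf.map (Opens.infLERight _ _).op ε) _ ⟨D.gen h1, hU⟩
  obtain ⟨N, h5⟩ := Lat.exists_pow_smul_mem x (L := Lat.free fun i => Pi.single i (1 : K))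
    (w := fun k => D.ev W₁ h3 (a k)) (by rw [Lat.free_gen, span_single_top]; trivial)
  have h6 : ∀ k, x.unif ^ (N : ℤ) * D.ev W₁ h3 (a k) ∈ x.O := fun k => by
    obtain ⟨c, h6, h7⟩ := mem_span_O.1 ((Lat.free_S _ x).le (h5 _ (x.val_unif_zpow N).le))
    have := congrFun h7 k
    simp only [Finset.sum_apply, Pi.smul_apply, Pi.single_apply, smul_eq_mul, mul_ite, mul_one,
      mul_zero, Finset.sum_ite_eq, Finset.mem_univ, if_true] at this
    exact this ▸ h6 k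
  have h7 : x.unif ^ (N : ℤ) ∈ x.O := by
    rw [x.mem_iff, x.val_unif_zpow, ← WithZero.exp_zero, WithZero.exp_le_exp]
    omega
  obtain ⟨W₂, h8, h9, h10⟩ := D.shrink (T := {y | y ≠ x ∧ (D.pt y ∉ W₁ ∨
    x.unif ^ (N : ℤ) ∉ y.O ∨ (x.unif ^ (N : ℤ))⁻¹ ∉ y.O)}) (((D.cof h3).union
      ((finite_poles _).union (finite_poles _))).subset fun y hy => hy.2) (fun h => h.1 rfl) h1
  simp only [Set.mem_ofPred_eq, not_and, not_or, not_not] at h10
  obtain ⟨W, h11, h12, a', h13⟩ := D.coef h6 h9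
  refine ⟨W, _, ∑ k, a' k • M.presheaf.map (homOfLE (h11.trans h8)).op (e k), h12,
    zpow_ne_zero N x.unif_ne_zero, fun h => absurd h hx, fun y hy => ⟨?_, fun h =>
      ⟨(j₁.le (h10 y (h11 hy) h).1).2, (h10 y (h11 hy) h).2.2⟩⟩, fun V i j c d h => ?_⟩
  · by_cases h : y = x
    exacts [h ▸ h7, (h10 y (h11 hy) h).2.1]
  by_cases h' : D.η ∈ V
  · let k : V ⟶ W₁ := homOfLE (D.le_of fun y hy =>
      (h10 y (h11 (i.le hy)) (by rintro rfl; exact hx (j.le hy))).1)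
    rw [← res_res M (j₁ ≫ Opens.infLERight _ _) k j, ← res_res M (Opens.infLERight _ _) j₁, h4]
    simp only [map_sum, Scheme.Modules.map_smul, Finset.smul_sum, ← mul_smul,
      res_res M _ _ (i ≫ homOfLE (h11.trans h8))]
    refine Finset.sum_congr rfl fun k' _ => congrArg (· • _) (D.ev_inj V h' ?_)
    rw [map_mul, map_mul, D.ev_res i (D.gen h12), D.ev_res k h3, h13, ← mul_assoc, h]
  · exact D.sub M h' _ _

omit [Algebra (RatFunc ℂ) K] [IsScalarTower ℂ (RatFunc ℂ) K] [FiniteDimensional (RatFunc ℂ) K] in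
lemma mul_inv_mem {y : Place K} {z a : K} (h : z ≠ 0) (h1 : z ∈ y.O) (h2 : z⁻¹ ∈ y.O) :
    a ∈ y.O ↔ z⁻¹ * a ∈ y.O :=
  ⟨mul_mem h2, fun h3 => mul_inv_cancel_left₀ h a ▸ mul_mem h1 h3⟩

lemma mem_diag {z w : Fin n → K} (hz : ∀ j, z j ≠ 0) {y : Place K} :
    w ∈ (Lat.free fun j => Pi.single j (z j)).S y ↔ ∀ j, (z j)⁻¹ * w j ∈ y.O := by
  rw [Lat.free_S, mem_span_O]
  refine ⟨?_, fun h => ⟨_, h, funext fun j => ?_⟩⟩
  · rintro ⟨c, h, rfl⟩ j
    simpa [Pi.single_apply, mul_comm (c j), hz] using h j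
  · simp [Pi.single_apply, mul_comm _ (z j), hz]

theorem Dict.exists_qrep (hM : IsCoh M) :
    ∃ (n : ℕ) (E F : Lat K n), Nonempty (QRep D M E F) := by
  choose U hU m l e ρ hc using fun x => hM (D.pt x)
  obtain ⟨x₀⟩ : Nonempty (Place K) := inferInstance
  let T := insert x₀ {x | D.pt x ∉ U x₀}
  have : Finite T := (D.cof (D.gen (hU x₀))).insert x₀
  obtain ⟨N, ⟨σ⟩⟩ := Finite.exists_equiv_fin (Σ x : T, Fin (m x))
  obtain ⟨τ, hτ⟩ : ∃ τ : Fin N → Σ x : T, Fin (m x), τ.Surjective := ⟨_, σ.symm.surjective⟩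
  choose W z μ h1 h2 h3 h4 h5 using fun (j : Fin N) x =>
    D.extend hM (D.gen (hU (τ j).1)) (e _ (τ j).2) x
  choose W' _ h6 h7 using fun x => Dict.inter (U := ⊤) (W · x) (h1 · x) trivial
  have h8 : ∀ j x y, D.pt y ∈ W j x → ∀ a : K,
      (z j y)⁻¹ * a ∈ y.O ↔ (z j x)⁻¹ * a ∈ y.O := fun j x y hy a => by
    by_cases h : y = x
    · rw [h]
    · rw [h3 j y ((h4 j x y hy).2 h).1, inv_one, one_mul]
      exact mul_inv_mem (h2 j x) (h4 j x y hy).1 ((h4 j x y hy).2 h).2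
  obtain ⟨E, hE⟩ := D.exists_lat (fun y w => ∀ j, (z j y)⁻¹ * w j ∈ y.O) fun x =>
    ⟨W' x, h6 x, _, fun y hy w => (forall_congr' fun j => h8 _ _ _ (h7 x j hy) _).trans
      (mem_diag (h2 · x)).symm⟩
  let P : ∀ (x) (V : C.Opens), (Fin N → K) → Γ(M, V) → Prop := fun x V w b =>
    ∃ (i : V ≤ W' x) (c : Fin N → Γ(C, V)), (∀ h j, D.ev V h (c j) * z j x = w j) ∧
      b = ∑ j, c j • M.presheaf.map (homOfLE (i.trans (h7 x j))).op (μ j x)
  have pr : ∀ {x V V' w b} (i : V' ⟶ V), P x V w b → P x V' w (M.presheaf.map i.op b) := by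
    rintro x V V' w _ i ⟨k, c, h, rfl⟩
    refine ⟨i.le.trans k, fun j => C.presheaf.map i.op (c j), fun h' j => by
      rw [D.ev_res i (i.le h'), h], ?_⟩
    simp only [map_sum, Scheme.Modules.map_smul]
    exact Finset.sum_congr rfl fun j _ => congrArg _ (res_res M _ _ _ _)
  have pm : ∀ {x V w b}, P x V w b → w ∈ D.sec E V := by
    rintro x V w _ ⟨k, c, h, rfl⟩ y hy
    refine (hE y w).2 fun j => (h8 j x y (h7 x j (k hy)) _).2 ?_
    rw [← h (D.gen hy), mul_comm _ (z j x), inv_mul_cancel_left₀ (h2 j x)]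
    exact D.ev_mem hy _ _
  have pe : ∀ {x V w}, V ≤ W' x → w ∈ D.sec E V → ∃ b, P x V w b := fun {x V w} i hw => by
    by_cases h : D.η ∈ V
    · choose c hc using fun j => (D.ev_range V h _).2 fun y hy =>
        (h8 j x y (h7 x j (i hy)) _).1 ((hE y w).1 (hw y hy) j)
      exact ⟨_, i, c, fun _ j => by rw [hc, mul_comm, mul_inv_cancel_left₀ (h2 j x)], rfl⟩
    · exact ⟨_, i, 0, fun h' => absurd h' h, rfl⟩
  have pu : ∀ {x x' V w b b'}, P x V w b → P x' V w b' → b = b' := by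
    rintro x x' V w _ _ ⟨k, c, h, rfl⟩ ⟨k', c', h', rfl⟩
    by_cases hV : D.η ∈ V
    swap
    · exact D.sub M hV _ _
    refine Finset.sum_congr rfl fun j _ => ?_
    by_cases e : x = x'
    · subst e
      rw [D.ev_inj V hV (mul_right_cancel₀ (h2 j x) ((h hV j).trans (h' hV j).symm))]
    obtain ⟨d, hd⟩ := (D.ev_range V hV (w j)).2 fun y hy =>
      h hV j ▸ mul_mem (D.ev_mem hy _ _) (h4 j x y (h7 x j (k hy))).1
    have i : V ≤ U (τ j).1 := D.le_of fun y hy => (em (y = x)).elim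
      (fun h => ((h4 j x' y (h7 _ j (k' hy))).2 (h ▸ e)).1)
      fun h => ((h4 j x y (h7 _ j (k hy))).2 h).1
    rw [h5 j x V _ (homOfLE i) _ d fun _ => (h _ j).trans hd.symm,
      h5 j x' V _ (homOfLE i) _ d fun _ => (h' _ j).trans hd.symm]
  have pa : ∀ {x V w b w' b'}, P x V w b → P x V w' b' → P x V (w + w') (b + b') := by
    rintro x V w _ w' _ ⟨k, c, h, rfl⟩ ⟨k', c', h', rfl⟩
    exact ⟨k, c + c', fun hV j => by simp [add_mul, h, h'],
      by simp [add_smul, Finset.sum_add_distrib]⟩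
  have ps : ∀ {x V w b} hV (a : Γ(C, V)), P x V w b → P x V (D.ev V hV a • w) (a • b) := by
    rintro x V w _ hV a ⟨k, c, h, rfl⟩
    exact ⟨k, fun j => a * c j, fun hV j => by simp [mul_assoc, h],
      by simp [mul_smul, Finset.smul_sum]⟩
  obtain ⟨L, ⟨R⟩⟩ := D.exists_rep E
  have qu : ∀ {V w w' a}, D.η ∈ V → (w, a) ∈ R.toQ.R V → (w', a) ∈ R.toQ.R V → w = w' :=
    fun hV h h' => (h hV).symm.trans (h' hV)
  obtain ⟨φ, hφ⟩ := D.exists_hom (M := L) (M' := M)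
    (fun V a b => ∃ x w, (w, a) ∈ R.toQ.R V ∧ P x V w b)
    (fun i a b ⟨x, w, h, h'⟩ => ⟨x, w, R.toQ.res i h, pr i h'⟩)
    (fun V a b a' b' ⟨x, w, h, h'⟩ ⟨x', w', k, k'⟩ =>
      let ⟨_, hb⟩ := pe h'.1 (pm k')
      ⟨x, w + w', add_mem h k, pa h' (pu hb k' ▸ hb)⟩)
    (fun V a b c hV ⟨x, w, h, h'⟩ => ⟨x, _, R.toQ.smul hV c h, ps hV c h'⟩)
    (fun V a b b' ⟨x, w, h, h'⟩ ⟨x', w', k, k'⟩ => (em (D.η ∈ V)).elim
      (fun hV => pu h' (qu hV k h ▸ k')) fun hV => D.sub M hV _ _)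
    fun V a x hx => by
      obtain ⟨V', i, w, h, h'⟩ := R.toQ.surj a hx
      have h'' := R.toQ.res (Opens.infLELeft V' (W' x)) h'
      obtain ⟨b, hb⟩ := pe (x := x) inf_le_right (R.toQ.mem h'')
      exact ⟨_, Opens.infLELeft _ _ ≫ i, b, ⟨h, h6 x⟩, x, w, res_res L _ _ _ a ▸ h'', hb⟩
  obtain ⟨F, hF⟩ := D.exists_lat (fun y w => ∃ x V, D.pt y ∈ V ∧ P x V w 0) fun x => by
    choose V₁ i₁ α h9 h10 using fun j => (hc x (W j x ⊓ U x) (Opens.infLERight _ _)).1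
      (M.presheaf.map (Opens.infLELeft _ _).op (μ j x)) _ ⟨h1 j x, hU x⟩
    obtain ⟨V₂, h11, h12, h13⟩ := Dict.inter (U := W' x ⊓ U x) V₁ h9 ⟨h6 x, hU x⟩
    let p : (Fin N → K) →ₗ[K] Fin (m x) → K := Matrix.toLin' (.of fun k j =>
      D.ev _ (D.gen (h9 j)) (α j k) * (z j x)⁻¹)
    have key : ∀ {V w b} (i : V ≤ V₂), P x V w b → ∃ a : Fin (m x) → Γ(C, V),
        (∀ h k, D.ev V h (a k) = p w k) ∧ ∑ k, a k • M.presheaf.map
          (homOfLE (i.trans (h11.trans inf_le_right))).op (e x k) = b := by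
      rintro V w _ i ⟨k, c, h, rfl⟩
      refine ⟨fun k => ∑ j, c j * C.presheaf.map (homOfLE (i.trans (h13 j))).op (α j k),
        fun hV k => ?_, ?_⟩
      · simp only [map_sum, map_mul, p, Matrix.toLin'_apply, Matrix.mulVec, dotProduct,
          Matrix.of_apply]
        refine Finset.sum_congr rfl fun j _ => ?_
        rw [D.ev_res _ (D.gen (h9 j)), ← h hV j, mul_comm _ (z j x), mul_assoc,
          inv_mul_cancel_left₀ (h2 j x), mul_comm]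
      · simp only [Finset.sum_smul, mul_smul]
        rw [Finset.sum_comm]
        refine Finset.sum_congr rfl fun j _ => ?_
        rw [← res_res M (i₁ j ≫ Opens.infLELeft _ _) (homOfLE (i.trans (h13 j))),
          ← res_res M (Opens.infLELeft _ _) (i₁ j), h10]
        simp only [map_sum, Scheme.Modules.map_smul, Finset.smul_sum]
        exact Finset.sum_congr rfl fun k _ => by rw [res_res M]
    refine ⟨V₂, h12, pull E p (.free fun l k => D.ev _ (D.gen (hU x)) (ρ x l k)),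
      fun y hy w => ?_⟩
    rw [mem_pull, Lat.free_S, mem_span_O]
    refine ⟨fun ⟨x', V, h14, h15⟩ => ⟨pm h15 y h14, ?_⟩, fun ⟨h14, β, h15, h16⟩ => ?_⟩
    · have h16 := pr (Opens.infLELeft V V₂) h15
      obtain ⟨b, hb⟩ := pe (x := x) (inf_le_right.trans (h11.trans inf_le_left)) (pm h16)
      obtain ⟨a, h17, h18⟩ := key inf_le_right hb
      obtain ⟨V', j, β, h19, h20⟩ := ((hc x _ _).2 a).1
        (h18.trans ((pu hb h16).trans (map_zero _))) _ ⟨h14, hy⟩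
      refine ⟨_, fun l => D.ev_mem h19 (D.gen h19) (β l), funext fun k => ?_⟩
      rw [← h17 (j.le (D.gen h19)), ← D.ev_res j _ (D.gen h19), h20]
      simp only [map_sum, map_mul, D.ev_res _ (D.gen (hU x)), Finset.sum_apply, Pi.smul_apply,
        smul_eq_mul]
    · obtain ⟨V, h17, h18, h19⟩ := D.exists_sec h14 hy
      obtain ⟨V', h20, h21, b, h22⟩ := D.coef h15 h18
      obtain ⟨t, ht⟩ := pe (x := x) (h20.trans (h17.trans (h11.trans inf_le_left)))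
        fun z hz => h19 z (h20 hz)
      obtain ⟨a, h23, h24⟩ := key (h20.trans h17) ht
      refine ⟨x, V', h21, (h24.symm.trans (((hc x _ _).2 a).2 fun y' hy' =>
        ⟨V', 𝟙 _, b, hy', fun k => D.ev_inj _ (D.gen h21) ?_⟩)) ▸ ht⟩
      rw [D.ev_res _ (D.gen h21), h23, h16]
      simp only [map_sum, map_mul, D.ev_res _ (D.gen (hU x)), Finset.sum_apply, Pi.smul_apply,
        smul_eq_mul, h22]
  refine ⟨N, E, F, ⟨R.toQ.push φ (fun y w h => ?_) (fun V w t h => ⟨fun h' y hy => ?_,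
    fun h' => D.ext M fun y hy => ?_⟩) fun V t y hy => ?_⟩⟩
  · obtain ⟨x, V, h9, h10⟩ := (hF y w).1 h
    exact pm h10 y h9
  · have h9 := R.toQ.res (Opens.infLELeft V (W' y)) h
    obtain ⟨b, hb⟩ := pe (x := y) inf_le_right (R.toQ.mem h9)
    have h10 := hφ _ _ _ ⟨y, w, h9, hb⟩
    rw [app_res, h', map_zero] at h10
    exact (hF y w).2 ⟨y, V ⊓ W' y, ⟨hy, h6 y⟩, h10 ▸ hb⟩
  · obtain ⟨x, V', h9, h10⟩ := (hF y w).1 (h' y hy)
    refine ⟨V ⊓ V', Opens.infLELeft _ _, ⟨hy, h9⟩, (app_res ..).symm.trans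
      ((hφ _ _ _ ⟨x, w, R.toQ.res _ h, pr (Opens.infLERight _ _) h10⟩).trans ?_)⟩
    rw [map_zero, map_zero]
  · obtain ⟨x, h9, h10⟩ := D.near hy
    obtain ⟨x', h11⟩ : ∃ x' : T, D.pt x ∈ U x' := (em (D.pt x ∈ U x₀)).elim
      (fun h => ⟨⟨x₀, .inl rfl⟩, h⟩) fun h => ⟨⟨x, .inr h⟩, hU x⟩
    obtain ⟨V₁, i, a, h12, h13⟩ := (hc x' (V ⊓ U x') (Opens.infLERight _ _)).1
      (M.presheaf.map (Opens.infLELeft _ _).op t) _ ⟨h9, h11⟩
    have h14 : ∀ (q : Σ x : T, Fin (m x)) (k : V₁ ⊓ W' x ⟶ U q.1),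
        ∃ b, φ.app _ b = M.presheaf.map k.op (e _ q.2) := fun q k => by
      obtain ⟨j, rfl⟩ := hτ q
      have h15 := h3 j x (k.le ⟨h12, h6 x⟩)
      have h16 : P x (V₁ ⊓ W' x) (Pi.single j 1) (M.presheaf.map k.op (e _ (τ j).2)) := by
        refine ⟨inf_le_right, Pi.single j 1, fun h j' => ?_, ?_⟩
        · by_cases e : j' = j <;> simp [e, h15]
        · rw [Fintype.sum_eq_single j fun j' e => by simp [e], Pi.single_eq_same,
            h5 j x _ _ k 1 1 fun _ => by rw [h15, mul_one], one_smul]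
      obtain ⟨b, hb⟩ := R.toQ.ex (pm h16)
      exact ⟨b, hφ _ _ _ ⟨x, _, hb, h16⟩⟩
    choose b hb using fun k => h14 ⟨x', k⟩ (Opens.infLELeft _ _ ≫ i ≫ Opens.infLERight _ _)
    refine ⟨V₁ ⊓ W' x, Opens.infLELeft _ _ ≫ i ≫ Opens.infLELeft _ _,
      ∑ k, C.presheaf.map (Opens.infLELeft V₁ (W' x)).op (a k) • b k, h10 _ ⟨h12, h6 x⟩, ?_⟩
    rw [← res_res M (i ≫ Opens.infLELeft _ _) (Opens.infLELeft _ _),
      ← res_res M (Opens.infLELeft _ _) i, h13]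
    simp only [map_sum, Scheme.Modules.map_smul, Scheme.Modules.Hom.app_smul, hb]
    exact Finset.sum_congr rfl fun k _ => by rw [res_res M]

end Pool.Agent.Lib.CQ88
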