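import Pool.Agent.Lib.CC61.B_COPST
import Pool.Agent.Lib.CC61.B_FIB
import Pool.Agent.Lib.CC61.B_LIFT
import Pool.Agent.Lib.CC61.B_LCH

open Pool.Agent.Lib.MP_cc3443_ag Pool.Agent.Lib.CC61

noncomputable section

namespace Pool.Agent.Lib.CQ88

variable {K : Type} [Field K] [Algebra ℂ K] [Algebra (RatFunc ℂ) K]
  [IsScalarTower ℂ (RatFunc ℂ) K] [FiniteDimensional (RatFunc ℂ) K] {N N' : ℕ}
  {ν : ℕ × ℤ} {f : Fn K} {E F : Lat K N} {E' F' : Lat K N'}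

lemma sph_nice (h : Sph ν f) : Nice ν f := ⟨h.supp, h.bdd, fun a b => h.iso_eq a b⟩

lemma torsFn_eq (E F : Lat K N) : torsFn 0 N E F = ind (E = F) :=
  (em (E = F)).elim (fun h => h ▸ (torsFn_self E).trans (ind_true rfl).symm)
    fun h => (torsFn_zero h).trans (ind_false h).symm

lemma tors_oplus (h : F ≤ E) (h' : F' ≤ E') (d : ℕ) : torsFn d _ (oplus E E') (oplus F F') =
    ∑ k : Fin (d + 1), torsFn k N E F * torsFn (d - k) N' E' F' := by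
  have h1 := rk_mono h
  have h2 := rk_mono h'
  simp only [torsFn, ← ind_and, hasClass_iff, rk_oplus, chiL_oplus, oplus_mono h h', h, h',
    true_and, Nat.cast_zero, zero_mul, add_zero]
  by_cases e : rk E + rk E' = rk F + rk F' ∧ chiL E + chiL E' = chiL F + chiL F' + d
  · have h3 := chiL_mono h (by omega)
    have h4 := chiL_mono h' (by omega)
    rw [ind_true e, Fintype.sum_eq_single ⟨(chiL E - chiL F).toNat, by omega⟩ fun k hk =>
      ind_false fun e' => hk (Fin.ext (by simp only; omega)), ind_true (by simp only; omega)]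
  · exact (ind_false e).trans (Finset.sum_eq_zero fun k _ => ind_false fun e' =>
      e (by have := k.2; omega)).symm

lemma line_oplus (h : F ≤ E) (h' : F' ≤ E') (l : ℤ) : lineFn l _ (oplus E E') (oplus F F') =
    lineFn l N E F * torsFn 0 N' E' F' + torsFn 0 N E F * lineFn l N' E' F' := by
  have h1 := rk_mono h
  have h2 := rk_mono h'
  simp only [lineFn, torsFn_eq, ← ind_and, hasClass_iff, rk_oplus, chiL_oplus, oplus_mono h h',
    h, h', true_and, sat_iff_st, sat_oplus_iff]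
  by_cases e : E' = F'
  · subst e
    rw [ind_false (P := E = F ∧ _) fun e => by omega, add_zero]
    exact ind_congr ⟨fun e => ⟨⟨by omega, e.2.1⟩, rfl⟩, fun e => ⟨by omega, e.1.2, sat_self _⟩⟩
  · rw [ind_false (P := _ ∧ E' = F') fun e' => e e'.2, zero_add]
    refine ind_congr ⟨fun e' => ?_, ?_⟩
    · have h3 : rk E' ≠ rk F' := fun h3 => e (e'.2.2.eq_of_rk h' h3)
      obtain rfl := e'.2.1.eq_of_rk h (by omega)
      exact ⟨rfl, by omega, e'.2.2⟩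
    · rintro ⟨rfl, e'⟩
      exact ⟨by omega, sat_self _, e'.2⟩

theorem sph_cop (h : Sph ν f) : ∃ (κ : Type) (_ : Fintype κ) (μ₁ μ₂ : κ → ℕ × ℤ)
    (f₁ f₂ : κ → Fn K), (∀ k, Sph (μ₁ k) (f₁ k) ∧ Sph (μ₂ k) (f₂ k) ∧ μ₁ k + μ₂ k = ν) ∧
      ∀ N N' (E F : Lat K N) (E' F' : Lat K N'), F ≤ E → F' ≤ E' →
        f _ (oplus E E') (oplus F F') = ∑ k, f₁ k N E F * f₂ k N' E' F' := by
  induction h with
  | tors d =>
    exact ⟨Fin (d + 1), _, _, _, _, _, fun k => ⟨.tors k, .tors (d - k), Prod.ext rfl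
      (by have := k.2; simp only [Prod.snd_add]; omega)⟩, fun _ _ _ _ _ _ h h' => tors_oplus h h' d⟩
  | line l =>
    exact ⟨Fin 2, inferInstance, ![(1, l), (0, (0 : ℕ))], ![(0, (0 : ℕ)), (1, l)], ![lineFn l, torsFn 0],
      ![torsFn 0, lineFn l], Fin.forall_fin_two.2 ⟨⟨.line l, .tors 0, by simp⟩, .tors 0, .line l,
        by simp⟩, fun _ _ _ _ _ _ h h' => by simp [line_oplus h h']⟩
  | zero ν => exact ⟨Empty, _, nofun, nofun, nofun, nofun, nofun, fun _ _ _ _ _ _ _ _ => rfl⟩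
  | add _ _ hf hg =>
    obtain ⟨κ, _, μ₁, μ₂, f₁, f₂, h1, h2⟩ := hf
    obtain ⟨κ', _, ν₁, ν₂, g₁, g₂, h3, h4⟩ := hg
    exact ⟨κ ⊕ κ', inferInstance, Sum.elim μ₁ ν₁, Sum.elim μ₂ ν₂, Sum.elim f₁ g₁, Sum.elim f₂ g₂,
      Sum.forall.2 ⟨h1, h3⟩, fun _ _ _ _ _ _ h h' => by
        simp [h2 _ _ _ _ _ _ h h', h4 _ _ _ _ _ _ h h']⟩
  | smul c _ hf =>
    obtain ⟨κ, _, μ₁, μ₂, f₁, f₂, h1, h2⟩ := hf
    exact ⟨κ, inferInstance, μ₁, μ₂, fun k => c • f₁ k, f₂, fun k => ⟨(h1 k).1.smul c, (h1 k).2⟩,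
      fun _ _ _ _ _ _ h h' => by simp [h2 _ _ _ _ _ _ h h', Finset.mul_sum, mul_assoc]⟩
  | mul a b hf hg =>
    obtain ⟨κ, _, μ₁, μ₂, f₁, f₂, h1, h2⟩ := hf
    obtain ⟨κ', _, ν₁, ν₂, g₁, g₂, h3, h4⟩ := hg
    refine ⟨κ × κ', inferInstance, _, _, _, _, fun k => ⟨(h1 k.1).1.mul (h3 k.2).1,
      (h1 k.1).2.1.mul (h3 k.2).2.1, by rw [add_add_add_comm, (h1 _).2.2, (h3 _).2.2]⟩,
      fun _ _ _ _ _ _ h h' => st_COPST K (st_FIB K) (st_LIFT K (st_LCH K)) _ _ _ _ _ _ _ _ _ _ _ _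
        _ _ _ _ _ _ _ _ h h' (sph_nice a) (sph_nice b) (fun k _ => ⟨sph_nice (h1 k.1).1,
          sph_nice (h3 k.2).1, sph_nice (h1 k.1).2.1, sph_nice (h3 k.2).2.1, (h3 _).2.2⟩)
        fun G G' e₁ e₂ e₃ e₄ => ?_⟩
    rw [h2 _ _ _ _ _ _ e₂ e₄, h4 _ _ _ _ _ _ e₁ e₃, Finset.sum_mul_sum, Fintype.sum_prod_type]
    simp only [mul_mul_mul_comm]

lemma prim_iff (h : Sph ν f) : Prim f ↔ ∀ N N' (E F : Lat K N) (E' F' : Lat K N'), F ≤ E →
    F' ≤ E' → f _ (oplus E E') (oplus F F') =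
      f N E F * ind (E' = F') + ind (E = F) * f N' E' F' := by
  have h0 : ∀ {N} {E F G₁ G₂ : Lat K N}, (∀ x, G₁.st x ∩ G₂.st x = F.st x ∧
      open Pointwise in G₁.st x + G₂.st x = E.st x) ↔ IsSum E F G₁ G₂ := by
    simp only [IsSum, ← Lat.coe_S, ← Submodule.coe_sup, ← Submodule.coe_inf, SetLike.coe_set_eq,
      implies_true]
  refine ⟨fun hp N N' E F E' F' e e' => ?_, fun hp N E F G₁ G₂ e => ?_⟩
  · rw [hp _ _ _ (oplus E F') (oplus F E') (h0.2 fun x => ⟨?_, ?_⟩), torsFn_eq, torsFn_eq,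
      (sph_nice h).mapL (oplus_mono e le_rfl) (q := pr1 N N') fun x w a b =>
        mem_oplus.2 ⟨b ▸ zero_mem _, (mem_oplus.1 a).2⟩,
      (sph_nice h).mapL (oplus_mono le_rfl e') (q := pr2 N N') fun x w a b =>
        mem_oplus.2 ⟨(mem_oplus.1 a).1, b ▸ zero_mem _⟩]
    · simp only [mapL_pr1_oplus, mapL_pr2_oplus, oplus_inj, true_and, and_true]
    · ext w
      simp only [Submodule.mem_inf, mem_oplus]
      exact ⟨fun a => ⟨a.2.1, a.1.2⟩, fun a => ⟨⟨e x a.1, a.2⟩, a.1, e' x a.2⟩⟩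
    · exact le_antisymm (sup_le (oplus_mono le_rfl e' x) (oplus_mono e le_rfl x)) fun w a =>
        in1_add_in2 w ▸ Submodule.add_mem_sup (in1_mem_oplus.2 (mem_oplus.1 a).1)
          (in2_mem_oplus.2 (mem_oplus.1 a).2)
  · rw [(sph_nice h).isSum (h0.1 e), torsFn_eq, torsFn_eq, hp _ _ _ _ _ _
      (fun x => (h0.1 e x).1.ge.trans inf_le_left) fun x => (h0.1 e x).1.ge.trans inf_le_right]

end Pool.Agent.Lib.CQ88
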