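import Pool.Agent.Lib.CL88.Defs
import Pool.Agent.Lib.CQ88.Alg
import Pool.Agent.Lib.MP_99f32e_ag.Sch

open AlgebraicGeometry CategoryTheory TopologicalSpace IsLocalRing Filter
open Pool.Agent.Lib.MP_cc3443_ag Pool.Agent.Lib.MP_99f32e_ag Pool.Agent.Lib.CL88

noncomputable section

namespace Pool.Agent.Lib.CQ88

/-- The points and functions of a curve in terms of its function field. -/
structure Dict {C : Scheme.{0}} (s : C ⟶ Spec (.of ℂ)) (K : Type) [Field K] [Algebra ℂ K] where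
  η : C
  pt : Place K → C
  ev : ∀ U : C.Opens, η ∈ U → (Γ(C, U) →+* K)
  gen : ∀ {U : C.Opens} {y}, y ∈ U → η ∈ U
  cases : ∀ y, y = η ∨ ∃ x, pt x = y
  inj : pt.Injective
  ne : ∀ x, pt x ≠ η
  closed : ∀ x, IsClosed {pt x}
  cof : ∀ {U : C.Opens}, η ∈ U → {x | pt x ∉ U}.Finite
  ev_res : ∀ {U V : C.Opens} (i : V ⟶ U) hU hV a, ev V hV (C.presheaf.map i.op a) = ev U hU a
  ev_inj : ∀ U h, Function.Injective (ev U h)
  ev_cst : ∀ U h c, ev U h (cst s c U) = algebraMap ℂ K c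
  ev_range : ∀ U h z, (∃ a, ev U h a = z) ↔ ∀ x, pt x ∈ U → z ∈ x.O

variable {K : Type} [Field K] {X : Scheme.{0}}

lemma mem_basicOpen_iff {R : CommRingCat.{0}} [IsLocalRing R] (φ : Spec R ⟶ X) {U : X.Opens}
    (h : ⊤ ≤ φ ⁻¹ᵁ U) (a : Γ(X, U)) : φ (closedPoint R) ∈ X.basicOpen a ↔
      IsUnit ((φ.appLE U ⊤ h ≫ (Scheme.ΓSpecIso R).hom) a) := by
  have hU : φ (closedPoint R) ∈ U := h (Set.mem_univ _)
  have : X.presheaf.germ U _ hU ≫ Scheme.stalkClosedPointTo φ =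
      φ.appLE U ⊤ h ≫ (Scheme.ΓSpecIso R).hom := by
    rw [Scheme.germ_stalkClosedPointTo]
    simp [Scheme.Hom.app_eq_appLE]
  rw [Scheme.mem_basicOpen _ _ _ hU, ← this, CommRingCat.comp_apply]
  exact (isUnit_map_iff (Scheme.stalkClosedPointTo φ).hom _).symm

lemma lift_spec {γ : Spec (.of K) ⟶ X} {O : ValuationSubring K} {φ : Spec (.of O) ⟶ X}
    (hφ : Spec.map (CommRingCat.ofHom O.subtype) ≫ φ = γ) {U : X.Opens}
    (h : φ (closedPoint O) ∈ U) (h' : ⊤ ≤ γ ⁻¹ᵁ U) (a : Γ(X, U)) :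
    ∃ b : O, (b : K) = evalAt γ U h' a ∧ (φ (closedPoint O) ∈ X.basicOpen a ↔ IsUnit b) := by
  have h1 := (Scheme.preimage_eq_top_of_closedPoint_mem (R := .of O) φ h).ge
  refine ⟨_, ?_, mem_basicOpen_iff (R := .of O) φ h1 a⟩
  subst hφ
  have : (φ.appLE U ⊤ h1 ≫ (Scheme.ΓSpecIso (.of O)).hom) ≫ CommRingCat.ofHom O.subtype =
      evalAt _ U h' := by
    rw [Category.assoc, ← Scheme.ΓSpecIso_naturality, evalAt,
      ← Scheme.Hom.appLE_comp_appLE _ _ U ⊤ ⊤ h1 le_top, Category.assoc]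
    congr 2
  exact congr($this a)

lemma lift_uniq [X.IsSeparated] {O : ValuationSubring K} {φ ψ : Spec (.of O) ⟶ X}
    (h : Spec.map (CommRingCat.ofHom O.subtype) ≫ φ =
      Spec.map (CommRingCat.ofHom O.subtype) ≫ ψ) : φ = ψ := by
  have : IsDominant (Spec.map (CommRingCat.ofHom O.subtype)) := 
    ⟨(PrimeSpectrum.denseRange_comap_iff_ker_le_nilRadical O.subtype).2
      (((RingHom.injective_iff_ker_eq_bot O.subtype).1 Subtype.val_injective).trans_le bot_le)⟩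
  exact ext_of_isDominant _ h

lemma exists_lift (γ : Spec (.of K) ⟶ X) {y : X} (hy : γ (closedPoint K) ⤳ y) :
    ∃ (O : ValuationSubring K) (φ : Spec (.of O) ⟶ X),
      Spec.map (CommRingCat.ofHom O.subtype) ≫ φ = γ ∧ φ (closedPoint O) = y := by
  let f := X.presheaf.stalkSpecializes hy ≫ Scheme.stalkClosedPointTo (R := .of K) γ
  obtain ⟨O, h1, h2⟩ := IsLocalRing.exists_factor_valuationRing f.hom
  refine ⟨O, Spec.map (CommRingCat.ofHom (f.hom.codRestrict O.toSubring h1)) ≫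
    X.fromSpecStalk y, ?_, ?_⟩
  · rw [← Spec.map_comp_assoc]
    change Spec.map f ≫ _ = _
    rw [Spec.map_comp, Category.assoc, Scheme.SpecMap_stalkSpecializes_fromSpecStalk,
      Scheme.Spec_stalkClosedPointTo_fromSpecStalk]
  · refine (Scheme.Hom.comp_apply _ _ _).trans ?_
    rw [Spec_closedPoint, Scheme.fromSpecStalk_closedPoint]

variable [Algebra ℂ K] [IsFF K] {J : Type} {W : J → Set (Place K)}
  (M : Model ℂ K J fun j => chartRing (W j))

lemma unit_iff {x : Place K} (b : x.O) : IsUnit b ↔ x.val b = 1 := by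
  refine ⟨fun h => ?_, fun h => ?_⟩
  · obtain ⟨c, hc⟩ := h.exists_right_inv
    have h1 : (b : K) * c = 1 := congrArg Subtype.val hc
    exact le_antisymm (x.mem_iff.1 b.2) ((x.inv_mem_iff (left_ne_zero_of_mul_eq_one h1)).1
      (eq_inv_of_mul_eq_one_right h1 ▸ c.2))
  · have h0 : (b : K) ≠ 0 := fun h0 => by simp [h0] at h
    exact .of_mul_eq_one ⟨_, (x.inv_mem_iff h0).2 h.ge⟩ (Subtype.ext (mul_inv_cancel₀ h0))

omit [IsFF K] in
lemma ev_chart (j : J) (z : K) :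
    (∃ a, evalAt M.γ (M.U j) (M.mem j) a = z) ↔ z ∈ chartRing (W j) :=
  Set.ext_iff.1 (M.range j) z

omit [IsFF K] in
lemma exists_pt {j : J} {x : Place K} (hx : x ∈ W j) : ∃ φ : Spec (.of x.O) ⟶ M.X,
    Spec.map (CommRingCat.ofHom x.O.subtype) ≫ φ = M.γ :=
  ⟨Spec.map (CommRingCat.ofHom ((evalAt M.γ (M.U j) (M.mem j)).hom.codRestrict x.O.toSubring
    fun a => (ev_chart M j _).1 ⟨a, rfl⟩ x hx)) ≫ (M.aff j).fromSpec, by
      rw [← Spec.map_comp_assoc]
      exact SpecMap_evalAt _ _ _⟩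

theorem exists_dict [Finite J] (hW : ∀ j, Good (W j)) (hc : ∀ x, ∃ j, x ∈ W j) :
    Nonempty (Dict M.π K) := by
  choose φ hφ using fun x => exists_pt M (hc x).choose_spec
  let η := M.γ (closedPoint K)
  have gen : ∀ {U : M.X.Opens} {y}, y ∈ U → η ∈ U := fun h =>
    M.γ_specializes.mem_open (Opens.isOpen _) (genericPoint_mem ⟨_, h⟩)
  let pt x := φ x (closedPoint _)
  have le : ∀ {U : M.X.Opens}, η ∈ U → ⊤ ≤ M.γ ⁻¹ᵁ U := fun h => M.top_le (genericPoint_mem ⟨_, h⟩)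
  let ev (U : M.X.Opens) (h : η ∈ U) : Γ(M.X, U) →+* K := (evalAt M.γ U (le h)).hom
  have res : ∀ {U V : M.X.Opens} (i : V ⟶ U) hU hV a,
      ev V hV (M.X.presheaf.map i.op a) = ev U hU a := fun i hU hV a =>
    congr($(res_evalAt M.γ i.le (le hV) (le hU)) a)
  have inj : ∀ U h, Function.Injective (ev U h) := fun U h =>
    M.evalAt_injective U (genericPoint_mem ⟨_, h⟩)
  have mem : ∀ {U x} (hx : pt x ∈ U) a, ev U (gen hx) a ∈ x.O ∧
      (pt x ∈ M.X.basicOpen a ↔ x.val (ev U (gen hx) a) = 1) := fun {U x} hx a => by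
    obtain ⟨b, h1, h2⟩ := lift_spec (hφ x) hx (le (gen hx)) a
    change (b : K) = ev U (gen hx) a at h1
    rw [← h1, ← unit_iff]
    exact ⟨b.2, h2⟩
  have memη : ∀ {U} (h : η ∈ U) a, η ∈ M.X.basicOpen a ↔ ev U h a ≠ 0 := fun h a =>
    (mem_basicOpen_iff (R := .of K) M.γ (le h) a).trans isUnit_iff_ne_zero
  have chart : ∀ x, ∃ j, pt x ∈ M.U j ∧ x ∈ W j := fun x => by
    obtain ⟨j, hj⟩ := M.cov (pt x)
    refine ⟨j, hj, (hW j).mem x fun z hz => ?_⟩
    obtain ⟨a, rfl⟩ := (ev_chart M j z).2 hz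
    exact (mem hj a).1
  have real : ∀ x, ∀ z ∈ x.O, ∃ (U : M.X.Opens) (hx : pt x ∈ U) (a : Γ(M.X, U)),
      ev U (gen hx) a = z := fun x z hz => by
    obtain ⟨j, hj, hx⟩ := chart x
    obtain ⟨s, h1, h2, h3, h4⟩ := (hW j).den x hx z hz
    obtain ⟨a, ha⟩ := (ev_chart M j _).2 h4
    obtain ⟨b, rfl⟩ := (ev_chart M j _).2 h1
    have h5 : pt x ∈ M.X.basicOpen b :=
      (mem hj b).2.2 (le_antisymm (x.mem_iff.1 (mem hj b).1) ((x.inv_mem_iff h2).1 h3))
    obtain ⟨c, h6⟩ : ∃ c : Γ(M.X, M.X.basicOpen b),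
        M.X.presheaf.map (homOfLE (M.X.basicOpen_le b)).op b * c = 1 :=
      (M.X.toRingedSpace.isUnit_res_basicOpen b).exists_right_inv
    refine ⟨_, h5, c * M.X.presheaf.map (homOfLE (M.X.basicOpen_le b)).op a,
      mul_left_cancel₀ h2 ?_⟩
    rw [map_mul, res _ (gen hj) (gen h5), ← mul_assoc, ← ha]
    refine (congrArg (· * _) ?_).trans (one_mul _)
    exact (congrArg (· * _) (res _ (gen hj) (gen h5) b).symm).trans
      ((map_mul _ _ _).symm.trans ((congrArg _ h6).trans (map_one _)))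
  have sep : ∀ {x x'}, x' ≠ x → ∃ U : M.X.Opens, pt x' ∈ U ∧ pt x ∉ U := fun {x x'} h => by
    obtain ⟨z, h1, h2⟩ := SetLike.not_le_iff_exists.1 fun h' => h (Place.eq_of_le h')
    obtain ⟨U, h3, a, rfl⟩ := real x' z h1
    exact ⟨U, h3, fun h4 => h2 (mem h4 a).1⟩
  have sepη : ∀ x, ∃ U : M.X.Opens, η ∈ U ∧ pt x ∉ U := fun x => by
    obtain ⟨j, hj, hx⟩ := chart x
    obtain ⟨r, h1, h2, h3⟩ := (hW j).exists_small (Set.finite_singleton x) 1
    obtain ⟨b, rfl⟩ := (ev_chart M j _).2 h1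
    exact ⟨_, (memη (gen hj) b).2 h2, fun h =>
      (x.val_lt_one_iff.2 (h3 x rfl hx)).ne ((mem hj b).2.1 h)⟩
  have cases : ∀ y, y = η ∨ ∃ x, pt x = y := fun y => by
    obtain ⟨O, ψ, h1, h2⟩ := exists_lift M.γ (M.γ_specializes.trans (genericPoint_specializes y))
    by_cases h : O = ⊤
    · subst h
      have : IsLocalHom (CommRingCat.ofHom (⊤ : ValuationSubring K).subtype).hom :=
        ⟨fun a ha => .of_mul_eq_one ⟨(a : K)⁻¹, trivial⟩ (Subtype.ext (mul_inv_cancel₀ ha.ne_zero))⟩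
      refine Or.inl (h2.symm.trans ((congrArg ψ (Spec_closedPoint
        (f := CommRingCat.ofHom (⊤ : ValuationSubring K).subtype)).symm).trans ?_))
      exact (Scheme.Hom.comp_apply _ _ _).symm.trans congr($h1 (closedPoint K))
    · have h4 : ∀ c, algebraMap ℂ K c ∈ O := fun c => by
        obtain ⟨b, h3, -⟩ := lift_spec h1 (U := ⊤) trivial le_top (cst M.π c ⊤)
        exact (h3.trans congr($(M.evalAt_const ⊤ le_top) c)) ▸ b.2
      have h5 : φ ⟨O, h, h4⟩ = ψ := lift_uniq ((hφ ⟨O, h, h4⟩).trans h1.symm)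
      exact Or.inr ⟨⟨O, h, h4⟩, h2 ▸ h5 ▸ rfl⟩
  have cof : ∀ {U : M.X.Opens}, η ∈ U → {x | pt x ∉ U}.Finite := fun {U} hU => by
    have h1 : ∀ j, ∃ b : Γ(M.X, M.U j), M.X.basicOpen b ≤ U ∧ η ∈ M.X.basicOpen b := fun j =>
      (M.aff j).exists_basicOpen_le ⟨η, hU⟩ (gen (M.generic_mem j))
    choose b h1 h2 using h1
    refine (Set.finite_iUnion fun j => Place.finite_ord (ev _ (gen (M.generic_mem j)) (b j))).subset
      fun x hx => ?_
    obtain ⟨j, hj, -⟩ := chart x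
    refine Set.mem_iUnion.2 ⟨j, fun h => hx (h1 j ((mem hj _).2.2 ?_))⟩
    rw [x.val_eq ((memη (gen hj) _).1 (h2 j)), h]
    simp
  refine ⟨⟨η, pt, ev, gen, cases, fun x x' h => ?_, fun x h => ?_, fun x => ?_, cof, res, inj,
    fun U h c => congr($(M.evalAt_const U (le h)) c), fun U h z => ⟨?_, fun hz => ?_⟩⟩⟩
  · by_contra h'
    obtain ⟨U, h1, h2⟩ := sep h'
    exact h2 (h ▸ h1)
  · obtain ⟨U, h1, h2⟩ := sepη x
    exact h2 (h ▸ h1)
  · refine ⟨isOpen_iff_forall_mem_open.2 fun y hy => ?_⟩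
    obtain ⟨U, h1, h2⟩ : ∃ U : M.X.Opens, y ∈ U ∧ pt x ∉ U := by
      obtain rfl | ⟨x', rfl⟩ := cases y
      exacts [sepη x, sep fun h => hy (h ▸ rfl)]
    exact ⟨U, fun z hz h => h2 (h ▸ hz), U.isOpen, h1⟩
  · rintro ⟨a, rfl⟩ x hx
    exact (mem hx a).1
  · have H (y : U) : ∃ (V : M.X.Opens) (hy : y.1 ∈ V) (_ : V ≤ U) (a : Γ(M.X, V)),
        ev V (gen hy) a = z := by
      obtain ⟨x, h1, h2⟩ : ∃ x, pt x ∈ U ∧ ∀ V : M.X.Opens, pt x ∈ V → y.1 ∈ V := by
        obtain h1 | ⟨x, h1⟩ := cases y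
        · obtain ⟨x, hx⟩ := (cof h).exists_notMem
          exact ⟨x, not_not.1 hx, fun V hV => h1 ▸ gen hV⟩
        · exact ⟨x, h1 ▸ y.2, fun V hV => h1 ▸ hV⟩
      obtain ⟨V, h3, a, rfl⟩ := real x z (hz x h1)
      exact ⟨V ⊓ U, ⟨h2 V h3, y.2⟩, inf_le_right, _,
        res (homOfLE inf_le_left) (gen h3) ⟨gen h3, h⟩ a⟩
    choose V hy hV a ha using H
    obtain ⟨t, ht, -⟩ := M.X.sheaf.existsUnique_gluing' V U (fun y => homOfLE (hV y))
      (fun y h => Opens.mem_iSup.2 ⟨⟨y, h⟩, hy _⟩) a fun y y' =>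
        have e : η ∈ V y ⊓ V y' := ⟨gen (hy y), gen (hy y')⟩
        inj _ e (((res _ e.1 e _).trans (ha y)).trans ((res _ e.2 e _).trans (ha y')).symm)
    exact ⟨t, (res _ h (gen (hy ⟨η, h⟩)) t).symm.trans ((congrArg _ (ht _)).trans (ha _))⟩

lemma smooth_model (hW : ∀ j, Good (W j)) (hA : ∀ j, Algebra.FiniteType ℂ (chartRing (W j))) :
    SmoothOfRelativeDimension 1 M.π := by
  refine HasRingHomProperty.of_iSup_eq_top (P := @SmoothOfRelativeDimension 1)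
    (fun j => ⟨M.U j, M.aff j⟩) (eq_top_iff.2 fun x _ => Opens.mem_iSup.2 (M.cov x)) fun j => ?_
  have h1 : (M.π.appLE ⊤ (M.U j) le_top).hom =
      ((M.chartEquiv j).symm.toRingHom.comp (algebraMap ℂ (chartRing (W j)))).comp
        (Scheme.ΓSpecIso (.of ℂ)).commRingCatIsoToRingEquiv.toRingHom := by
    ext c
    obtain ⟨c, rfl⟩ := (Scheme.ΓSpecIso (.of ℂ)).commRingCatIsoToRingEquiv.symm.surjective c
    apply (M.chartEquiv j).injective
    apply Subtype.ext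
    simp only [RingEquiv.toRingHom_eq_coe, RingHom.coe_comp, RingHom.coe_coe, Function.comp_apply,
      RingEquiv.apply_symm_apply]
    exact congr($(M.evalAt_const (M.U j) (M.mem j)) c)
  have h2 := RingHom.locally_respectsIso
    (RingHom.isStandardSmoothOfRelativeDimension_respectsIso (n := 1))
  change RingHom.Locally _ (M.π.appLE ⊤ (M.U j) le_top).hom
  rw [h1]
  exact h2.2 _ _ (h2.1 _ _ (locally_smooth (hW j)))

lemma exists_pow (v : K) {z : K} (hz : z ∈ chartRing {x : Place K | v ∈ x.O}) :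
    ∀ᶠ n : ℕ in atTop, z * v⁻¹ ^ n ∈ chartRing {x : Place K | v⁻¹ ∈ x.O} := by
  have h1 : ∀ x ∈ {x : Place K | z ∉ x.O}, ∀ᶠ n : ℕ in atTop, z * v⁻¹ ^ n ∈ x.O := fun x hx => by
    have h2 : x.val v⁻¹ < 1 := x.mem_nonunits_iff.1
      (x.O.inv_mem_nonunits_iff.2 (Or.inr fun h => hx (hz x h)))
    filter_upwards [eventually_ge_atTop (-x.ord z).toNat] with n hn
    rw [x.mem_iff, map_mul, x.val_eq (z := z) (by rintro rfl; exact hx x.O.zero_mem)]
    refine (mul_le_mul_right (Good.val_pow_le h2 n) _).trans ?_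
    rw [← WithZero.exp_add, ← WithZero.exp_zero, WithZero.exp_le_exp]
    omega
  filter_upwards [((finite_poles z).eventually_all).2 h1] with n hn x hx
  by_cases h : z ∈ x.O
  exacts [mul_mem h (pow_mem hx n), hn x h]

omit [IsFF K] in
lemma homog {ι : Type} (y : ι → K) {i : ι} (hi : y i ≠ 0) {a : K}
    (ha : a ∈ Algebra.adjoin ℂ (Set.range fun j => y j / y i)) :
    ∃ (m : ℕ) (G : MvPolynomial ι ℂ), G.IsHomogeneous m ∧ MvPolynomial.aeval y G = a * y i ^ m := by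
  induction ha using Algebra.adjoin_induction with
  | mem x hx =>
    obtain ⟨j, rfl⟩ := hx
    exact ⟨1, .X j, MvPolynomial.isHomogeneous_X _ _, by simp [hi]⟩
  | algebraMap c => exact ⟨0, .C c, MvPolynomial.isHomogeneous_C _ _, by simp⟩
  | add a b _ _ ha hb =>
    obtain ⟨m, G, h1, h2⟩ := ha
    obtain ⟨n, H, h3, h4⟩ := hb
    exact ⟨m + n, _, MvPolynomial.IsHomogeneous.add (h1.mul (MvPolynomial.isHomogeneous_X_pow i n))
      ((MvPolynomial.isHomogeneous_X_pow i m).mul h3), by simp [h2, h4]; ring⟩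
  | mul a b _ _ ha hb =>
    obtain ⟨m, G, h1, h2⟩ := ha
    obtain ⟨n, H, h3, h4⟩ := hb
    exact ⟨m + n, G * H, h1.mul h3, by simp [h2, h4]; ring⟩

lemma adjoin_eq {v : K} {ι : Type} {y : ι → K} {m : ℕ} {b : Fin m → K}
    (hb : ∀ z ∈ chartRing {x : Place K | v ∈ x.O}, ∃ p : Fin m → Polynomial ℂ,
      z = ∑ i, Polynomial.aeval v (p i) * b i)
    (h1 : ∀ i, y i ∈ chartRing {x : Place K | v ∈ x.O}) (h2 : v ∈ Set.range y)
    (h3 : ∀ i, b i ∈ Set.range y) :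
    Algebra.adjoin ℂ (Set.range y) = chartRing {x : Place K | v ∈ x.O} := by
  refine le_antisymm (Algebra.adjoin_le (Set.range_subset_iff.2 h1)) fun z hz => ?_
  obtain ⟨p, rfl⟩ := hb z hz
  exact sum_mem fun i _ => mul_mem (Algebra.adjoin_mono (Set.singleton_subset_iff.2 h2)
    (Polynomial.aeval_mem_adjoin_singleton ℂ v)) (Algebra.subset_adjoin (h3 i))

variable (K) in
/-- The smooth projective model of a function field. -/
theorem exists_curve : ∃ (C : Scheme.{0}) (s : C ⟶ Spec (.of ℂ)),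
    IsCurve s ∧ Nonempty (Dict s K) := by
  obtain ⟨u, hu⟩ := IsFF.ex (K := K)
  have u0 := transc_ne_zero hu
  obtain ⟨m, b, h1, h2⟩ := exists_gens_chartRing hu
  obtain ⟨m', b', h3, h4⟩ := exists_gens_chartRing (transc_inv hu)
  obtain ⟨N, h5, h6⟩ := ((eventually_all.2 fun i => exists_pow u (h1 i)).and
    (eventually_all.2 fun i => exists_pow u⁻¹ (h3 i))).exists_forall_of_atTop.imp
      fun N h => h (N + 1) N.le_succ
  rw [inv_inv] at h6
  let y : Fin 4 ⊕ Fin m ⊕ Fin m' → K :=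
    Sum.elim ![1, u ^ (N + 1), u, u ^ N] (Sum.elim b fun i => b' i * u ^ (N + 1))
  let t : Fin 2 → Fin 4 ⊕ Fin m ⊕ Fin m' := ![.inl 0, .inl 1]
  let W : Fin 2 → Set (Place K) := fun j => {x | ![u, u⁻¹] j ∈ x.O}
  have hW : ∀ j, Good (W j) := Fin.forall_fin_two.2 ⟨good_fin hu, good_fin (transc_inv hu)⟩
  have hc : ∀ x, ∃ j, x ∈ W j := fun x => Fin.exists_fin_two.2 (x.O.mem_or_inv_mem u)
  have ht : ∀ j, y (t j) ≠ 0 := Fin.forall_fin_two.2 ⟨one_ne_zero, pow_ne_zero _ u0⟩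
  have hA : ∀ j, Algebra.adjoin ℂ (Set.range fun i => y i / y (t j)) = chartRing (W j) := by
    refine Fin.forall_fin_two.2 ⟨adjoin_eq h2 ?_ ⟨.inl 2, div_one _⟩ fun i =>
      ⟨.inr (.inl i), div_one _⟩, adjoin_eq h4 ?_ ⟨.inl 3, ?_⟩ fun i =>
        ⟨.inr (.inr i), mul_div_cancel_right₀ _ (ht 1)⟩⟩
    · have e : u ∈ chartRing {x : Place K | u ∈ x.O} := fun _ h => h
      rintro (i | i | i) <;> rw [show y (t 0) = 1 from rfl, div_one]
      · fin_cases i
        exacts [one_mem _, pow_mem e _, e, pow_mem e _]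
      exacts [h1 i, h6 i]
    · have e : u⁻¹ ∈ chartRing {x : Place K | u⁻¹ ∈ x.O} := fun _ h => h
      rintro (i | i | i) <;> rw [show y (t 1) = u ^ (N + 1) from rfl, div_eq_mul_inv, ← inv_pow]
      · fin_cases i
        · exact mul_mem (one_mem _) (pow_mem e _)
        · exact (show 1 = u ^ (N + 1) * u⁻¹ ^ (N + 1) by simp [u0]) ▸ one_mem _
        · exact (show u⁻¹ ^ N = u * u⁻¹ ^ (N + 1) by simp [pow_succ', u0]) ▸ pow_mem e _
        · exact (show u⁻¹ = u ^ N * u⁻¹ ^ (N + 1) by simp [pow_succ, u0]) ▸ e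
      · exact h5 i
      · exact (show b' i = b' i * u ^ (N + 1) * u⁻¹ ^ (N + 1) by simp [u0]) ▸ h3 i
    · change u ^ N / u ^ (N + 1) = u⁻¹
      rw [pow_succ, div_mul_cancel_left₀ (pow_ne_zero _ u0)]
  have hM := exists_model (k := ℂ) y t 0 ht <| by
    rintro 𝔭 hp h7 ⟨i, hi⟩
    by_contra! h8
    have h9 : y i ≠ 0 := fun h => hi (h7 1 _ one_pos (MvPolynomial.isHomogeneous_X _ _) (by simpa))
    let A := Algebra.adjoin ℂ (Set.range fun j => y j / y i)
    let a (j) : A := ⟨y (t j) / y i, Algebra.subset_adjoin ⟨_, rfl⟩⟩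
    by_cases h : Ideal.span {a 0, a 1} = ⊤
    · obtain ⟨c, d, h⟩ := Ideal.mem_span_pair.1 ((Ideal.eq_top_iff_one _).1 h)
      obtain ⟨k, G, e1, e2⟩ := homog y h9 c.2
      obtain ⟨l, H, e3, e4⟩ := homog y h9 d.2
      have e5 : (c : K) * (y (t 0) / y i) + d * (y (t 1) / y i) = 1 := congrArg Subtype.val h
      have e6 := h7 (k + l + 1) _ (Nat.succ_pos _) (.sub (MvPolynomial.isHomogeneous_X_pow i _)
        (.add ((e1.mul (MvPolynomial.isHomogeneous_X_pow i l)).mul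
          (MvPolynomial.isHomogeneous_X ℂ (t 0))) (((MvPolynomial.isHomogeneous_X_pow i k).mul
            e3).mul (MvPolynomial.isHomogeneous_X ℂ (t 1))))) (by
        simp only [map_sub, map_add, map_mul, map_pow, MvPolynomial.aeval_X, e2, e4]
        field_simp at e5
        linear_combination (-y i ^ (k + l)) * e5)
      exact hi (hp.mem_of_pow_mem _ ((Submodule.sub_mem_iff_left _ (add_mem
        (𝔭.mul_mem_left _ (h8 0)) (𝔭.mul_mem_left _ (h8 1)))).1 e6))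
    · obtain ⟨x, -, e2⟩ := exists_place_of_ideal A _ h (s := a 0) (Ideal.subset_span (by simp))
        fun h => div_ne_zero (ht 0) h9 (congrArg Subtype.val h)
      obtain ⟨j, hj⟩ := hc x
      have e3 := e2 (a j) (Ideal.subset_span (by fin_cases j <;> simp))
      rw [← inv_inv (a j : K), ValuationSubring.inv_mem_nonunits_iff] at e3
      refine e3.elim (inv_ne_zero (div_ne_zero (ht j) h9)) fun h => h ?_
      rw [inv_div]
      exact (hA j).le (Algebra.subset_adjoin ⟨i, rfl⟩) x hj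
  rw [funext hA] at hM
  obtain ⟨M⟩ := hM
  exact ⟨M.X, M.π, ⟨inferInstance, smooth_model M hW fun j => (Subalgebra.fg_iff_finiteType _).1
    (Subalgebra.fg_def.2 ⟨_, Set.finite_range _, hA j⟩), M.proj⟩, exists_dict M hW hc⟩

end Pool.Agent.Lib.CQ88
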