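import Pool.Agent.Lib.CL88.Fun

open AlgebraicGeometry CategoryTheory TopologicalSpace Opposite Function Abelian Limits
open Pool.Agent.Lib.CL88

noncomputable section

namespace Pool.Agent.Lib.CQ88

section site

variable {D : Type} [SmallCategory D] {J : GrothendieckTopology D}
  [HasSheafify J AddCommGrpCat.{0}]

lemma epi_toSheaf [J.WEqualsLocallyBijective AddCommGrpCat.{0}] {R : Sheaf J RingCat.{0}}
    {M Q : SheafOfModules.{0} R} (π : M ⟶ Q) [Epi π] : Epi ((SheafOfModules.toSheaf R).map π) := by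
  let adj := PresheafOfModules.sheafificationAdjunction.{0} (𝟙 R.obj)
  let F := SheafOfModules.forget.{0} R ⋙ PresheafOfModules.restrictScalars (𝟙 R.obj)
  let L := PresheafOfModules.sheafification.{0} (𝟙 R.obj)
  let T := SheafOfModules.toSheaf.{0} R
  have h0 : L.map (F.map π) ≫ adj.counit.app Q = adj.counit.app M ≫ π := adj.counit.naturality π
  have h1 : Epi (L.map (F.map π)) := by
    rw [(IsIso.eq_comp_inv _).2 h0]
    infer_instance
  have h2 : L.map (cokernel.π (F.map π)) = 0 := by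
    rw [← cancel_epi (L.map (F.map π)), ← L.map_comp, cokernel.condition, L.map_zero, comp_zero]
  have h3 : PreservesFiniteColimits (L ⋙ T) :=
    inferInstanceAs (PreservesFiniteColimits (PresheafOfModules.toPresheaf _ ⋙ presheafToSheaf J _))
  have h4 : Epi (T.map (L.map (F.map π))) := Preadditive.epi_of_cancel_zero _ fun g hg => by
    obtain ⟨k, hk⟩ := CokernelCofork.IsColimit.desc'
      (isColimitOfHasCokernelOfPreservesColimit (L ⋙ T) (F.map π)) g hg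
    rw [← hk]
    change T.map (L.map _) ≫ k = 0
    rw [h2, T.map_zero, zero_comp]
  exact epi_of_epi_fac ((T.map_comp _ _).symm.trans ((congrArg T.map h0.symm).trans (T.map_comp _ _)))

variable [HasExt.{0} (Sheaf J AddCommGrpCat.{0})]

lemma les_site {S : ShortComplex (Sheaf J AddCommGrpCat.{0})} (hS : S.ShortExact) (n : ℕ) :
    Exact (Sheaf.H.map S.f n) (Sheaf.H.map S.g n) ∧ Injective (Sheaf.H.map S.f 0) ∧
    ∃ δ : S.X₃.H n →+ S.X₁.H (n + 1), Exact (Sheaf.H.map S.g n) δ ∧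
      Exact δ (Sheaf.H.map S.f (n + 1)) ∧
      ∀ (φ : S ⟶ S) q, δ (Sheaf.H.map φ.τ₃ n q) = Sheaf.H.map φ.τ₁ (n + 1) (δ q) := by
  have := hS.mono_f
  refine ⟨fun x => ⟨Ext.covariant_sequence_exact₂ _ hS x, ?_⟩,
    Ext.postcomp_mk₀_injective_of_mono _ _, hS.extClass.postcomp _ rfl,
    fun x => ⟨Ext.covariant_sequence_exact₃ _ hS x rfl, ?_⟩,
    fun x => ⟨fun h => Ext.covariant_sequence_exact₁ _ hS x h rfl, ?_⟩, fun φ q => ?_⟩
  · rintro ⟨y, rfl⟩
    rw [← Sheaf.H.map_comp_apply, S.zero, Sheaf.H.map_apply, Ext.mk₀_zero, Ext.comp_zero]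
  · rintro ⟨y, rfl⟩
    change Ext.comp (Ext.comp _ _ (add_zero n)) _ rfl = 0
    rw [Ext.comp_assoc_of_second_deg_zero]
    simp
  · rintro ⟨y, rfl⟩
    change Ext.comp (Ext.comp _ _ rfl) _ (add_zero (n + 1)) = 0
    rw [Ext.comp_assoc_of_third_deg_zero]
    simp
  · change Ext.comp (Ext.comp _ _ (add_zero n)) _ rfl =
      Ext.comp (Ext.comp _ _ rfl) _ (add_zero (n + 1))
    rw [Ext.comp_assoc_of_second_deg_zero, Ext.comp_assoc_of_third_deg_zero,
      hS.extClass_naturality hS φ]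

end site

variable {T : Type} [TopologicalSpace T]

lemma ab_res (A : AbSh T) {U V W : Opens T} (i : V ⟶ U) (j : W ⟶ V) (k : W ⟶ U)
    (a : A.obj.obj (op U)) : A.obj.map j.op (A.obj.map i.op a) = A.obj.map k.op a :=
  congr($(A.obj.map_comp i.op j.op) a).symm

lemma ab_ext (A : AbSh T) {U : Opens T} {a b : A.obj.obj (op U)} (h : ∀ y ∈ U,
    ∃ (V : Opens T) (i : V ⟶ U), y ∈ V ∧ A.obj.map i.op a = A.obj.map i.op b) : a = b :=
  TopCat.Presheaf.IsSheaf.section_ext (X := .of T) A.2 (U := op U) fun y hy =>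
    let ⟨V, i, h1, h2⟩ := h y hy
    ⟨V, i.le, h1, h2⟩

lemma ab_glue (A : AbSh T) (U : Opens T) (P : ∀ V : Opens T, A.obj.obj (op V) → Prop)
    (res : ∀ {V W : Opens T} (i : W ⟶ V) a, P V a → P W (A.obj.map i.op a))
    (uniq : ∀ V a b, P V a → P V b → a = b)
    (ex : ∀ y ∈ U, ∃ V, y ∈ V ∧ V ≤ U ∧ ∃ a, P V a) :
    ∃ t : A.obj.obj (op U), ∀ V (i : V ⟶ U) a, P V a → A.obj.map i.op t = a := by
  choose V h1 h2 a h3 using fun y : U => ex y y.2
  obtain ⟨t, ht, -⟩ := TopCat.Sheaf.existsUnique_gluing' (X := .of T) A V U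
    (fun y => homOfLE (h2 y)) (fun y h => Opens.mem_iSup.2 ⟨⟨y, h⟩, h1 _⟩) a fun y y' =>
      uniq _ _ _ (res _ _ (h3 y)) (res _ _ (h3 y'))
  refine ⟨t, fun W i b hb => ab_ext A fun y hy => ⟨W ⊓ V ⟨y, i.le hy⟩, homOfLE inf_le_left,
    ⟨hy, h1 _⟩, uniq _ _ _ ?_ (res _ _ hb)⟩⟩
  rw [ab_res A _ _ (homOfLE (inf_le_right.trans (h2 _))),
    ← ab_res A (homOfLE (h2 _)) (homOfLE inf_le_right)]
  exact (ht _).symm ▸ res _ _ (h3 _)

lemma inj_flasque (I : AbSh T) [CategoryTheory.Injective I] ⦃U V⦄ (i : U ⟶ V) :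
    Surjective (I.obj.map i) := fun t => by
  classical
  let st (y : T) : Type := (TopCat.Presheaf.stalk (X := .of T) I.obj y : AddCommGrpCat)
  let G : Loc st := ⟨fun _ => ⊤, fun _ _ _ => trivial, fun _ _ => trivial⟩
  let f : I ⟶ G.sh := ⟨⟨fun U => AddCommGrpCat.ofHom (.mk' (fun a : I.obj.obj U =>
    (⟨fun y => TopCat.Presheaf.germ (X := .of T) I.obj U.unop y y.2 a, trivial⟩ : G.P U.unop))
      fun a b => Subtype.ext (funext fun y => map_add _ a b)), fun U W i => by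
        ext a
        exact Subtype.ext (funext fun y =>
          TopCat.Presheaf.germ_res_apply (X := .of T) I.obj i.unop y y.2 a)⟩⟩
  have h1 : ∀ U, Mono (f.hom.app U) := fun U => (AddCommGrpCat.mono_iff_injective _).2
    fun a b e => TopCat.Presheaf.section_ext (X := .of T) I _ a b fun y hy => congr(($e).1 ⟨y, hy⟩)
  have h2 : Mono f.hom := NatTrans.mono_of_mono_app _
  have h3 : Mono f := (sheafToPresheaf _ _).mono_of_mono_map h2
  let r := CategoryTheory.Injective.factorThru (𝟙 I) f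
  let g : G.P U.unop := ⟨fun y => if h : y.1 ∈ V.unop then (f.hom.app V t).1 ⟨y, h⟩ else 0, trivial⟩
  refine ⟨r.hom.app U g, congr($(r.hom.naturality i) g).symm.trans ?_⟩
  refine (congrArg (r.hom.app V) (Subtype.ext (funext fun y => dif_pos y.2) :
    G.sh.obj.map i g = f.hom.app V t)).trans ?_
  exact congr(($(CategoryTheory.Injective.comp_factorThru (𝟙 I) f)).hom.app V t)

lemma loc_of_epi {B Q : AbSh T} (g : B ⟶ Q) [Epi g] (U : Opens T) (t : Q.obj.obj (op U)) {x : T}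
    (hx : x ∈ U) : ∃ (V : Opens T) (i : V ⟶ U) (b : B.obj.obj (op V)),
      x ∈ V ∧ g.hom.app (op V) b = Q.obj.map i.op t := by
  obtain ⟨V, i, ⟨b, h1⟩, h2⟩ :=
    ((Sheaf.isLocallySurjective_iff_epi' _ g).2 ‹_›).imageSieve_mem t x hx
  exact ⟨V, i, b, h2, h1⟩

lemma h2_zero (hT : ∀ (W : Opens T) (x : T) (S : Set T), x ∈ W → (W : Set T) ⊆ S → IsOpen S)
    (A : AbSh T) (x : (cohF T 2).obj A) : x = 0 := by
  have := hasExt T
  let S : ShortComplex (AbSh T) :=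
    ShortComplex.mk (CategoryTheory.Injective.ι A) (cokernel.π _) (cokernel.condition _)
  have hS : S.ShortExact := { exact := ShortComplex.exact_cokernel _ }
  obtain ⟨-, -, δ, -, h1, -⟩ := les_site hS 1
  have : CategoryTheory.Injective S.X₂ :=
    inferInstanceAs (CategoryTheory.Injective (CategoryTheory.Injective.under A))
  obtain ⟨q, rfl⟩ := (h1 x).1 (Subsingleton.elim _ _)
  refine (congrArg δ (h1_flasque S.X₃ (fun V U i t => ?_) q)).trans (map_zero δ)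
  have := hS.epi_g
  obtain ⟨W, j, b, h2, h3⟩ : ∃ (W : Opens T) (j : W ⟶ U.unop) (b : S.X₂.obj.obj (op W)),
      IsOpen ((W : Set T) ∪ (V.unop \ U.unop)) ∧ S.g.hom.app (op W) b = S.X₃.obj.map j.op t := by
    by_cases h : ∃ y, y ∈ U.unop
    · obtain ⟨y, hy⟩ := h
      obtain ⟨W, j, b, h2, h3⟩ := loc_of_epi S.g _ t hy
      exact ⟨W, j, b, hT W y _ h2 Set.subset_union_left, h3⟩
    · refine ⟨U.unop, 𝟙 _, 0, ?_, TopCat.Presheaf.section_ext (X := .of T) S.X₃ _ _ _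
        fun y hy => absurd ⟨y, hy⟩ h⟩
      rw [Set.union_sdiff_cancel i.unop.le]
      exact V.unop.isOpen
  obtain ⟨b, rfl⟩ := inj_flasque S.X₂ (j ≫ i.unop).op b
  let W' : Opens T := ⟨_, h2⟩
  have k : W' ≤ V.unop := Set.union_subset (j ≫ i.unop).le Set.sdiff_subset
  have e : U.unop ⊓ W' ≤ W := fun y hy => hy.2.resolve_right fun h => h.2 hy.1
  have m : ∀ {Z : Opens T} (p : Z ⟶ U.unop) (q : Z ⟶ W'), S.X₃.obj.map p.op t =
      S.X₃.obj.map (q ≫ homOfLE k).op (S.g.hom.app V b) := fun p q => by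
    let l := homOfLE ((le_inf p.le q.le).trans e)
    rw [← ab_res _ j l, ← h3, ← ab_res _ (j ≫ i.unop) l]
    exact congrArg _ congr($(S.g.hom.naturality (j ≫ i.unop).op) b)
  obtain ⟨u, h4⟩ := ab_glue S.X₃ V.unop (fun Z a => (∃ p : Z ⟶ U.unop, a = S.X₃.obj.map p.op t) ∨
    ∃ q : Z ⟶ W', a = S.X₃.obj.map (q ≫ homOfLE k).op (S.g.hom.app V b))
    (by
      rintro Z Z' l a (⟨p, rfl⟩ | ⟨q, rfl⟩)
      exacts [.inl ⟨l ≫ p, ab_res ..⟩, .inr ⟨l ≫ q, ab_res ..⟩])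
    (by
      rintro Z a a' (⟨p, rfl⟩ | ⟨q, rfl⟩) (⟨p', rfl⟩ | ⟨q', rfl⟩)
      exacts [Subsingleton.elim p p' ▸ rfl, m p q', (m p' q).symm, Subsingleton.elim q q' ▸ rfl])
    fun y hy => (em (y ∈ U.unop)).elim (fun h => ⟨_, h, i.unop.le, _, .inl ⟨𝟙 _, rfl⟩⟩)
      fun h => ⟨W', .inr ⟨hy, h⟩, k, _, .inr ⟨𝟙 _, rfl⟩⟩
  exact ⟨u, h4 _ i.unop t (.inl ⟨𝟙 _, congr($(S.X₃.obj.map_id U) t).symm⟩)⟩

lemma chi_lin {A₀ B₀ Q₀ A₁ B₁ Q₁ : Type} [AddCommGroup A₀] [AddCommGroup B₀] [AddCommGroup Q₀]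
    [AddCommGroup A₁] [AddCommGroup B₁] [AddCommGroup Q₁] [Module ℂ A₀] [Module ℂ B₀] [Module ℂ Q₀]
    [Module ℂ A₁] [Module ℂ B₁] [Module ℂ Q₁] [Module.Finite ℂ B₀] [Module.Finite ℂ A₁]
    [Module.Finite ℂ B₁] {f₀ : A₀ →ₗ[ℂ] B₀} {g₀ : B₀ →ₗ[ℂ] Q₀} {δ : Q₀ →ₗ[ℂ] A₁}
    {f₁ : A₁ →ₗ[ℂ] B₁} {g₁ : B₁ →ₗ[ℂ] Q₁} (h0 : Injective f₀) (h1 : Exact f₀ g₀) (h2 : Exact g₀ δ)
    (h3 : Exact δ f₁) (h4 : Exact f₁ g₁) (h5 : Surjective g₁) :
    (Module.finrank ℂ Q₀ : ℤ) - Module.finrank ℂ Q₁ = Module.finrank ℂ B₀ - Module.finrank ℂ B₁ -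
      (Module.finrank ℂ A₀ - Module.finrank ℂ A₁) := by
  rw [LinearMap.exact_iff] at h1 h2 h3 h4
  have : Module.Finite ℂ (LinearMap.ker δ) := h2 ▸ inferInstance
  have : Module.Finite ℂ (Q₀ ⧸ LinearMap.ker δ) := .equiv δ.quotKerEquivRange.symm
  have : Module.Finite ℂ Q₀ := .of_submodule_quotient (LinearMap.ker δ)
  have e0 := LinearMap.finrank_range_of_inj h0
  have e1 := g₀.finrank_range_add_finrank_ker
  have e2 := δ.finrank_range_add_finrank_ker
  have e3 := f₁.finrank_range_add_finrank_ker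
  have e4 := g₁.finrank_range_add_finrank_ker
  rw [h1] at e1
  rw [h2] at e2
  rw [h3] at e3
  rw [h4, LinearMap.range_eq_top.2 h5, finrank_top] at e4
  omega

variable {C : Scheme.{0}} (s : C ⟶ Spec (.of ℂ)) {L M N : C.Modules}

/-- The underlying map of abelian sheaves. -/
def abMap (φ : M ⟶ N) : abSheaf M ⟶ abSheaf N := ⟨φ.mapPresheaf⟩

lemma mulBy_abMap (φ : M ⟶ N) (c : ℂ) : mulBy s M c ≫ abMap φ = abMap φ ≫ mulBy s N c :=
  Sheaf.hom_ext (NatTrans.ext (funext fun U => by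
    ext a
    exact φ.app_smul (cst s c U.unop) a))

/-- The map induced on cohomology. -/
def cohMap (φ : M ⟶ N) (i : ℕ) : Coh s M i →ₗ[ℂ] Coh s N i where
  toFun := ((cohF C i).map (abMap φ)).hom
  map_add' := map_add _
  map_smul' c x := congr(($((((cohF C i).map_comp _ _).symm.trans
    (congrArg (cohF C i).map (mulBy_abMap s φ c))).trans ((cohF C i).map_comp _ _))).hom x)

lemma chi_add (hT : ∀ (W : Opens C) (x : C) (S : Set C), x ∈ W → (W : Set C) ⊆ S → IsOpen S)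
    {φ : L ⟶ M} {ψ : M ⟶ N} (h : SE (abMap φ) (abMap ψ)) [Module.Finite ℂ (Coh s M 0)]
    [Module.Finite ℂ (Coh s L 1)] [Module.Finite ℂ (Coh s M 1)] :
    CL88.h s N 0 - CL88.h s N 1 = CL88.h s M 0 - CL88.h s M 1 - (CL88.h s L 0 - CL88.h s L 1) := by
  have := hasExt C
  obtain ⟨h1, h0, δ, h2, h3, h4⟩ := les_site h.shortExact 0
  obtain ⟨h5, -, δ', h6, -⟩ := les_site h.shortExact 1
  exact chi_lin (f₀ := cohMap s φ 0) (g₀ := cohMap s ψ 0) (f₁ := cohMap s φ 1) (g₁ := cohMap s ψ 1)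
    (δ := ⟨⟨δ, map_add δ⟩, fun c => h4 ⟨mulBy s L c, mulBy s M c, mulBy s N c,
      mulBy_abMap s φ c, mulBy_abMap s ψ c⟩⟩) h0 h1 h2 h3 h5
    fun y => (h6 y).1 (h2_zero hT _ _)

lemma app_res (φ : M ⟶ N) {U W : C.Opens} (i : W ⟶ U) (a : Γ(M, U)) :
    φ.app W (M.presheaf.map i.op a) = N.presheaf.map i.op (φ.app U a) :=
  congr($(φ.mapPresheaf.naturality i.op) a)

lemma inj_of_mono (φ : M ⟶ N) [Mono φ] (U : C.Opens) : Injective (φ.app U) :=
  (AddCommGrpCat.mono_iff_injective _).1 ((NatTrans.mono_iff_mono_app _).1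
    ((Scheme.Modules.toPresheaf C).map_mono φ) (op U))

lemma mono_of_inj {φ : M ⟶ N} (h : ∀ U, Injective (φ.app U)) : Mono φ :=
  ⟨fun _ _ e => Scheme.Modules.hom_ext _ _ fun U => by
    ext a
    exact h U congr(($e).app U a)⟩

lemma se_coker (φ : M ⟶ N) [Mono φ] : SE (abMap φ) (abMap (cokernel.π φ)) := by
  refine ⟨fun U => inj_of_mono φ U.unop, fun U b => ?_, fun U t x hx => ?_⟩
  · have h1 : (ShortComplex.mk φ (cokernel.π φ) (cokernel.condition _)).ShortExact :=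
      { exact := ShortComplex.exact_cokernel _ }
    let F : C.Modules ⥤ _ := SheafOfModules.evaluation C.ringCatSheaf U
    have : PreservesFiniteLimits F := 
      inferInstanceAs (PreservesFiniteLimits (SheafOfModules.evaluation C.ringCatSheaf U))
    have : F.PreservesZeroMorphisms := ⟨fun _ _ => rfl⟩
    exact (ShortComplex.ShortExact.moduleCat_exact_iff_function_exact _).1
      (h1.exact.map_of_mono_of_preservesKernel F inferInstance inferInstance) b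
  · have h : Epi (cokernel.π φ) := inferInstance
    have : Epi (abMap (cokernel.π φ)) := @epi_toSheaf _ _ _ _ _ C.ringCatSheaf _ _ _ h
    exact loc_of_epi _ U t hx

end Pool.Agent.Lib.CQ88
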