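import Pool.Agent.Lib.CQ88.Curve

open AlgebraicGeometry CategoryTheory TopologicalSpace IsLocalRing Polynomial
open Pool.Agent.Lib.MP_cc3443_ag Pool.Agent.Lib.MP_99f32e_ag Pool.Agent.Lib.CL88

noncomputable section

namespace Pool.Agent.Lib.CQ88

section
variable (A : Type) [CommRing A] [Algebra ℂ[X] A] [Algebra.Etale ℂ[X] A]

lemma etale_reduced : _root_.IsReduced A :=
  have := Algebra.FormallyUnramified.isReduced_of_field (RatFunc ℂ)
    (TensorProduct ℂ[X] (RatFunc ℂ) A)
  isReduced_of_injective _ (Algebra.TensorProduct.includeRight_injective (B := A)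
    (IsFractionRing.injective ℂ[X] (RatFunc ℂ)))

variable {A} [IsDomain A]

lemma etale_val (q : Ideal A) [q.IsPrime] (a b : A) :
    ∃ s ∉ q, ∃ r, a * r = b * s ∨ b * r = a * s := by
  let := Localization.AtPrime.algebraOfLiesOver (q.under ℂ[X]) q
  have := Algebra.FiniteType.isNoetherianRing ℂ[X] A
  have h1 := ((Algebra.isUnramifiedAt_iff_map_eq ℂ[X] (q.under ℂ[X]) q).1 inferInstance).2
  have h2 : (maximalIdeal (Localization.AtPrime q)).IsPrincipal := h1 ▸ inferInstance
  have : ValuationRing (Localization.AtPrime q) :=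
    ((tfae_of_isNoetherianRing_of_isLocalRing_of_isDomain _).out 4 1).1 h2
  obtain ⟨c, hc⟩ := ValuationRing.cond (algebraMap A (Localization.AtPrime q) a) (algebraMap _ _ b)
  obtain ⟨⟨r, s⟩, h⟩ := IsLocalization.surj q.primeCompl c
  refine ⟨s, s.2, r, hc.imp (fun e => ?_) fun e => ?_⟩ <;>
    refine IsLocalization.injective (Localization.AtPrime q) q.primeCompl_le_nonZeroDivisors ?_ <;>
    rw [map_mul, map_mul, ← e, mul_assoc, h]

variable (A) (K : Type) [Field K] [Algebra A K] [IsFractionRing A K] [Algebra ℂ K] [Algebra ℂ A]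
  [IsScalarTower ℂ ℂ[X] A] [IsScalarTower ℂ A K]
include A

lemma exists_ff : ∃ (_ : Algebra (RatFunc ℂ) K) (_ : IsScalarTower ℂ (RatFunc ℂ) K),
    FiniteDimensional (RatFunc ℂ) K := by
  let := ((algebraMap A K).comp (algebraMap ℂ[X] A)).toAlgebra
  have : IsScalarTower ℂ[X] A K := .of_algebraMap_eq' rfl
  have h : Function.Injective (algebraMap ℂ[X] K) :=
    (IsFractionRing.injective A K).comp (FaithfulSMul.algebraMap_injective ℂ[X] A)
  let := (IsFractionRing.lift (K := RatFunc ℂ) h).toAlgebra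
  have : IsScalarTower ℂ[X] (RatFunc ℂ) K :=
    .of_algebraMap_eq fun p => (IsFractionRing.lift_algebraMap h p).symm
  have : Algebra.FormallyUnramified A K := .of_isLocalization (nonZeroDivisors A)
  have : Algebra.FormallyUnramified ℂ[X] K := .comp _ A _
  have : Algebra.FormallyUnramified (RatFunc ℂ) K := .of_restrictScalars ℂ[X] _ _
  have : Algebra.EssFiniteType A K := .of_isLocalization _ (nonZeroDivisors A)
  have : Algebra.EssFiniteType ℂ[X] K := .comp _ A _
  have : Algebra.EssFiniteType (RatFunc ℂ) K := .of_comp ℂ[X] _ _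
  refine ⟨inferInstance, .of_algebraMap_eq fun c => ?_, Algebra.FormallyUnramified.finite_of_free _ _⟩
  rw [IsScalarTower.algebraMap_apply ℂ ℂ[X] (RatFunc ℂ), ← IsScalarTower.algebraMap_apply,
    IsScalarTower.algebraMap_apply ℂ[X] A K, ← IsScalarTower.algebraMap_apply ℂ ℂ[X] A,
    ← IsScalarTower.algebraMap_apply]

lemma good_chart [IsFF K] : Good {x : Place K | ∀ a : A, algebraMap A K a ∈ x.O} ∧
    Set.range (algebraMap A K) = chartRing {x : Place K | ∀ a : A, algebraMap A K a ∈ x.O} := by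
  have h1 : ∀ x : Place K, (∀ a : A, algebraMap A K a ∈ x.O) → ∀ z ∈ x.O, ∃ s r : A,
      x.val (algebraMap A K s) = 1 ∧ algebraMap A K s * z = algebraMap A K r := fun x hx z hz => by
    obtain ⟨a, b, hb, rfl⟩ := IsFractionRing.div_surjective A z
    have h0 := IsFractionRing.to_map_ne_zero_of_mem_nonZeroDivisors (K := K) hb
    obtain ⟨s, h1, r, h2⟩ := etale_val ((maximalIdeal x.O).comap
      ((algebraMap A K).codRestrict x.O.toSubring hx)) a b
    have h3 : x.val (algebraMap A K s) = 1 := (unit_iff _).1 (not_not.1 h1)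
    obtain h2 | h2 := h2 <;> have h2 := congrArg (algebraMap A K) h2 <;>
      rw [map_mul, map_mul] at h2
    · have h4 : algebraMap A K r * (algebraMap A K a / algebraMap A K b) = algebraMap A K s := by
        field_simp
        linear_combination h2
      refine ⟨r, s, le_antisymm (x.mem_iff.1 (hx r)) ?_, h4⟩
      rw [← h3, ← h4, map_mul]
      exact mul_le_of_le_one_right' (x.mem_iff.1 hz)
    · exact ⟨s, r, h3, by field_simp; linear_combination -h2⟩
  let B := (IsScalarTower.toAlgHom ℂ A K).range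
  have h2 : ∀ z ∈ chartRing {x : Place K | ∀ a : A, algebraMap A K a ∈ x.O}, z ∈ B :=
    fun z hz => by
    let I : Ideal B :=
      { carrier := {a | a.1 * z ∈ B}
        add_mem' := fun ha hb => (congrArg (· ∈ B) (add_mul _ _ z)).mpr (add_mem ha hb)
        zero_mem' := (congrArg (· ∈ B) (zero_mul z)).mpr (zero_mem B)
        smul_mem' := fun c a ha => (congrArg (· ∈ B) (mul_assoc c.1 a.1 z)).mpr (mul_mem c.2 ha) }
    by_contra h
    obtain ⟨a, b, hb, rfl⟩ := IsFractionRing.div_surjective A z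
    have h0 := IsFractionRing.to_map_ne_zero_of_mem_nonZeroDivisors (K := K) hb
    obtain ⟨x, h3, h4⟩ := exists_place_of_ideal B I
      (fun e => h ((congrArg (· ∈ B) (one_mul _)).mp (I.eq_top_iff_one.1 e))) (s := ⟨_, b, rfl⟩)
      ⟨a, (mul_div_cancel₀ _ h0).symm⟩ fun e => h0 (congrArg Subtype.val e)
    obtain ⟨s, r, h5, h6⟩ := h1 x (fun a => h3 _ ⟨a, rfl⟩) _ (hz x fun a => h3 _ ⟨a, rfl⟩)
    exact (x.mem_nonunits_iff.1 (h4 ⟨_, s, rfl⟩ ⟨r, h6.symm⟩)).ne h5
  refine ⟨⟨?_, fun x hx z hz => ?_, fun x hx a => hx _ fun y hy => hy a⟩,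
    Set.ext fun z => ⟨?_, h2 z⟩⟩
  · have : Algebra.FiniteType ℂ A := .trans (S := ℂ[X]) inferInstance inferInstance
    obtain ⟨t, ht⟩ := this.out
    obtain ⟨x, hx⟩ := (t.finite_toSet.biUnion fun a _ =>
      finite_poles (algebraMap A K a)).exists_notMem
    exact ⟨x, fun a => (Algebra.adjoin_le (S := (chartRing {x}).comap
      (IsScalarTower.toAlgHom ℂ A K)) fun b hb y hy => by_contra fun h =>
        hx (Set.mem_biUnion hb (hy ▸ h))) (ht.ge trivial) x rfl⟩
  · obtain ⟨s, r, h3, h4⟩ := h1 x hx z hz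
    have h0 : algebraMap A K s ≠ 0 := fun h => by simp [h] at h3
    exact ⟨_, fun y hy => hy s, h0, (x.inv_mem_iff h0).2 h3.ge, fun y hy => h4 ▸ hy r⟩
  · rintro ⟨a, rfl⟩ x hx
    exact hx a

end

variable {C : Scheme.{0}} {s : C ⟶ Spec (.of ℂ)}

lemma exists_chart (h : IsCurve s) (x : C) : ∃ V : C.Opens, IsAffineOpen V ∧ x ∈ V ∧
    ∃ g : ℂ[X] →+* Γ(C, V), g.Etale ∧ ∀ c, g (Polynomial.C c) = cst s c V := by
  obtain ⟨U, -, V, h1, h2, e, h3⟩ := h.smooth.1 x
  obtain rfl : U = ⊤ := eq_top_iff.2 fun y _ => Subsingleton.elim (s x) y ▸ e h2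
  obtain ⟨g, h4, h5⟩ := (RingHom.isStandardSmoothOfRelativeDimension_respectsIso.2 _
    (Scheme.ΓSpecIso (.of ℂ)).commRingCatIsoToRingEquiv.symm h3).exists_etale_mvPolynomial
  exact ⟨V, h1, h2, _, RingHom.Etale.respectsIso.2 _
    (MvPolynomial.uniqueAlgEquiv ℂ (Fin 1)).symm.toRingEquiv h5, fun c =>
      (congrArg g ((MvPolynomial.uniqueAlgEquiv ℂ (Fin 1)).symm.commutes c)).trans congr($h4 c)⟩

theorem exists_dict_of_curve (h : IsCurve s) : ∃ (K : Type) (_ : Field K) (_ : Algebra ℂ K)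
    (_ : Algebra (RatFunc ℂ) K) (_ : IsScalarTower ℂ (RatFunc ℂ) K)
    (_ : FiniteDimensional (RatFunc ℂ) K), Nonempty (Dict s K) := by
  choose V h1 h2 g h3 h4 using exists_chart h
  have := h.irred
  have (x : C) : _root_.IsReduced (C.presheaf.stalk x) := by
    let := (g x).toAlgebra
    have : Algebra.Etale ℂ[X] Γ(C, V x) := h3 x
    have := etale_reduced Γ(C, V x)
    let := C.presheaf.algebra_section_stalk (U := V x) ⟨x, h2 x⟩
    exact @isReduced_localizationPreserves _ _ _ _ _ _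
      ((h1 x).isLocalization_stalk ⟨x, h2 x⟩) ‹_›
  have := isReduced_of_isReduced_stalk C
  have := isIntegral_of_irreducibleSpace_of_isReduced C
  have := isProper_of_isProjective h.proj
  let K : Type := C.functionField
  let γ : Spec (.of K) ⟶ C := C.fromSpecStalk (genericPoint C)
  let := (Spec.preimage (γ ≫ s)).hom.toAlgebra
  have h5 : γ ≫ s = Spec.map (CommRingCat.ofHom (algebraMap ℂ K)) := (Spec.map_preimage _).symm
  have h6 : ∀ x, genericPoint C ∈ V x := fun x => genericPoint_mem ⟨x, h2 x⟩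
  have h7 := fun x => (h1 x).fromSpecStalk_eq_fromSpecStalk (h6 x)
  have h8 := fun x => top_le_preimage_of_eq γ (h1 x) _ (h7 x)
  have key : ∀ x, (∃ (_ : Algebra (RatFunc ℂ) K) (_ : IsScalarTower ℂ (RatFunc ℂ) K),
      FiniteDimensional (RatFunc ℂ) K) ∧ ∀ [IsFF K],
      Good {y : Place K | ∀ a, evalAt γ (V x) (h8 x) a ∈ y.O} ∧ Set.range (evalAt γ (V x) (h8 x)) =
        chartRing {y : Place K | ∀ a, evalAt γ (V x) (h8 x) a ∈ y.O} := fun x => by
    let := (g x).toAlgebra
    have : Algebra.Etale ℂ[X] Γ(C, V x) := h3 x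
    let := ((g x).comp Polynomial.C).toAlgebra
    have : IsScalarTower ℂ ℂ[X] Γ(C, V x) := .of_algebraMap_eq' rfl
    have : Nonempty (V x) := ⟨⟨x, h2 x⟩⟩
    have := functionField_isFractionRing_of_isAffineOpen C _ (h1 x)
    have e := evalAt_eq_of_eq γ (h1 x) (h8 x) _ (h7 x)
    have : IsScalarTower ℂ Γ(C, V x) K := .of_algebraMap_eq fun c => by
      have h9 : (Scheme.ΓSpecIso (.of ℂ)).inv ≫ s.appLE ⊤ (V x) le_top ≫ evalAt γ (V x) (h8 x) =
          CommRingCat.ofHom (algebraMap ℂ K) := by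
        rw [appLE_evalAt γ s ⊤ _ le_top _ le_top, Iso.inv_comp_eq]
        unfold evalAt
        simp only [h5]
        rw [← Scheme.ΓSpecIso_naturality]
        congr 1
      exact congr($(e ▸ h9) c).symm.trans (congrArg _ (h4 x c).symm)
    rw [e]
    exact ⟨exists_ff Γ(C, V x) K, good_chart Γ(C, V x) K⟩
  obtain ⟨i₁, i₂, i₃⟩ := (key (genericPoint C)).1
  have : CompactSpace C := QuasiCompact.compactSpace_of_compactSpace s
  obtain ⟨t, -, ht⟩ := isCompact_univ.elim_nhds_subcover (fun x => (V x : Set C))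
    fun x _ => (V x).isOpen.mem_nhds (h2 x)
  have h9 : ∀ y, ∃ j : t, y ∈ V j := fun y => by simpa using ht (Set.mem_univ y)
  refine ⟨K, _, _, i₁, i₂, i₃, exists_dict (J := t) ⟨C, inferInstance, s, γ, h.proj, h5, ⟨?_⟩,
    fun j => V j, fun j => h1 j, h9, fun j => h8 j, fun j => (key j).2.2⟩ (fun j => (key j).2.1)
    fun x => ?_⟩
  · exact Dense.mono (Set.singleton_subset_iff.2 ⟨_, Scheme.fromSpecStalk_closedPoint⟩)
      (dense_iff_closure_eq.2 (genericPoint_spec C))
  · obtain ⟨⟨φ, h10, -⟩⟩ := (UniversallyClosed.eq_valuativeCriterion.le _ _ s inferInstance).1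
      { R := x.O, K := K, i₁ := γ
        i₂ := Spec.map (CommRingCat.ofHom ((algebraMap ℂ K).codRestrict x.O.toSubring x.const))
        commSq := ⟨by rw [h5, ← Spec.map_comp]; rfl⟩ }
    obtain ⟨j, hj⟩ := h9 (φ (closedPoint _))
    exact ⟨j, fun a => let ⟨b, h11, _⟩ := lift_spec h10 hj (h8 j) a; h11 ▸ b.2⟩

end Pool.Agent.Lib.CQ88
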