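import Pool.Agent.Lib.CQ88.Main
import Pool.Agent.Lib.CQ88.Univ
import Pool.Agent.Lib.MP_cc3443_ag.Hyper

open AlgebraicGeometry CategoryTheory
open Pool.Agent.Lib.MP_cc3443_ag Pool.Agent.Lib.CL88

namespace Pool.Agent.Lib.CQ88

theorem exists_genus (g : ℕ) :
    ∃ (C : Scheme.{0}) (s : C ⟶ Spec (.of ℂ)), IsCurve s ∧ genus s = g := by
  obtain ⟨K, _, _, _, _, _, hg⟩ := exists_hasGenus g
  obtain ⟨C, s, h, ⟨D⟩⟩ := exists_curve K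
  exact ⟨C, s, h, by rw [D.genus_eq, hg.chiO_eq, sub_sub_cancel]⟩

theorem rank_curve {g : ℕ} (h1 : 1 ≤ g) {C : Scheme.{0}} {s : C ⟶ Spec (.of ℂ)} (h : IsCurve s)
    (hg : genus s = g) : IsSub s (sph s) ∧ ∀ d : ℤ, Module.rank ℂ (sphLie s (2, d)) + 1 = g := by
  obtain ⟨K, _, _, _, _, _, ⟨D⟩⟩ := exists_dict_of_curve h
  refine ⟨sph_eq D ▸ isSub_gen D, rank_of_dict D ((eventually_hO (K := K)).mono fun n e => ?_) h1⟩
  rw [e, ← hg, D.genus_eq, dlt]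
  ring

end Pool.Agent.Lib.CQ88
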