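import Pool.Agent.Lib.CQ88.Cls
import Pool.Agent.Lib.CQ88.Chart

open AlgebraicGeometry CategoryTheory TopologicalSpace Opposite Limits
open Pool.Agent.Lib.MP_cc3443_ag Pool.Agent.Lib.CL88 Pool.Agent.Lib.CC61

noncomputable section

namespace Pool.Agent.Lib.CQ88

variable {K : Type} [Field K] [Algebra ℂ K] {C : Scheme.{0}} {s : C ⟶ Spec (.of ℂ)}
  {D : Dict s K} {n : ℕ}
  [Algebra (RatFunc ℂ) K] [IsScalarTower ℂ (RatFunc ℂ) K] [FiniteDimensional (RatFunc ℂ) K]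
  {L M : C.Modules} {E F G : Lat K n} {U V : C.Opens} {A : Place K →₀ ℤ} {x : Place K}
  {w w' : Fin n → K}

lemma tw_mem {v : Fin 1 → K} (hv : v ∈ (line 1 A).S x) (hw : w ∈ (G.twist (-A)).S x) :
    v 0 • w ∈ G.S x := by
  simpa [smul_smul, mul_comm _ (v 0), x.unif_ne_zero, zpow_ne_zero] using
    Lat.smul_mem (x.zpow_mul_mem_iff.2 (mem_line_one.1 hv)) (Lat.mem_twist.1 hw)

lemma mem_sec0 : w ∈ MP_cc3443_ag.sec G 0 ↔ ∀ x, w ∈ G.S x := by simp [mem_sec]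

namespace QRep

variable (P : QRep D L (line (1 : Fin 1 → K) A) ⊥) (Q : QRep D M E F)

/-- On `V`, the map `φ` is multiplication by `w`. -/
def HR (V : C.Opens) (w : Fin n → K) (φ : L ⟶ M) : Prop :=
  ∀ W ≤ V, ∀ v t, (v, t) ∈ P.R W → (v 0 • w, φ.app W t) ∈ Q.R W

lemma triv (h : D.η ∉ U) (t : Γ(M, U)) : (w, t) ∈ Q.R U :=
  Q.loc fun _ hx => absurd (D.gen hx) h

lemma gen_at (hU : D.pt x ∈ U) :
    ∃ V ≤ U, D.pt x ∈ V ∧ ∃ t, (fun _ => x.unif ^ (-A) x, t) ∈ P.R V := by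
  obtain ⟨V, h1, h2, h3⟩ := D.exists_sec (E := line 1 A) (w := fun _ => x.unif ^ (-A) x)
    (mem_line_one.2 ((x.val_unif_zpow _).trans (by simp)).le) hU
  exact ⟨V, h1, h2, P.ex h3⟩

lemma exists_HR (hw : w ∈ MP_cc3443_ag.sec (E.twist (-A)) 0) : ∃ φ, P.HR Q ⊤ w φ :=
  (P.hom Q ((LinearMap.proj 0 : (Fin 1 → K) →ₗ[K] K).smulRight w)
    (fun x _ hv => tw_mem hv (mem_sec0.1 hw x)) fun x v hv => by
      simp [show v = 0 from (Lat.bot_S x).le hv]).imp fun _ h W _ => h W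

lemma HR_loc (φ : L ⟶ M) (x : Place K) : ∃ V, D.pt x ∈ V ∧ ∃ b, P.HR Q V b φ := by
  obtain ⟨V₀, -, h1, t₀, h2⟩ := P.gen_at (U := ⊤) (x := x) trivial
  have h0 : x.unif ^ (-A) x ≠ 0 := zpow_ne_zero _ x.unif_ne_zero
  obtain ⟨V₁, h3, h4, h5⟩ := D.shrink (T := {y | y.ord (x.unif ^ (-A) x) ≠ (-A) y})
    ((((Place.finite_ord (x.unif ^ (-A) x)).union (-A).hasFiniteSupport)).subset fun y hy =>
      by_contra fun h => hy (by
        simp only [Set.mem_union, Set.mem_ofPred_eq, Function.mem_support, not_or, not_not] at h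
        rw [h.1, h.2])) (by simp [Place.ord_zpow]) h1
  obtain ⟨V, i, a, h6, h7⟩ := Q.surj (φ.app V₁ (L.presheaf.map (homOfLE h3).op t₀)) h4
  refine ⟨V, h6, (x.unif ^ (-A) x)⁻¹ • a, fun W j v t h8 => ?_⟩
  by_cases h : D.η ∈ W
  swap
  · exact Q.triv h _
  obtain ⟨c, hc⟩ := (D.ev_range W h (v 0 * (x.unif ^ (-A) x)⁻¹)).2 fun y hy => by
    rw [y.mem_iff, map_mul, map_inv₀, y.val_eq h0, not_not.1 (h5 y (i.le (j hy))),
      mul_inv_le_iff₀ (by simp), one_mul]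
    simpa using mem_line_one.1 (P.mem h8 y hy)
  have h9 := P.smul h c (P.res (homOfLE (j.trans (i.le.trans h3))) h2)
  rw [show D.ev W h c • (fun _ => x.unif ^ (-A) x) = v from funext fun k => by
    rw [hc, Subsingleton.elim k 0]
    exact inv_mul_cancel_right₀ h0 _] at h9
  rw [P.uniq h8 h9, Scheme.Modules.Hom.app_smul, smul_smul, ← hc, ← res_res L (homOfLE h3)
    (homOfLE j ≫ i), app_res, ← res_res M i (homOfLE j)]
  exact Q.smul h c (Q.res _ h7)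

variable {P Q} {φ ψ : L ⟶ M}

lemma HR.mem (h : P.HR Q V w φ) (hx : D.pt x ∈ V) : w ∈ (E.twist (-A)).S x :=
  let ⟨W, h1, h2, t, h3⟩ := P.gen_at hx
  Lat.mem_twist.2 (Q.mem (h W h1 _ t h3) x h2)

lemma HR.diff (h : P.HR Q V w φ) (h' : P.HR Q U w' φ) (hx : D.pt x ∈ V) (hx' : D.pt x ∈ U) :
    w - w' ∈ (F.twist (-A)).S x :=
  let ⟨W, h1, h2, t, h3⟩ := P.gen_at (U := V ⊓ U) ⟨hx, hx'⟩
  Lat.mem_twist.2 (smul_sub (x.unif ^ (-A) x) w w' ▸ Q.diff (h W (h1.trans inf_le_left) _ t h3)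
    (h' W (h1.trans inf_le_right) _ t h3) x h2)

lemma HR.uniq (h : P.HR Q ⊤ w φ) (h' : P.HR Q ⊤ w ψ) : φ = ψ :=
  P.hom_ext fun U v t e => Q.uniq (h U le_top v t e) (h' U le_top v t e)

lemma HR.factors {N : Subobject M} {P' : QRep D N G F} (h : P.HR Q ⊤ w φ)
    (h' : ∀ U w t, (w, t) ∈ P'.R U → (w, N.arrow.app U t) ∈ Q.R U) :
    w ∈ MP_cc3443_ag.sec (G.twist (-A)) 0 ↔ N.Factors φ := by
  rw [Subobject.factors_iff]
  refine ⟨fun hw => ?_, fun ⟨ψ, e⟩ => mem_sec0.2 fun x => ?_⟩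
  · obtain ⟨ψ, e⟩ := P.exists_HR P' hw
    exact ⟨ψ, HR.uniq (fun W i v t k => h' W _ _ (e W i v t k)) h⟩
  · obtain ⟨W, h1, h2, t, h3⟩ := P.gen_at (U := ⊤) (x := x) trivial
    exact Lat.mem_twist.2 ((range h' (h W h1 _ t h3)).1 ⟨ψ.app W t, congr(($e).app W t)⟩ x h2)

variable (P Q) (hF : Reg (F.twist (-A)) 0)
include hF

lemma HR_surj (φ : L ⟶ M) : ∃ w, P.HR Q ⊤ w φ := by
  choose V h1 b h2 using P.HR_loc Q φ
  obtain ⟨x₀⟩ : Nonempty (Place K) := inferInstance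
  obtain ⟨w, hw⟩ := Reg.adelic hF (fun x => b x - b x₀) (fun x =>
    let ⟨_, h3, h4⟩ := D.exists_pt (U := V x ⊓ V x₀) ⟨D.gen (h1 x), D.gen (h1 x₀)⟩
    Lat.mem_gen ((h2 x).diff (h2 x₀) h3 h4)) ((D.cof (D.gen (h1 x₀))).subset
      fun x h h' => h ((h2 x).diff (h2 x₀) (h1 x) h'))
  refine ⟨w + b x₀, fun W _ v t h => Q.loc fun x hx => ?_⟩
  obtain ⟨V', h3, h4, h5⟩ := D.exists_sec (U := W ⊓ V x) (hw x) ⟨hx, h1 x⟩
  have h6 := P.res (homOfLE (h3.trans inf_le_left)) h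
  refine ⟨V', homOfLE (h3.trans inf_le_left), h4, ?_⟩
  convert add_mem (h2 x V' (h3.trans inf_le_right) _ _ h6)
    (Q.zero fun y hy => tw_mem (P.mem h6 y hy) (h5 y hy)) using 1
  exact Prod.ext (by simp only [Prod.fst_add, ← smul_add]; congr 1; abel)
    ((app_res ..).symm.trans (add_zero _).symm)

lemma exists_sigma : ∃ σ : HomC s L M →ₗ[ℂ] Fin n → K, ∀ φ, P.HR Q ⊤ (σ φ) φ := by
  let Γ : Submodule ℂ ((Fin n → K) × HomC s L M) :=
    { carrier := {p | P.HR Q ⊤ p.1 p.2}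
      add_mem' := fun {a b} ha hb W i v t h =>
        (congrArg (fun w => (w, _) ∈ Q.R W) (smul_add (v 0) a.1 b.1)).mpr
          (add_mem (ha W i v t h) (hb W i v t h))
      zero_mem' := fun W _ v t _ =>
        (congrArg (fun w => (w, _) ∈ Q.R W) (smul_zero (v 0))).mpr (zero_mem _)
      smul_mem' := fun c a ha W i v t h => (em (D.η ∈ W)).elim (fun e =>
        (congrArg (fun w => (w, _) ∈ Q.R W) (by
          rw [D.ev_cst, algebraMap_smul]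
          exact smul_comm ..)).mpr (Q.smul e (cst s c W) (ha W i v t h))) (Q.triv · _) }
  obtain ⟨g, hg⟩ := (LinearMap.snd ℂ _ _ ∘ₗ Γ.subtype).exists_rightInverse_of_surjective
    (LinearMap.range_eq_top.2 fun φ =>
      let ⟨w, hw⟩ := P.HR_surj Q hF φ
      ⟨⟨(w, φ), hw⟩, rfl⟩)
  exact ⟨LinearMap.fst ℂ _ _ ∘ₗ Γ.subtype ∘ₗ g, fun φ =>
    (congrArg (P.HR Q ⊤ _) (LinearMap.congr_fun hg φ)).mp (g φ).2⟩

end QRep

variable (D) in
/-- A function on sheaves and a function on pairs of lattices agree. -/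
def Corr (f : Fn C) (f' : MP_cc3443_ag.Fn K) : Prop :=
  (∀ M, ¬ IsCoh M → f M = 0) ∧ ∀ M n (E F : Lat K n), QRep D M E F → f M = f' n E F

variable {μ ν : ℕ × ℤ} {f g : Fn C} {f' g' : MP_cc3443_ag.Fn K}

theorem hallAt_eq (hf : Sph μ f') (hg : Sph ν g') (cf : Corr D f f') (cg : Corr D g g')
    (Q : QRep D M E F) :
    ∃ b, ∀ L, IsBundle L 1 → deg s L 1 ≤ b → hallAt s f g L M = hall f' g' n E F := by
  obtain ⟨b, hb⟩ := exists_reg_twist E (chiL F + ν.2 + ν.1 * chiO K)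
  obtain ⟨b', hb'⟩ := exists_reg_twist F (chiL F)
  refine ⟨min b b', fun L hL h => ?_⟩
  obtain ⟨A, ⟨P⟩, hA⟩ := D.line_rep hL
  rw [hA, le_min_iff] at h
  obtain ⟨σ, hσ⟩ := P.exists_sigma Q (hb' A h.2 F le_rfl rfl)
  have h1 : Function.Injective σ := fun φ ψ e => (hσ φ).uniq (e ▸ hσ ψ)
  have : Module.Finite ℂ (HomC s L M) := .of_injective (σ.codRestrict
    (MP_cc3443_ag.sec (E.twist (-A)) 0) fun φ => mem_sec0.2 fun x => (hσ φ).mem trivial)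
    fun φ ψ e => h1 (congrArg Subtype.val e)
  have h2 : ∀ w ∈ MP_cc3443_ag.sec (E.twist (-A)) 0,
      ∃ φ, w - σ φ ∈ MP_cc3443_ag.sec (F.twist (-A)) 0 := fun w hw =>
    (P.exists_HR Q hw).imp fun φ e => mem_sec0.2 fun x => e.diff (hσ φ) trivial trivial
  have h3 := fun G (e : QR E (rk F + ν.1) _ G) => hb A h.1 G e.1 e.2.2
  have h4 : ∀ {N : Subobject M} {G} (P' : QRep D N G F), G ≤ E →
      (∀ U w t, (w, t) ∈ P'.R U → (w, N.arrow.app U t) ∈ Q.R U) →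
      (∀ S, (∀ φ : HomC s L M, φ ∈ S ↔ N.Factors φ) ↔ S = subW σ A G) ∧
        f (cokernel N.arrow) * g N = f' n E G * g' n G F := fun P' e e' =>
    ⟨fun S => (forall_congr' fun φ => iff_congr .rfl ((hσ φ).factors e').symm).trans
      (SetLike.ext_iff (q := subW σ A _)).symm, by rw [cf.2 _ _ _ _ (QRep.coker e' e), cg.2 _ _ _ _ P']⟩
  have h5 : ∀ {S} {N : Subobject M}, ind (∀ φ : HomC s L M, φ ∈ S ↔ N.Factors φ) *
      (f (cokernel N.arrow) * g N) ≠ 0 → ∃ G, (F ≤ G ∧ QR E (rk F + ν.1)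
        (chiL F + ν.2 + ν.1 * chiO K) G ∧ S = subW σ A G) ∧ ∃ P' : QRep D N G F,
          ∀ U w t, (w, t) ∈ P'.R U → (w, N.arrow.app U t) ∈ Q.R U := fun {S N} e => by
    obtain ⟨G, h5, h6, P', h7⟩ := Q.sub N.arrow (by_contra fun e' =>
      right_ne_zero_of_mul (right_ne_zero_of_mul e) (cg.1 _ e'))
    exact ⟨G, ⟨h5, qr_of_ne_zero hf hg ((h4 P' h6 h7).2 ▸ right_ne_zero_of_mul e),
      ((h4 P' h6 h7).1 S).1 (of_ind_ne_zero (left_ne_zero_of_mul e))⟩, P', h7⟩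
  rw [hall_eq hf hg]
  refine chiGr_eq h2 h1 h3 (dfun_hall_aux hf hf.bdd hg.bdd E F) (fun G e =>
    ⟨(hasClass_iff.1 (hg.supp (right_ne_zero_of_mul e))).1, qr_of_ne_zero hf hg e⟩)
    (fun G h6 h7 => ?_) fun S e => ?_
  · obtain ⟨N, P', h8⟩ := Q.exists_subobject h6 h7.1
    refine (finsum_eq_single _ N fun N' e => by_contra fun e' => e ?_).trans ?_
    · obtain ⟨G', ⟨h9, h10, h11⟩, P'', h12⟩ := h5 e'
      exact le_antisymm (QRep.subobject_le h12 h8 (le_of_subW h2 h9 h10.1 h6 (h3 _ h10) h11.ge))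
        (QRep.subobject_le h8 h12 (le_of_subW h2 h6 h7.1 h9 (h3 _ h7) h11.le))
    · rw [(h4 P' h7.1 h8).2]
      exact (congrArg (· * _) (ind_true (((h4 P' h7.1 h8).1 _).2 rfl))).trans (one_mul _)
  · obtain ⟨N, e'⟩ := not_forall.1 fun h => e (finsum_eq_zero_of_forall_eq_zero h)
    exact (h5 e').imp fun _ h => h.1

variable (D) in
include D in
lemma lim_uniq {a a' : ℂ} {u : C.Modules → ℂ}
    (h : ∃ b, ∀ L, IsBundle L 1 → deg s L 1 ≤ b → u L = a)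
    (h' : ∃ b, ∀ L, IsBundle L 1 → deg s L 1 ≤ b → u L = a') : a = a' := by
  obtain ⟨b, h⟩ := h
  obtain ⟨b', h'⟩ := h'
  obtain ⟨L, h1, h2⟩ := D.exists_line (min b b')
  exact (h L h1 (h2.trans_le (min_le_left ..))).symm.trans (h' L h1 (h2.trans_le (min_le_right ..)))

theorem corr_hall (hf : Sph μ f') (hg : Sph ν g') (cf : Corr D f f') (cg : Corr D g g') :
    ∃ p, IsHall s f g p ∧ Corr D p (hall f' g') := by
  have h (M : C.Modules) : ∃ a : ℂ, (¬ IsCoh M → a = 0) ∧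
      (IsCoh M → ∃ b, ∀ L, IsBundle L 1 → deg s L 1 ≤ b → hallAt s f g L M = a) := by
    by_cases h : IsCoh M
    · obtain ⟨n, E, F, ⟨Q⟩⟩ := D.exists_qrep h
      exact ⟨_, fun e => absurd h e, fun _ => hallAt_eq hf hg cf cg Q⟩
    · exact ⟨0, fun _ => rfl, fun e => absurd e h⟩
  choose p hp using h
  exact ⟨p, hp, fun M => (hp M).1, fun M n E F Q =>
    lim_uniq D ((hp M).2 Q.isCoh) (hallAt_eq hf hg cf cg Q)⟩

variable (D) in
include D in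
lemma IsHall.uniq {p q : Fn C} (h : IsHall s f g p) (h' : IsHall s f g q) : p = q :=
  funext fun M => (em (IsCoh M)).elim (fun e => lim_uniq D ((h M).2 e) ((h' M).2 e))
    fun e => ((h M).1 e).trans ((h' M).1 e).symm

end Pool.Agent.Lib.CQ88
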