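import Pool.Agent.Lib.CQ88.Hall
import Pool.Agent.Lib.CQ88.Cop

open AlgebraicGeometry CategoryTheory Limits
open Pool.Agent.Lib.MP_cc3443_ag Pool.Agent.Lib.CL88 Pool.Agent.Lib.CC61

noncomputable section

namespace Pool.Agent.Lib.CQ88

variable {K : Type} [Field K] [Algebra ℂ K] {C : Scheme.{0}} {s : C ⟶ Spec (.of ℂ)}
  {D : Dict s K} [Algebra (RatFunc ℂ) K] [IsScalarTower ℂ (RatFunc ℂ) K]
  [FiniteDimensional (RatFunc ℂ) K] {ν : ℕ × ℤ} {f g : Fn C} {f' g' : MP_cc3443_ag.Fn K}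

lemma Corr.uniq (h : Corr D f f') (h' : Corr D g f') : f = g := funext fun M => by
  by_cases e : IsCoh M
  · obtain ⟨n, E, F, ⟨Q⟩⟩ := D.exists_qrep e
    exact (h.2 _ _ _ _ Q).trans (h'.2 _ _ _ _ Q).symm
  · exact (h.1 M e).trans (h'.1 M e).symm

variable (D)

lemma corr_tors (d : ℕ) : Corr D (torsFn s d) (MP_cc3443_ag.torsFn d) :=
  ⟨fun _ h => ind_false fun e => h e.1, fun _ _ _ _ Q => ind_congr Q.hasClass_iff⟩

lemma corr_line (l : ℤ) : Corr D (lineFn s l) (MP_cc3443_ag.lineFn l) :=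
  ⟨fun _ h => ind_false fun e => h (D.isCoh e.1), fun _ _ _ _ Q => ind_congr Q.line_iff⟩

lemma corr_zero : Corr D 0 0 := ⟨fun _ _ => rfl, fun _ _ _ _ _ => rfl⟩

variable {D} in
lemma Corr.add (h : Corr D f f') (h' : Corr D g g') : Corr D (f + g) (f' + g') :=
  ⟨fun M e => congr($(h.1 M e) + $(h'.1 M e)).trans (add_zero _),
    fun _ _ _ _ Q => congr($(h.2 _ _ _ _ Q) + $(h'.2 _ _ _ _ Q))⟩

variable {D} in
lemma Corr.smul (h : Corr D f f') (c : ℂ) : Corr D (c • f) (c • f') :=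
  ⟨fun M e => congr(c * $(h.1 M e)).trans (mul_zero _), fun _ _ _ _ Q => congr(c * $(h.2 _ _ _ _ Q))⟩

lemma exists_corr (h : Sph ν f') : ∃ f, Corr D f f' ∧ ∀ H, IsSub s H → f ∈ H ν := by
  induction h with
  | tors d => exact ⟨_, corr_tors D d, fun _ h => h.tors d⟩
  | line l => exact ⟨_, corr_line D l, fun _ h => h.line l⟩
  | zero => exact ⟨_, corr_zero D, fun _ _ => zero_mem _⟩
  | add _ _ a b =>
    obtain ⟨f, h1, h2⟩ := a
    obtain ⟨g, h3, h4⟩ := b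
    exact ⟨_, h1.add h3, fun H h => add_mem (h2 H h) (h4 H h)⟩
  | smul c _ a =>
    obtain ⟨f, h1, h2⟩ := a
    exact ⟨_, h1.smul c, fun H h => (H _).smul_mem c (h2 H h)⟩
  | mul hf hg a b =>
    obtain ⟨f, h1, h2⟩ := a
    obtain ⟨g, h3, h4⟩ := b
    obtain ⟨p, h5, h6⟩ := corr_hall hf hg h1 h3
    exact ⟨p, h6, fun H h =>
      let ⟨_, h7, h8⟩ := h.mul _ _ f (h2 H h) g (h4 H h)
      h8.uniq D h5 ▸ h7⟩

/-- The functions that come from the lattice model. -/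
def gen (ν : ℕ × ℤ) : Submodule ℂ (Fn C) where
  carrier := {f | ∃ f', Sph ν f' ∧ Corr D f f'}
  add_mem' := fun ⟨_, a, b⟩ ⟨_, c, d⟩ => ⟨_, a.add c, b.add d⟩
  zero_mem' := ⟨_, .zero ν, corr_zero D⟩
  smul_mem' := fun c _ ⟨_, a, b⟩ => ⟨_, a.smul c, b.smul c⟩

lemma isSub_gen : IsSub s (gen D) := by
  refine ⟨fun d => ⟨_, .tors d, corr_tors D d⟩, fun l => ⟨_, .line l, corr_line D l⟩,
    fun μ ν f ⟨f', h1, h2⟩ g ⟨g', h3, h4⟩ => ?_, fun ν f ⟨f', h1, h2⟩ => ?_⟩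
  · obtain ⟨p, h5, h6⟩ := corr_hall h1 h3 h2 h4
    exact ⟨p, ⟨_, h1.mul h3, h6⟩, h5⟩
  · obtain ⟨κ, _, μ₁, μ₂, f₁, f₂, h3, h4⟩ := sph_cop h1
    choose g₁ h5 _ using fun k => exists_corr D (h3 k).1
    choose g₂ h6 _ using fun k => exists_corr D (h3 k).2.1
    let e := (Fintype.equivFin κ).symm
    refine ⟨_, μ₁ ∘ e, μ₂ ∘ e, g₁ ∘ e, g₂ ∘ e, fun k =>
      ⟨⟨_, (h3 _).1, h5 _⟩, ⟨_, (h3 _).2.1, h6 _⟩, (h3 _).2.2⟩, fun M N hM hN => ?_⟩
    obtain ⟨n, E, F, ⟨Q⟩⟩ := D.exists_qrep hM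
    obtain ⟨n', E', F', ⟨Q'⟩⟩ := D.exists_qrep hN
    rw [h2.2 _ _ _ _ (Q.biprod Q'), h4 _ _ _ _ _ _ Q.le Q'.le, ← e.sum_comp]
    exact Finset.sum_congr rfl fun k _ => congr($((h5 _).2 _ _ _ _ Q) * $((h6 _).2 _ _ _ _ Q')).symm

lemma sph_eq : sph s = gen D := funext fun ν =>
  le_antisymm (iInf₂_le _ (isSub_gen D)) (le_iInf₂ fun H h _ ⟨_, h1, h2⟩ =>
    let ⟨_, h3, h4⟩ := exists_corr D h1
    h3.uniq h2 ▸ h4 H h)

variable {D} in
lemma Corr.prim (h : Corr D f f') (h' : Sph ν f') : Prim f ↔ MP_cc3443_ag.Prim f' := by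
  have h1 : ∀ {M N n n'} {E F : Lat K n} {E' F' : Lat K n'}, QRep D M E F → QRep D N E' F' →
      (f (M ⊞ N) = f M * ind (IsZero N) + ind (IsZero M) * f N ↔
        f' _ (oplus E E') (oplus F F') = f' n E F * MP_cc3443_ag.ind (E' = F') +
          MP_cc3443_ag.ind (E = F) * f' n' E' F') := fun Q Q' => by
    rw [h.2 _ _ _ _ (Q.biprod Q'), h.2 _ _ _ _ Q, h.2 _ _ _ _ Q', Q.isZero_iff, Q'.isZero_iff]
    rfl
  rw [prim_iff h']
  refine ⟨fun hp n n' E F E' F' e e' => ?_, fun hp M N hM hN => ?_⟩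
  · obtain ⟨M, ⟨Q⟩⟩ := D.exists_q e
    obtain ⟨N, ⟨Q'⟩⟩ := D.exists_q e'
    exact (h1 Q Q').1 (hp M N Q.isCoh Q'.isCoh)
  · obtain ⟨n, E, F, ⟨Q⟩⟩ := D.exists_qrep hM
    obtain ⟨n', E', F', ⟨Q'⟩⟩ := D.exists_qrep hN
    exact (h1 Q Q').2 (hp _ _ _ _ _ _ Q.le Q'.le)

include D in
open Classical in
theorem rank_eq (ν : ℕ × ℤ) : Module.rank ℂ (sphLie s ν) =
    Cardinal.lift.{1} (Module.rank ℂ (MP_cc3443_ag.sphLie K ν)) := by
  choose n E F hQ using fun M (h : IsCoh M) => D.exists_qrep h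
  let T : MP_cc3443_ag.Fn K →ₗ[ℂ] Fn C :=
    { toFun f M := if h : IsCoh M then f _ (E M h) (F M h) else 0
      map_add' f g := funext fun M => by by_cases h : IsCoh M <;> simp [h]
      map_smul' c f := funext fun M => by by_cases h : IsCoh M <;> simp [h] }
  have h1 : ∀ {f'}, Sph ν f' → Corr D (T f') f' := fun {f'} h => by
    obtain ⟨f, h1, -⟩ := exists_corr D h
    refine (funext fun M => ?_ : f = T f') ▸ h1
    by_cases e : IsCoh M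
    · exact (h1.2 _ _ _ _ (hQ M e).some).trans (by simp [T, e])
    · exact (h1.1 M e).trans (by simp [T, e])
  have h2 : sphLie s ν = (MP_cc3443_ag.sphLie K ν).map T := by
    rw [MP_cc3443_ag.sphLie, Submodule.map_span, sphLie, sph_eq D]
    congr 1
    ext f
    refine ⟨fun ⟨⟨f', a, b⟩, c⟩ => ⟨f', ⟨a, (b.prim a).1 c⟩, (h1 a).uniq b⟩, ?_⟩
    rintro ⟨f', ⟨a, b⟩, rfl⟩
    exact ⟨⟨f', a, h1 a⟩, ((h1 a).prim a).2 b⟩
  have h3 : Function.Injective (T.domRestrict (MP_cc3443_ag.sphLie K ν)) :=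
    (injective_iff_map_eq_zero _).2 fun f e => Subtype.ext (funext fun n => funext₂ fun E F => by
      have h4 : Sph ν f.1 := Submodule.span_induction (fun _ h => h.1) (.zero ν)
        (fun _ _ _ _ => .add) (fun c _ _ => .smul c) f.2
      by_contra h5
      obtain ⟨M, ⟨Q⟩⟩ := D.exists_q ((sph_nice h4).le h5)
      exact h5 (((h1 h4).2 _ _ _ _ Q).symm.trans (congrFun e M)))
  rw [h2, ← LinearMap.range_domRestrict, ← lift_rank_range_of_injective _ h3, Cardinal.lift_uzero]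

include D in
theorem rank_of_dict {g : ℕ} (hg : HasGenus K g) (h1 : 1 ≤ g) (d : ℤ) :
    Module.rank ℂ (sphLie s (2, d)) + 1 = g := by
  simpa [rank_eq D] using congrArg Cardinal.lift.{1} (rank_sphLie hg h1 d)

end Pool.Agent.Lib.CQ88
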