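import Pool.Agent.Lib.CQ88.Rep
import Pool.Agent.Lib.CQ88.Defs
import Pool.Agent.Lib.CC61.GKit2

open AlgebraicGeometry CategoryTheory TopologicalSpace Opposite Limits
open Pool.Agent.Lib.MP_cc3443_ag Pool.Agent.Lib.CL88 Pool.Agent.Lib.CC61

noncomputable section

namespace Pool.Agent.Lib.CQ88

variable {K : Type} [Field K] [Algebra ℂ K] {C : Scheme.{0}} {s : C ⟶ Spec (.of ℂ)}
  (D : Dict s K) {n n' : ℕ}

/-- Sections of a lattice over an open set. -/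
def Dict.sec (E : Lat K n) (U : C.Opens) : AddSubgroup (Fin n → K) where
  carrier := {w | ∀ x, D.pt x ∈ U → w ∈ E.S x}
  add_mem' := fun ha hb x h => add_mem (ha x h) (hb x h)
  zero_mem' := fun _ _ => zero_mem _
  neg_mem' := fun ha x h => neg_mem (ha x h)

lemma Dict.ev_mem {U : C.Opens} {x : Place K} (hx : D.pt x ∈ U) (h) (c : Γ(C, U)) :
    D.ev U h c ∈ x.O := (D.ev_range U h _).1 ⟨c, rfl⟩ x hx

include D in
lemma Dict.isOpen (W : Opens C) (x : C) (S : Set C) (hx : x ∈ W) (h : (W : Set C) ⊆ S) :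
    IsOpen S := by
  obtain ⟨U, -, h2⟩ := D.exists_open (T := {y | D.pt y ∉ S})
    ((D.cof (D.gen hx)).subset fun y hy h' => hy (h h'))
  rw [show S = (W : Set C) ∪ U from Set.ext fun y => ?_]
  · exact W.isOpen.union U.isOpen
  obtain rfl | ⟨z, rfl⟩ := D.cases y
  · exact iff_of_true (h (D.gen hx)) (.inl (D.gen hx))
  · exact ⟨fun h' => .inr ((h2 z).2 (not_not.2 h')), fun h' => h'.elim (@h _)
      fun h' => not_not.1 ((h2 z).1 h')⟩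

/-- The sheaf `M` is the quotient of the lattice `E` by the lattice `F`. -/
structure QRep (M : C.Modules) (E F : Lat K n) where
  R : ∀ U : C.Opens, AddSubgroup ((Fin n → K) × Γ(M, U))
  le : ∀ x, F.S x ≤ E.S x
  mem : ∀ {U w t}, (w, t) ∈ R U → w ∈ D.sec E U
  ex : ∀ {U w}, w ∈ D.sec E U → ∃ t, (w, t) ∈ R U
  smul : ∀ {U w t} h (c : Γ(C, U)), (w, t) ∈ R U → (D.ev U h c • w, c • t) ∈ R U
  res : ∀ {U V w t} (i : V ⟶ U), (w, t) ∈ R U → (w, M.presheaf.map i.op t) ∈ R V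
  ker : ∀ {U w t}, (w, t) ∈ R U → (t = 0 ↔ w ∈ D.sec F U)
  surj : ∀ {U} (t : Γ(M, U)) {x}, D.pt x ∈ U →
    ∃ (V : C.Opens) (i : V ⟶ U) (w : Fin n → K), D.pt x ∈ V ∧ (w, M.presheaf.map i.op t) ∈ R V

variable [Algebra (RatFunc ℂ) K] [IsScalarTower ℂ (RatFunc ℂ) K] [FiniteDimensional (RatFunc ℂ) K]
  {L M M' : C.Modules} {E F G : Lat K n} {E' F' : Lat K n'} {U V : C.Opens}

namespace Dict

lemma ext (M : C.Modules) {a b : Γ(M, U)} (h : ∀ x, D.pt x ∈ U → ∃ (V : C.Opens) (i : V ⟶ U),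
    D.pt x ∈ V ∧ M.presheaf.map i.op a = M.presheaf.map i.op b) : a = b :=
  ab_ext (abSheaf M) fun y hy => by
    obtain ⟨x, h1, h2⟩ := D.near hy
    obtain ⟨V, i, h3, h4⟩ := h x h1
    exact ⟨V, i, h2 V h3, h4⟩

lemma glue (M : C.Modules) (U : C.Opens) (P : ∀ V : C.Opens, Γ(M, V) → Prop)
    (res : ∀ {V W : C.Opens} (i : W ⟶ V) a, P V a → P W (M.presheaf.map i.op a))
    (uniq : ∀ V a b, P V a → P V b → a = b)
    (ex : ∀ x, D.pt x ∈ U → ∃ V, D.pt x ∈ V ∧ V ≤ U ∧ ∃ a, P V a) :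
    ∃ t : Γ(M, U), ∀ V (i : V ⟶ U) a, P V a → M.presheaf.map i.op t = a :=
  ab_glue (abSheaf M) U P res uniq fun y hy => by
    obtain ⟨x, h1, h2⟩ := D.near hy
    obtain ⟨V, h3, h4⟩ := ex x h1
    exact ⟨V, h2 V h3, h4⟩

lemma inter {ι : Type} [Finite ι] {y : C} (V : ι → C.Opens) (h : ∀ k, y ∈ V k) (hU : y ∈ U) :
    ∃ W ≤ U, y ∈ W ∧ ∀ k, W ≤ V k :=
  ⟨U ⊓ ⟨⋂ k, V k, isOpen_iInter_of_finite fun k => (V k).isOpen⟩, inf_le_left,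
    ⟨hU, Set.mem_iInter.2 h⟩, fun k _ hy => Set.mem_iInter.1 hy.2 k⟩

lemma exists_pt (h : D.η ∈ U) : ∃ x, D.pt x ∈ U := (D.near h).imp fun _ h => h.1

lemma shrink {T : Set (Place K)} (hT : T.Finite) {x : Place K} (hx : x ∉ T) (hU : D.pt x ∈ U) :
    ∃ V ≤ U, D.pt x ∈ V ∧ ∀ y, D.pt y ∈ V → y ∉ T :=
  let ⟨V, _, h⟩ := D.exists_open hT
  ⟨U ⊓ V, inf_le_left, ⟨hU, (h x).2 hx⟩, fun y hy => (h y).1 hy.2⟩

lemma exists_sec {x : Place K} {w : Fin n → K} (hw : w ∈ E.S x) (hU : D.pt x ∈ U) :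
    ∃ V ≤ U, D.pt x ∈ V ∧ w ∈ D.sec E V := by
  obtain ⟨V, h1, h2, h3⟩ := D.shrink (T := {y | w ∉ E.S y}) ((E.std_S.and
    (Filter.eventually_all.2 fun i => eventually_mem (w i))).mono fun _ h =>
      (h.1 w).2 ⟨Lat.mem_gen hw, h.2⟩) (not_not.2 hw) hU
  exact ⟨V, h1, h2, fun y hy => not_not.1 (h3 y hy)⟩

lemma coef {ι : Type} [Finite ι] {x : Place K} {c : ι → K} (hc : ∀ k, c k ∈ x.O)
    (hU : D.pt x ∈ U) : ∃ V ≤ U, ∃ (h : D.pt x ∈ V) (a : ι → Γ(C, V)),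
      ∀ k, D.ev V (D.gen h) (a k) = c k := by
  obtain ⟨V, h1, h2, h3⟩ := D.shrink (Set.finite_iUnion fun k => finite_poles (c k))
    (by simpa using hc) hU
  exact ⟨V, h1, h2, Classical.skolem.1 fun k => (D.ev_range _ _ _).2 fun y hy =>
    not_not.1 fun h => h3 y hy (Set.mem_iUnion.2 ⟨k, h⟩)⟩

lemma exists_lat (S : Place K → (Fin n → K) → Prop) (h : ∀ x, ∃ U : C.Opens, D.pt x ∈ U ∧
    ∃ G : Lat K n, ∀ y, D.pt y ∈ U → ∀ w, S y w ↔ w ∈ G.S y) :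
    ∃ G : Lat K n, ∀ y w, w ∈ G.S y ↔ S y w := by
  choose U hU G hG using h
  obtain ⟨x₀⟩ : Nonempty (Place K) := inferInstance
  refine ⟨(G x₀).modify (fun x => (G x).S x) (fun x => (G x).fg_S x) (fun x => ?_)
    ((D.cof (D.gen (hU x₀))).subset fun x hx h => hx (Submodule.ext fun w =>
      (hG x x (hU x) w).symm.trans (hG x₀ x h w))), fun y w =>
      (SetLike.ext_iff.1 (Lat.mk'_S _ _ _ _ _ y) w).trans (hG y y (hU y) w).symm⟩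
  obtain ⟨y, h1, h2⟩ := D.exists_pt (U := U x ⊓ U x₀) ⟨D.gen (hU x), D.gen (hU x₀)⟩
  rw [Lat.span_S, ← (G x).span_S y, ← (G x₀).span_S y]
  exact congrArg _ (Set.ext fun w => (hG x y h1 w).symm.trans (hG x₀ y h2 w))

lemma exists_hom (B : ∀ U : C.Opens, Γ(M, U) → Γ(M', U) → Prop)
    (res : ∀ {U V : C.Opens} (i : V ⟶ U) a b, B U a b →
      B V (M.presheaf.map i.op a) (M'.presheaf.map i.op b))
    (add : ∀ U a b a' b', B U a b → B U a' b' → B U (a + a') (b + b'))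
    (smul : ∀ U a b (c : Γ(C, U)), D.η ∈ U → B U a b → B U (c • a) (c • b))
    (uniq : ∀ U a b b', B U a b → B U a b' → b = b')
    (ex : ∀ U (a : Γ(M, U)) x, D.pt x ∈ U → ∃ (V : C.Opens) (i : V ⟶ U) (b : Γ(M', V)),
      D.pt x ∈ V ∧ B V (M.presheaf.map i.op a) b) :
    ∃ φ : M ⟶ M', ∀ U a b, B U a b → φ.app U a = b := by
  have h1 (U : C.Opens) (a : Γ(M, U)) : ∃ b : Γ(M', U), ∀ V (i : V ⟶ U) b',
      B V (M.presheaf.map i.op a) b' → M'.presheaf.map i.op b = b' := by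
    obtain ⟨b, hb⟩ := D.glue M' U (fun V b => ∃ i : V ⟶ U, B V (M.presheaf.map i.op a) b)
      (fun j b ⟨i, h⟩ => ⟨j ≫ i, res_res M i j _ a ▸ res j _ _ h⟩)
      (fun V b b' ⟨i, h⟩ ⟨j, h'⟩ => uniq V _ _ _ h (Subsingleton.elim j i ▸ h')) fun x hx =>
        let ⟨V, i, b, h, h'⟩ := ex U a x hx
        ⟨V, h, i.le, b, i, h'⟩
    exact ⟨b, fun V i b' h => hb V i b' ⟨i, h⟩⟩
  choose f hf using h1
  have h2 : ∀ U (a : Γ(M, U)) x, D.pt x ∈ U → ∃ (V : C.Opens) (i : V ⟶ U), D.pt x ∈ V ∧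
      ∀ W (j : W ⟶ V), B W (M.presheaf.map (j ≫ i).op a)
        (M'.presheaf.map (j ≫ i).op (f U a)) := fun U a x hx => by
    obtain ⟨V, i, b, h, h'⟩ := ex U a x hx
    exact ⟨V, i, h, fun W j => by
      rw [← res_res M i j, ← res_res M' i j, hf U a V i b h']
      exact res j _ _ h'⟩
  have h3 (U : C.Opens) (a a' : Γ(M, U)) : f U (a + a') = f U a + f U a' := D.ext M' fun x hx => by
    obtain ⟨V, i, h, e⟩ := h2 U a x hx
    obtain ⟨V', i', h', e'⟩ := h2 U a' x hx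
    refine ⟨V ⊓ V', Opens.infLELeft _ _ ≫ i, ⟨h, h'⟩, hf _ _ _ _ _ ?_⟩
    rw [map_add, map_add]
    exact add _ _ _ _ _ (e _ _) (e' _ (Opens.infLERight _ _))
  let φ : M.presheaf ⟶ M'.presheaf :=
    ⟨fun U => AddCommGrpCat.ofHom (.mk' (f U.unop) (h3 _)), fun U W k => by
      ext a
      refine D.ext M' fun x hx => ?_
      obtain ⟨V, i, h, e⟩ := h2 _ a x (k.unop.le hx)
      refine ⟨V ⊓ W.unop, Opens.infLERight _ _, ⟨h, hx⟩, hf _ _ _ _ _ ?_⟩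
      exact (res_res M k.unop _ _ a).symm ▸ (res_res M' k.unop _ _ _).symm ▸
        e _ (Opens.infLELeft _ _)⟩
  refine ⟨⟨PresheafOfModules.homMk φ fun U c a => D.ext M' fun x hx => ?_⟩, fun U a b h => ?_⟩
  · obtain ⟨V, i, h, e⟩ := h2 _ a x hx
    refine ⟨V, 𝟙 _ ≫ i, h, hf _ _ _ _ _ ?_⟩
    exact (M.map_smul _ c a).symm ▸ (M'.map_smul _ c _).symm ▸ smul _ _ _ _ (D.gen h) (e _ _)
  · exact D.ext M' fun x hx => ⟨U, 𝟙 _, hx, hf _ _ _ _ _ (res _ _ _ h)⟩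

end Dict

namespace QRep

variable {D} (Q : QRep D M E F) (Q' : QRep D M' E' F') {w : Fin n → K}

omit [Algebra (RatFunc ℂ) K] [IsScalarTower ℂ (RatFunc ℂ) K] [FiniteDimensional (RatFunc ℂ) K] in
lemma uniq {t t' : Γ(M, U)} (h : (w, t) ∈ Q.R U) (h' : (w, t') ∈ Q.R U) : t = t' :=
  sub_eq_zero.1 ((Q.ker (w := w - w) (sub_mem h h')).2 ((sub_self w).symm ▸ zero_mem _))

omit [Algebra (RatFunc ℂ) K] [IsScalarTower ℂ (RatFunc ℂ) K] [FiniteDimensional (RatFunc ℂ) K] in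
lemma diff {w' : Fin n → K} {t : Γ(M, U)} (h : (w, t) ∈ Q.R U) (h' : (w', t) ∈ Q.R U) :
    w - w' ∈ D.sec F U := (Q.ker (sub_mem h h')).1 (sub_self t)

omit [Algebra (RatFunc ℂ) K] [IsScalarTower ℂ (RatFunc ℂ) K] [FiniteDimensional (RatFunc ℂ) K] in
lemma zero (h : w ∈ D.sec F U) : (w, (0 : Γ(M, U))) ∈ Q.R U := by
  obtain ⟨t, ht⟩ := Q.ex (U := U) fun x hx => Q.le x (h x hx)
  exact (Q.ker ht).2 h ▸ ht

omit [Algebra (RatFunc ℂ) K] [IsScalarTower ℂ (RatFunc ℂ) K] [FiniteDimensional (RatFunc ℂ) K] in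
lemma comb {ι : Type} [Fintype ι] {u : ι → Fin n → K} {e : ι → Γ(M, U)}
    (h : ∀ k, (u k, e k) ∈ Q.R U) (i : V ⟶ U) (hV) (a : ι → Γ(C, V)) :
    (∑ k, D.ev V hV (a k) • u k, ∑ k, a k • M.presheaf.map i.op (e k)) ∈ Q.R V := by
  rw [prod_mk_sum]
  exact sum_mem fun k _ => Q.smul hV (a k) (Q.res i (h k))

lemma loc {t : Γ(M, U)} (h : ∀ x, D.pt x ∈ U → ∃ (V : C.Opens) (i : V ⟶ U),
    D.pt x ∈ V ∧ (w, M.presheaf.map i.op t) ∈ Q.R V) : (w, t) ∈ Q.R U := by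
  obtain ⟨t', ht⟩ := Q.ex (U := U) (w := w) fun x hx =>
    let ⟨_, _, h1, h2⟩ := h x hx
    Q.mem h2 x h1
  rw [D.ext M fun x hx => (h x hx).imp fun V => Exists.imp fun i h =>
    ⟨h.1, Q.uniq h.2 (Q.res i ht)⟩]
  exact ht

theorem hom (p : (Fin n → K) →ₗ[K] (Fin n' → K)) (hE : ∀ x, ∀ w ∈ E.S x, p w ∈ E'.S x)
    (hF : ∀ x, ∀ w ∈ F.S x, p w ∈ F'.S x) :
    ∃ φ : M ⟶ M', ∀ U w t, (w, t) ∈ Q.R U → (p w, φ.app U t) ∈ Q'.R U := by
  obtain ⟨φ, hφ⟩ := D.exists_hom (fun U t t' => ∃ w, (w, t) ∈ Q.R U ∧ (p w, t') ∈ Q'.R U)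
    (fun i a b ⟨w, h, h'⟩ => ⟨w, Q.res i h, Q'.res i h'⟩)
    (fun U a b a' b' ⟨w, h, h'⟩ ⟨v, k, k'⟩ => ⟨w + v, add_mem h k, map_add p w v ▸ add_mem h' k'⟩)
    (fun U a b c hU ⟨w, h, h'⟩ => ⟨_, Q.smul hU c h, map_smul p _ w ▸ Q'.smul hU c h'⟩)
    (fun U a b b' ⟨w, h, h'⟩ ⟨v, k, k'⟩ => sub_eq_zero.1 ((Q'.ker (w := p w - p v) (sub_mem h' k')).2
      fun x hx => map_sub p w v ▸ hF x _ (Q.diff h k x hx)))
    fun U a x hx => by
      obtain ⟨V, i, w, h1, h2⟩ := Q.surj a hx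
      obtain ⟨b, hb⟩ := Q'.ex (U := V) fun y hy => hE y w (Q.mem h2 y hy)
      exact ⟨V, i, b, h1, w, h2, hb⟩
  refine ⟨φ, fun U w t h => ?_⟩
  obtain ⟨b, hb⟩ := Q'.ex (U := U) fun y hy => hE y w (Q.mem h y hy)
  exact (hφ U t b ⟨w, h, hb⟩).symm ▸ hb

lemma hom_ext {φ ψ : M ⟶ M'} (h : ∀ U w t, (w, t) ∈ Q.R U → φ.app U t = ψ.app U t) : φ = ψ :=
  Scheme.Modules.hom_ext _ _ fun U => by
    ext t
    refine D.ext M' fun x hx => ?_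
    obtain ⟨V, i, w, h1, h2⟩ := Q.surj t hx
    exact ⟨V, i, h1, by rw [← app_res, ← app_res, h V w _ h2]⟩

/-- The image of a quotient under a locally surjective map. -/
def push (ψ : M ⟶ M') (hG : G ≤ E)
    (h1 : ∀ U w t, (w, t) ∈ Q.R U → (ψ.app U t = 0 ↔ w ∈ D.sec G U))
    (h2 : ∀ U (t : Γ(M', U)), ∀ y ∈ U, ∃ (V : C.Opens) (i : V ⟶ U) (b : Γ(M, V)),
      y ∈ V ∧ ψ.app V b = M'.presheaf.map i.op t) : QRep D M' E G where
  R U := (Q.R U).map ((AddMonoidHom.id _).prodMap (ψ.app U).hom)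
  le := hG
  mem := by
    rintro U _ _ ⟨⟨w, t⟩, h, ⟨⟩⟩
    exact Q.mem h
  ex h := let ⟨t, ht⟩ := Q.ex h; ⟨_, _, ht, rfl⟩
  smul := by
    rintro U _ _ hU c ⟨⟨w, t⟩, h, ⟨⟩⟩
    exact ⟨_, Q.smul hU c h, Prod.ext rfl (ψ.app_smul c t)⟩
  res := by
    rintro U V _ _ i ⟨⟨w, t⟩, h, ⟨⟩⟩
    exact ⟨_, Q.res i h, Prod.ext rfl (app_res ψ i t)⟩
  ker := by
    rintro U _ _ ⟨⟨w, t⟩, h, ⟨⟩⟩
    exact h1 U w t h
  surj t x hx := by
    obtain ⟨V, i, b, h3, h4⟩ := h2 _ t _ hx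
    obtain ⟨W, j, w, h5, h6⟩ := Q.surj b h3
    exact ⟨W, j ≫ i, w, h5, _, h6, Prod.ext rfl
      ((app_res ψ j b).trans ((congrArg _ h4).trans (res_res M' i j _ t)))⟩

lemma surj_fin {ι : Type} [Finite ι] (t : ι → Γ(M, U)) {x : Place K} (hx : D.pt x ∈ U) :
    ∃ (V : C.Opens) (i : V ⟶ U) (u : ι → Fin n → K), D.pt x ∈ V ∧
      ∀ k, (u k, M.presheaf.map i.op (t k)) ∈ Q.R V := by
  choose V i u h1 h2 using fun k => Q.surj (t k) hx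
  obtain ⟨W, h3, h4, h5⟩ := Dict.inter V h1 hx
  exact ⟨W, homOfLE h3, u, h4, fun k => res_res M (i k) (homOfLE (h5 k)) _ _ ▸ Q.res _ (h2 k)⟩

theorem sub (φ : L ⟶ M) [Mono φ] (hL : IsCoh L) : ∃ G, F ≤ G ∧ G ≤ E ∧ ∃ Q' : QRep D L G F,
    ∀ U w t, (w, t) ∈ Q'.R U → (w, φ.app U t) ∈ Q.R U := by
  obtain ⟨G, hG⟩ := D.exists_lat (fun x w => ∃ V, D.pt x ∈ V ∧ ∃ t, (w, φ.app V t) ∈ Q.R V)
    fun x => by
      obtain ⟨U, h1, m, l, e, ρ, h2⟩ := hL (D.pt x)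
      obtain ⟨V, i, u, h3, h4⟩ := Q.surj_fin (fun k => φ.app U (e k)) h1
      have h5 : ∀ {W} (j : W ⟶ V) hW (a : Fin m → Γ(C, W)), (∑ k, D.ev W hW (a k) • u k,
          φ.app W (∑ k, a k • L.presheaf.map (j ≫ i).op (e k))) ∈ Q.R W := fun j hW a => by
        simpa only [map_sum, Scheme.Modules.Hom.app_smul, app_res, res_res M i j (j ≫ i)]
          using Q.comb h4 j hW a
      refine ⟨V, h3, lsup F (Lat.free u), fun y hy w => ?_⟩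
      rw [mem_lsup, Lat.free_S, Submodule.mem_sup]
      refine ⟨fun ⟨W, h6, t, h7⟩ => ?_, ?_⟩
      · obtain ⟨W', j, a, h8, h9⟩ := (h2 (W ⊓ V) (Opens.infLERight _ _ ≫ i)).1
          (L.presheaf.map (Opens.infLELeft _ _).op t) _ ⟨h6, hy⟩
        have h10 := Q.res j (Q.res (Opens.infLELeft W V) h7)
        rw [← app_res, ← app_res, h9] at h10
        exact ⟨_, Q.diff h10 (h5 (j ≫ Opens.infLERight _ _) (D.gen h8) a) y h8, _,
          mem_span_O.2 ⟨_, fun k => D.ev_mem h8 _ (a k), rfl⟩, sub_add_cancel _ _⟩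
      · rintro ⟨f, h6, v, h7, rfl⟩
        obtain ⟨c, h8, rfl⟩ := mem_span_O.1 h7
        obtain ⟨W, h9, h10, h11⟩ := D.exists_sec h6 hy
        obtain ⟨W', h12, h13, a, h14⟩ := D.coef h8 h10
        have h15 := add_mem (Q.zero fun z hz => h11 z (h12 hz))
          (h5 (homOfLE (h12.trans h9)) (D.gen h13) a)
        simp only [Prod.mk_add_mk, zero_add, h14] at h15
        exact ⟨W', h13, _, h15⟩
  have hF : F ≤ G := fun x w hw => by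
    obtain ⟨V, -, h1, h2⟩ := D.exists_sec (U := ⊤) hw trivial
    exact (hG x w).2 ⟨V, h1, 0, (map_zero (φ.app V).hom).symm ▸ Q.zero h2⟩
  refine ⟨G, hF, fun x w hw => ?_, ⟨fun U => (Q.R U).comap
    ((AddMonoidHom.id _).prodMap (φ.app U).hom), hF, fun h x hx => (hG x _).2 ⟨_, hx, _, h⟩,
    fun {U w} h => ?_, fun {U w t} hU c h => ?_, fun {U V w t} i h => ?_, fun {U w t} h => ?_,
    fun {U} t x hx => ?_⟩, fun _ _ _ h => h⟩
  · obtain ⟨V, h1, t, h2⟩ := (hG x w).1 hw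
    exact Q.mem h2 x h1
  · have r : ∀ {V W : C.Opens} (i : W ⟶ V) a, (w, φ.app V a) ∈ Q.R V →
        (w, φ.app W (L.presheaf.map i.op a)) ∈ Q.R W := fun i a h => app_res φ i a ▸ Q.res i h
    have e : ∀ x, D.pt x ∈ U → ∃ V, D.pt x ∈ V ∧ V ≤ U ∧ ∃ a, (w, φ.app V a) ∈ Q.R V :=
      fun x hx =>
        let ⟨V, h1, t, h2⟩ := (hG x w).1 (h x hx)
        ⟨V ⊓ U, ⟨h1, hx⟩, inf_le_right, _, r (Opens.infLELeft _ _) t h2⟩
    obtain ⟨t, ht⟩ := D.glue L U _ r (fun V a b h h' => inj_of_mono φ V (Q.uniq h h')) e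
    refine ⟨t, Q.loc fun x hx => ?_⟩
    obtain ⟨V, h1, h2, a, h3⟩ := e x hx
    exact ⟨V, homOfLE h2, h1, app_res φ _ t ▸ (ht V _ a h3).symm ▸ h3⟩
  · exact (congrArg (fun b => (_, b) ∈ Q.R U) (φ.app_smul c t)).mpr (Q.smul hU c h)
  · exact (congrArg (fun b => (_, b) ∈ Q.R V) (app_res φ i t)).mpr (Q.res i h)
  · exact (map_eq_zero_iff _ (inj_of_mono φ U)).symm.trans (Q.ker h)
  · obtain ⟨V, i, w, h1, h2⟩ := Q.surj (φ.app U t) hx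
    exact ⟨V, i, w, h1, (congrArg (fun b => (_, b) ∈ Q.R V) (app_res φ i t)).mpr h2⟩

variable {Q} {P : QRep D L G F} {φ : L ⟶ M}
  (h : ∀ U w t, (w, t) ∈ P.R U → (w, φ.app U t) ∈ Q.R U)
include h

lemma mono : Mono φ := mono_of_inj fun U => (injective_iff_map_eq_zero _).2 fun t ht =>
  D.ext L fun x hx => by
    obtain ⟨V, i, w, h1, h2⟩ := P.surj t hx
    refine ⟨V, i, h1, ((P.ker h2).2 ((Q.ker (h V w _ h2)).1 ?_)).trans (map_zero _).symm⟩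
    rw [app_res, ht, map_zero]

lemma range {b : Γ(M, U)} (hb : (w, b) ∈ Q.R U) : (∃ a, φ.app U a = b) ↔ w ∈ D.sec G U := by
  refine ⟨?_, fun hw => ?_⟩
  · rintro ⟨a, rfl⟩ x hx
    obtain ⟨V, i, v, h1, h2⟩ := P.surj a hx
    have h3 := Q.diff (Q.res i hb) (app_res φ i a ▸ h V v _ h2) x h1
    exact sub_add_cancel w v ▸ add_mem (P.le x h3) (P.mem h2 x h1)
  · obtain ⟨a, ha⟩ := P.ex hw
    exact ⟨a, Q.uniq (h U w a ha) hb⟩

/-- The cokernel of the inclusion of a subquotient. -/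
def coker (hG : G ≤ E) : QRep D (cokernel φ) E G :=
  haveI := mono h
  Q.push (cokernel.π φ) hG (fun U _ t ht => ((se_coker φ).ex (op U) t).trans (range h ht))
    (se_coker φ).surj

end QRep

/-- A lattice is its quotient by zero. -/
def Rep.toQ {D : Dict s K} (R : Rep D M E) : QRep D M E ⊥ where
  R U :=
    { carrier := {p | ∀ h, R.ι U h p.2 = p.1}
      add_mem' := fun ha hb h => (map_add _ _ _).trans congr($(ha h) + $(hb h))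
      zero_mem' := fun _ => map_zero _
      neg_mem' := fun ha h => (map_neg _ _).trans congr(-$(ha h)) }
  le := (bot_le : ⊥ ≤ E)
  mem h x hx := (R.range _ (D.gen hx) _).1 ⟨_, h _⟩ x hx
  ex {U w} h := (em (D.η ∈ U)).elim (fun h' => ((R.range U h' w).2 h).imp fun _ e _ => e)
    fun h' => ⟨0, fun h => absurd h h'⟩
  smul hU c h _ := (R.smul _ hU c _).trans (congrArg _ (h hU))
  res i h h' := (R.res i (i.le h') h' _).trans (h _)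
  ker {U w t} h := ⟨fun e x hx => (Lat.bot_S x).ge
    ((h (D.gen hx)).symm.trans ((congrArg _ e).trans (map_zero _))), fun e => R.ext fun h' =>
      let ⟨x, hx⟩ := D.exists_pt h'
      (h h').trans (((Lat.bot_S x).le (e x hx)).trans (map_zero _).symm)⟩
  surj {U} t x hx := ⟨U, 𝟙 _, R.ι U (D.gen hx) t, hx, fun h => R.res _ h h t⟩

theorem Dict.exists_q (h : F ≤ E) : ∃ M, Nonempty (QRep D M E F) := by
  obtain ⟨M, ⟨R⟩⟩ := D.exists_rep E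
  obtain ⟨L, ⟨R'⟩⟩ := D.exists_rep F
  obtain ⟨φ, hφ⟩ := R'.toQ.hom R.toQ .id h fun _ _ h => h
  exact ⟨_, ⟨QRep.coker hφ h⟩⟩

end Pool.Agent.Lib.CQ88
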