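import Pool.Agent.Lib.CQ88.Curve
import Pool.Agent.Lib.CQ88.Ex

open AlgebraicGeometry CategoryTheory TopologicalSpace Opposite
open Pool.Agent.Lib.MP_cc3443_ag Pool.Agent.Lib.CL88

noncomputable section

namespace Pool.Agent.Lib.CQ88

variable {K : Type} [Field K] [Algebra ℂ K] {C : Scheme.{0}} {s : C ⟶ Spec (.of ℂ)}
  (D : Dict s K) {r : ℕ}

/-- The sheaf `E` is the subsheaf of the constant sheaf given by the lattice `V`. -/
structure Rep (E : C.Modules) (V : Lat K r) where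
  ι : ∀ U : C.Opens, D.η ∈ U → (Γ(E, U) →+ (Fin r → K))
  res : ∀ {U W : C.Opens} (i : W ⟶ U) hU hW a, ι W hW (E.presheaf.map i.op a) = ι U hU a
  inj : ∀ U h, Function.Injective (ι U h)
  smul : ∀ U h (c : Γ(C, U)) a, ι U h (c • a) = D.ev U h c • ι U h a
  range : ∀ U h w, (∃ a, ι U h a = w) ↔ ∀ x, D.pt x ∈ U → w ∈ V.S x

lemma res_res (E : C.Modules) {U V W : C.Opens} (i : V ⟶ U) (j : W ⟶ V) (k : W ⟶ U) (a : Γ(E, U)) :
    E.presheaf.map j.op (E.presheaf.map i.op a) = E.presheaf.map k.op a :=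
  congr($(E.presheaf.map_comp i.op j.op) a).symm

namespace Dict

lemma sub (E : C.Modules) {U : C.Opens} (h : D.η ∉ U) (a b : Γ(E, U)) : a = b :=
  E.isSheaf.section_ext (U := op U) fun _ hx => absurd (D.gen hx) h

lemma exists_open {T : Set (Place K)} (hT : T.Finite) :
    ∃ U : C.Opens, D.η ∈ U ∧ ∀ x, D.pt x ∈ U ↔ x ∉ T :=
  ⟨⟨(⋃ x ∈ T, {D.pt x})ᶜ, (hT.isClosed_biUnion fun x _ => D.closed x).isOpen_compl⟩,
    by simpa using fun x _ => (D.ne x).symm, fun x => by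
      simpa [D.inj.eq_iff] using ⟨fun h hx => h x hx rfl, fun h y hy e => h (e ▸ hy)⟩⟩

/-- Constant functions with values in given subgroups. -/
def const (A : Place K → AddSubgroup (Fin r → K)) : Loc fun _ : C => Fin r → K where
  P U :=
    { carrier := {f | (∀ y y', f y = f y') ∧ ∀ x h, f ⟨D.pt x, h⟩ ∈ A x}
      add_mem' := fun hf hg => ⟨fun y y' => congr($(hf.1 y y') + $(hg.1 y y')),
        fun x h => add_mem (hf.2 x h) (hg.2 x h)⟩
      zero_mem' := ⟨fun _ _ => rfl, fun _ _ => zero_mem _⟩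
      neg_mem' := fun hf => ⟨fun y y' => congr(-$(hf.1 y y')), fun x h => neg_mem (hf.2 x h)⟩ }
  res _ _ h := ⟨fun _ _ => h.1 _ _, fun x _ => h.2 x _⟩
  loc f h := by
    refine ⟨fun y y' => ?_, fun x hx => ?_⟩
    · obtain ⟨V, h1, i, h2⟩ := h y
      obtain ⟨V', h3, i', h4⟩ := h y'
      exact (h2.1 ⟨y, h1⟩ ⟨_, D.gen h1⟩).trans (h4.1 ⟨_, D.gen h3⟩ ⟨y', h3⟩)
    · obtain ⟨V, h1, i, h2⟩ := h ⟨_, hx⟩
      exact h2.2 x h1

theorem exists_rep (V : Lat K r) : ∃ E, Nonempty (Rep D E V) := by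
  let L := D.const fun x => (V.S x).toAddSubgroup
  let _ (U : C.Opensᵒᵖ) : SMul (C.ringCatSheaf.obj.obj U) (L.pre.obj U) :=
    ⟨fun a f => ⟨fun y => D.ev U.unop (D.gen y.2) a • f.1 y,
      fun y y' => congr(_ • $(f.2.1 y y')), fun x h =>
        Lat.smul_mem ((D.ev_range _ _ _).1 ⟨a, rfl⟩ x h) (f.2.2 x h)⟩⟩
  let _ (U : C.Opensᵒᵖ) : Module (C.ringCatSheaf.obj.obj U) (L.pre.obj U) := .ofMinimalAxioms
    (fun a f g => Subtype.ext (funext fun y => smul_add _ _ _))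
    (fun a b f => Subtype.ext (funext fun y =>
      (congrArg (· • f.1 y) (map_add (D.ev U.unop (D.gen y.2)) a b)).trans (add_smul _ _ _)))
    (fun a b f => Subtype.ext (funext fun y =>
      (congrArg (· • f.1 y) (map_mul (D.ev U.unop (D.gen y.2)) a b)).trans (mul_smul _ _ _)))
    fun f => Subtype.ext (funext fun y =>
      (congrArg (· • f.1 y) (map_one (D.ev U.unop (D.gen y.2)))).trans (one_smul _ _))
  exact ⟨⟨PresheafOfModules.ofPresheaf L.pre fun U W i a f => Subtype.ext (funext fun y =>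
    congrArg (· • _) (D.ev_res i.unop (D.gen (i.unop.le y.2)) (D.gen y.2) a).symm), L.sh.2⟩,
    ⟨fun U h => ⟨⟨fun f => f.1 ⟨_, h⟩, rfl⟩, fun _ _ => rfl⟩, fun _ _ _ _ => rfl,
      fun U h f g e => Subtype.ext (funext fun y => (f.2.1 _ _).trans (e.trans (g.2.1 _ _))),
      fun _ _ _ _ => rfl, fun U h w => ⟨fun ⟨f, e⟩ x hx => ((f.2.1 ⟨_, hx⟩ _).trans e) ▸ f.2.2 x hx,
        fun hw => ⟨⟨fun _ => w, fun _ _ => rfl, hw⟩, rfl⟩⟩⟩⟩

variable [Algebra (RatFunc ℂ) K] [IsScalarTower ℂ (RatFunc ℂ) K] [FiniteDimensional (RatFunc ℂ) K]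

lemma near {U : C.Opens} {y : C} (hy : y ∈ U) :
    ∃ x, D.pt x ∈ U ∧ ∀ V : C.Opens, D.pt x ∈ V → y ∈ V := by
  obtain rfl | ⟨x, rfl⟩ := D.cases y
  · obtain ⟨x, hx⟩ := (D.cof hy).exists_notMem
    exact ⟨x, not_not.1 hx, fun V hV => D.gen hV⟩
  · exact ⟨x, hy, fun _ => id⟩

lemma real (w : Fin r → K) : ∃ U : C.Opens, D.η ∈ U ∧ (∀ x, (∀ j, w j ∈ x.O) → D.pt x ∈ U) ∧
    ∀ W ≤ U, ∀ h, ∃ c : Fin r → Γ(C, W), ∀ j, D.ev W h (c j) = w j := by
  obtain ⟨U, h1, h2⟩ := D.exists_open (Set.finite_iUnion fun j => finite_poles (w j))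
  simp only [Set.mem_iUnion, not_exists, Set.mem_ofPred_eq, not_not] at h2
  exact ⟨U, h1, fun x => (h2 x).2, fun W hW h => Classical.skolem.1 fun j =>
    (D.ev_range W h _).2 fun x hx => (h2 x).1 (hW hx) j⟩

/-- The structure sheaf. -/
def repO : Rep D (strSheaf C) (line (1 : Fin 1 → K) 0) where
  ι U h := ⟨⟨fun a _ => D.ev U h a, funext fun _ => map_zero _⟩,
    fun a b => funext fun _ => map_add _ a b⟩
  res i hU hW a := funext fun _ => D.ev_res i hU hW a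
  inj U h _ _ e := D.ev_inj U h (congrFun e 0)
  smul U h c a := funext fun _ => map_mul (D.ev U h) c a
  range U h w := by
    refine (exists_congr fun a => ⟨fun e => congrFun e 0, fun e => funext fun i =>
      Subsingleton.elim 0 i ▸ e⟩).trans ((D.ev_range U h (w 0)).trans ?_)
    simp only [mem_line_one, Finsupp.coe_zero, Pi.zero_apply, WithZero.exp_zero, Place.mem_iff]

end Dict

namespace Rep

variable {D} {E L : C.Modules} {V : Lat K r} (R : Rep D E V)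

lemma ext {U : C.Opens} {a b : Γ(E, U)} (H : ∀ h, R.ι U h a = R.ι U h b) : a = b := by
  by_cases h : D.η ∈ U
  exacts [R.inj U h (H h), D.sub E h a b]

end Rep

variable {D} {E : C.Modules} {V : Lat K r}

variable (D V) in
/-- The stalks of a lattice at the points of the curve. -/
def Dict.st (y : C) : Submodule ℂ (Fin r → K) where
  carrier := {w | ∀ x, D.pt x = y → w ∈ V.S x}
  add_mem' := fun ha hb x h => add_mem (ha x h) (hb x h)
  zero_mem' := fun _ _ => zero_mem _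
  smul_mem' := fun c w hw x h => algebraMap_smul K c w ▸ Lat.smul_mem (x.const c) (hw x h)

lemma Dict.mk_zero {x : Place K} {w : Fin r → K} :
    (D.st V (D.pt x)).mkQ w = 0 ↔ w ∈ V.S x :=
  (Submodule.Quotient.mk_eq_zero _).trans ⟨fun h => h x rfl, fun h _ e => D.inj e ▸ h⟩

lemma Dict.mk_eq {x : Place K} {v w : Fin r → K} :
    (D.st V (D.pt x)).mkQ v = (D.st V (D.pt x)).mkQ w ↔ v - w ∈ V.S x :=
  (Submodule.Quotient.eq _).trans ⟨fun h => h x rfl, fun h _ e => D.inj e ▸ h⟩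

variable (D V) in
/-- The sheaf of principal parts. -/
def Dict.pp : Loc fun y : C => (Fin r → K) ⧸ D.st V y where
  P U :=
    { carrier := {f | {x | ∃ h, f ⟨D.pt x, h⟩ ≠ 0}.Finite}
      add_mem' := fun {f g} hf hg => (Set.Finite.union hf hg).subset fun x ⟨h, e⟩ => by
        by_contra h'
        simp only [Set.mem_union, Set.mem_ofPred_eq, not_or, not_exists, not_not] at h'
        exact e (by rw [Pi.add_apply, h'.1 h, h'.2 h, add_zero])
      zero_mem' := Set.finite_empty.subset fun _ ⟨_, e⟩ => e rfl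
      neg_mem' := fun hf => Set.Finite.subset hf fun _ ⟨h, e⟩ => ⟨h, neg_ne_zero.1 e⟩ }
  res i _ h := Set.Finite.subset h fun _ ⟨h', e⟩ => ⟨i.le h', e⟩
  loc {U} f h := by
    by_cases h0 : D.η ∈ U
    · obtain ⟨W, h1, i, h2⟩ := h ⟨_, h0⟩
      refine ((D.cof h1).union h2).subset fun x ⟨h3, e⟩ => ?_
      by_cases h4 : D.pt x ∈ W
      exacts [Or.inr ⟨h4, e⟩, Or.inl h4]
    · exact Set.finite_empty.subset fun _ ⟨h', _⟩ => h0 (D.gen h')

lemma Dict.pp_ext {U : C.Opens} {f g : (D.pp V).P U}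
    (h : ∀ x hx, f.1 ⟨D.pt x, hx⟩ = g.1 ⟨D.pt x, hx⟩) : f = g := by
  refine Subtype.ext (funext fun ⟨y, hy⟩ => ?_)
  obtain rfl | ⟨x, rfl⟩ := D.cases y
  · exact (Submodule.Quotient.subsingleton_iff.2
      (eq_top_iff.2 fun _ _ x e => absurd e (D.ne x))).elim _ _
  · exact h x hy

variable [Algebra (RatFunc ℂ) K] [IsScalarTower ℂ (RatFunc ℂ) K] [FiniteDimensional (RatFunc ℂ) K]

omit [Algebra (RatFunc ℂ) K] [IsScalarTower ℂ (RatFunc ℂ) K] [FiniteDimensional (RatFunc ℂ) K] in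
lemma Rep.smul_cst (R : Rep D E V) (U h) (c : ℂ) (a : Γ(E, U)) :
    R.ι U h (cst s c U • a) = c • R.ι U h a := by
  rw [R.smul, D.ev_cst, algebraMap_smul]

lemma finite_notMem (hV : V.gen = ⊤) (w : Fin r → K) : {x | w ∉ V.S x}.Finite :=
  (V.std_S.and (Filter.eventually_all.2 fun i => eventually_mem (w i))).mono fun _ h =>
    (h.1 w).2 ⟨hV ▸ trivial, h.2⟩

variable (R : Rep D E V)
include R

theorem Rep.h0 : Module.Finite ℂ (Coh s E 0) ∧ h s E 0 = hdim V 0 := by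
  obtain ⟨e, he⟩ := exists_h0 (abSheaf E)
  let Θ : Coh s E 0 →ₗ[ℂ] (Fin r → K) :=
    { toFun := fun x => R.ι ⊤ trivial (e x)
      map_add' := fun x y => (congrArg _ (map_add e x y)).trans (map_add _ _ _)
      map_smul' := fun c x => (congrArg _ (he (mulBy s E c) x)).trans (R.smul_cst _ _ c _) }
  have h1 : LinearMap.range Θ = sec V 0 := Submodule.ext fun w => by
    simp only [mem_sec, tw_zero, one_smul]
    exact (e.surjective.exists (p := fun a => R.ι ⊤ trivial a = w)).symm.trans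
      ((R.range ⊤ trivial w).trans ⟨fun h x => h x trivial, fun h x _ => h x⟩)
  have h2 : Function.Injective Θ := (R.inj ⊤ trivial).comp e.injective
  have : Module.Finite ℂ (LinearMap.range Θ) := h1 ▸ inferInstance
  exact ⟨.equiv (LinearEquiv.ofInjective Θ h2).symm, by
    rw [h, hdim, ← h1, LinearMap.finrank_range_of_inj h2]⟩

theorem Rep.h1 (hV : V.gen = ⊤) :
    Module.Finite ℂ (Coh s E 1) ∧ h s E 1 = hdim V 0 - chiL V := by
  classical
  let B := D.const fun _ => (⊤ : AddSubgroup (Fin r → K))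
  let k (U : C.Opens) (w : Fin r → K) : B.P U := ⟨fun _ => w, fun _ _ => rfl, fun _ _ => trivial⟩
  let f : abSheaf E ⟶ B.sh := ⟨⟨fun U => AddCommGrpCat.ofHom (.mk' (fun a : Γ(E, U.unop) =>
    (⟨fun y => R.ι _ (D.gen y.2) a, fun _ _ => rfl, fun _ _ => trivial⟩ : B.P U.unop))
      fun a b => Subtype.ext (funext fun y => map_add _ a b)), fun U W i => by
        ext a
        exact Subtype.ext (funext fun y => R.res i.unop _ _ a)⟩⟩
  let g : B.sh ⟶ (D.pp V).sh := Loc.hom _ _ (fun y => (D.st V y).mkQ.toAddMonoidHom) fun U t ht => by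
    by_cases h : D.η ∈ U
    · exact (finite_notMem hV (t ⟨_, h⟩)).subset fun x ⟨h1, e⟩ h2 =>
        e (Dict.mk_zero.2 (ht.1 ⟨_, h⟩ _ ▸ h2))
    · exact Set.finite_empty.subset fun _ ⟨h', _⟩ => h (D.gen h')
  have hS : SE f g := by
    refine ⟨fun U a b e => R.ext fun h => congr(($e).1 ⟨_, h⟩), fun U b => ⟨fun H => ?_, ?_⟩,
      fun U t y hy => ?_⟩
    · by_cases h : D.η ∈ U.unop
      · obtain ⟨a, ha⟩ := (R.range _ h (b.1 ⟨_, h⟩)).2 fun x hx =>
          b.2.1 ⟨_, hx⟩ _ ▸ Dict.mk_zero.1 congr(($H).1 ⟨_, hx⟩)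
        exact ⟨a, Subtype.ext (funext fun y => ha.trans (b.2.1 _ _))⟩
      · exact ⟨0, Subtype.ext (funext fun y => absurd (D.gen y.2) h)⟩
    · rintro ⟨a, rfl⟩
      exact Dict.pp_ext fun x hx => Dict.mk_zero.2 ((R.range _ _ _).1 ⟨a, rfl⟩ x hx)
    · obtain ⟨w, hw⟩ := (D.st V y).mkQ_surjective (t.1 ⟨y, hy⟩)
      obtain ⟨W, h1, h2⟩ := D.exists_open
        (T := {x | ∃ h, (D.st V (D.pt x)).mkQ w ≠ t.1 ⟨D.pt x, h⟩})
        (((finite_notMem hV w).union t.2).subset fun x ⟨h, e⟩ => by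
          by_contra h'
          simp only [Set.mem_union, Set.mem_ofPred_eq, not_or, not_exists, not_not] at h'
          exact e ((Dict.mk_zero.2 h'.1).trans (h'.2 h).symm))
      refine ⟨W ⊓ U, Opens.infLERight _ _, k _ w, ⟨?_, hy⟩,
        Dict.pp_ext fun x hx => not_not.1 fun e => (h2 x).1 hx.1 ⟨hx.2, e⟩⟩
      obtain rfl | ⟨x, rfl⟩ := D.cases y
      exacts [h1, (h2 x).2 fun ⟨_, e⟩ => e hw]
  obtain ⟨δ, h1, h2, h3⟩ := hS.delta fun U W i t => by
    by_cases h : D.η ∈ W.unop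
    · exact ⟨k _ (t.1 ⟨_, h⟩), Subtype.ext (funext fun y => t.2.1 _ _)⟩
    · exact ⟨0, Subtype.ext (funext fun y => absurd (D.gen y.2) h)⟩
  let q (w : Fin r → K) : (D.pp V).P ⊤ :=
    ⟨fun y => if ∃ x ∈ Ui K, D.pt x = y then (D.st V y).mkQ w else 0,
      (finite_notMem hV w).subset fun x ⟨_, e⟩ h => e (by
        beta_reduce
        split_ifs
        exacts [Dict.mk_zero.2 h, rfl])⟩
  have q0 : ∀ w, ∀ x ∈ U0 K, (q w).1 ⟨D.pt x, trivial⟩ = 0 := fun w x h =>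
    if_neg fun ⟨_, h1, h2⟩ => h1 (D.inj h2 ▸ h)
  have qi : ∀ w, ∀ x ∈ Ui K, (q w).1 ⟨D.pt x, trivial⟩ = (D.st V _).mkQ w := fun w x h =>
    if_pos ⟨x, h, rfl⟩
  have ext : ∀ {a b : (D.pp V).P ⊤},
      (∀ x ∈ U0 K, a.1 ⟨D.pt x, trivial⟩ = b.1 ⟨D.pt x, trivial⟩) →
      (∀ x ∈ Ui K, a.1 ⟨D.pt x, trivial⟩ = b.1 ⟨D.pt x, trivial⟩) → a = b := fun h h' =>
    Dict.pp_ext fun x _ => (em (x ∈ U0 K)).elim (h x) (h' x)
  let γ (c : ℂ) : (D.pp V).sh ⟶ (D.pp V).sh :=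
    Loc.hom _ _ (fun y => DistribSMul.toAddMonoidHom _ c) fun U t ht =>
      Set.Finite.subset ht fun x ⟨h, e⟩ => ⟨h, right_ne_zero_of_smul e⟩
  let Θ : (Fin r → K) →ₗ[ℂ] Coh s E 1 :=
    { toFun := fun w => δ (q w)
      map_add' := fun v w => (congrArg δ (ext
        (fun x h => (q0 _ x h).trans (by
          change _ = (q v).1 _ + (q w).1 _
          rw [q0 _ x h, q0 _ x h, add_zero]))
        fun x h => (qi _ x h).trans (by
          change _ = (q v).1 _ + (q w).1 _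
          rw [qi _ x h, qi _ x h, map_add]))).trans (map_add δ (q v) (q w))
      map_smul' := fun c w => (congrArg δ (ext
        (fun x h => (q0 _ x h).trans (by
          change _ = c • (q w).1 _
          rw [q0 _ x h, smul_zero]))
        fun x h => (qi _ x h).trans (by
          change _ = c • (q w).1 _
          rw [qi _ x h, map_smul]))).trans (h3 (mulBy s E c) (Loc.hom _ _
            (fun y => DistribSMul.toAddMonoidHom _ c) fun U t ht =>
              ⟨fun y y' => congrArg (c • ·) (ht.1 y y'), fun _ _ => trivial⟩) (γ c) (by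
            ext U a
            exact Subtype.ext (funext fun y => R.smul_cst _ _ c a)) rfl (q w)) }
  refine h1_dim hV Θ (fun y => ?_) fun w => (h2 _).trans ⟨fun ⟨b, hb⟩ => ?_, fun ⟨v, h4, h5⟩ => ?_⟩
  · obtain ⟨t, rfl⟩ := h1 y
    choose a ha using fun x => (D.st V (D.pt x)).mkQ_surjective (t.1 ⟨D.pt x, trivial⟩)
    have h4 : {x | a x ∉ V.S x}.Finite := Set.Finite.subset t.2 fun x hx =>
      ⟨trivial, fun e => hx (Dict.mk_zero.1 ((ha x).trans e))⟩
    obtain ⟨v, hv⟩ := approx_lat good_U0 a (fun _ => hV.ge trivial) h4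
    obtain ⟨w, hw⟩ := approx_lat good_Ui (fun x => a x - v) (fun _ => hV.ge trivial)
      ((h4.union (finite_notMem hV v)).subset fun x hx => by
        by_contra h
        simp only [Set.mem_union, Set.mem_ofPred_eq, not_or, not_not] at h
        exact hx (sub_mem h.1 h.2))
    refine ⟨w, ?_⟩
    let t' : (D.pp V).P ⊤ := g.hom.app _ (k ⊤ v)
    refine Eq.symm ((congrArg δ (ext (b := q w + t') (fun x h => ?_) fun x h => ?_)).trans
      ((map_add δ (q w) t').trans ((congrArg _ ((h2 _).2 ⟨_, rfl⟩)).trans (add_zero _))))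
    · change _ = (q w).1 _ + (D.st V _).mkQ v
      rw [q0 _ x h, zero_add, ← ha, eq_comm]
      exact Dict.mk_eq.2 (hv x h)
    · change _ = (q w).1 _ + (D.st V _).mkQ v
      rw [qi _ x h, ← map_add, ← ha, eq_comm]
      exact Dict.mk_eq.2 (by simpa [sub_sub_eq_add_sub] using hw x h)
  · have h4 : ∀ x, (D.st V (D.pt x)).mkQ (b.1 ⟨D.η, trivial⟩) = (q w).1 ⟨D.pt x, trivial⟩ :=
      fun x => b.2.1 ⟨_, trivial⟩ _ ▸ congr(($hb).1 ⟨D.pt x, trivial⟩)
    exact ⟨b.1 ⟨D.η, trivial⟩, fun x h => Dict.mk_zero.1 ((h4 x).trans (q0 _ x h)),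
      fun x h => Dict.mk_eq.1 ((h4 x).trans (qi _ x h)).symm⟩
  · exact ⟨k ⊤ v, ext (fun x h => (Dict.mk_zero.2 (h4 x h)).trans (q0 _ x h).symm)
      fun x h => ((qi _ x h).trans (Dict.mk_eq.2 (h5 x h))).symm⟩

end Pool.Agent.Lib.CQ88
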